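import Mathlib

/-!
Order automorphisms of the line acting blockwise on the unit intervals `[n, n+1]`.
-/

set_option autoImplicit false

namespace Pool.Agent.R663

/-- the group of increasing bijections of the line -/
abbrev G := ℝ ≃o ℝ

/-- a chart from the line onto the open unit interval -/
noncomputable def th (x : ℝ) : ℝ := 1 / 2 + (x - 1 / 2) / (1 + 2 * |x - 1 / 2|)

/-- the inverse chart -/
noncomputable def ti (t : ℝ) : ℝ := 1 / 2 + (t - 1 / 2) / (1 - 2 * |t - 1 / 2|)

lemma th_pos (x : ℝ) : 0 < th x := by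
  have h : 0 < 1 + 2 * |x - 1 / 2| := by positivity
  have h2 : -(1 / 2) < (x - 1 / 2) / (1 + 2 * |x - 1 / 2|) := by
    rw [lt_div_iff₀ h]
    have := neg_abs_le (x - 1 / 2)
    linarith
  unfold th; linarith

lemma th_lt (x : ℝ) : th x < 1 := by
  have h : 0 < 1 + 2 * |x - 1 / 2| := by positivity
  have h2 : (x - 1 / 2) / (1 + 2 * |x - 1 / 2|) < 1 / 2 := by
    rw [div_lt_iff₀ h]
    have := le_abs_self (x - 1 / 2)
    linarith
  unfold th; linarith

lemma ti_th (x : ℝ) : ti (th x) = x := by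
  obtain ⟨d, hd⟩ : ∃ d, d = 1 + 2 * |x - 1 / 2| := ⟨_, rfl⟩
  have h : 0 < d := by rw [hd]; positivity
  have e : th x - 1 / 2 = (x - 1 / 2) / d := by unfold th; rw [← hd]; ring
  unfold ti
  rw [e, abs_div, abs_of_pos h]
  have e2 : 1 - 2 * (|x - 1 / 2| / d) = 1 / d := by
    rw [eq_div_iff h.ne']
    have := div_mul_cancel₀ |x - 1 / 2| h.ne'
    linear_combination (-2) * this + hd
  rw [e2, div_div_div_cancel_right₀ h.ne', div_one]
  ring

lemma th_ti {t : ℝ} (h0 : 0 < t) (h1 : t < 1) : th (ti t) = t := by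
  obtain ⟨d, hd⟩ : ∃ d, d = 1 - 2 * |t - 1 / 2| := ⟨_, rfl⟩
  have h : 0 < d := by
    have : |t - 1 / 2| < 1 / 2 := by rw [abs_lt]; constructor <;> linarith
    rw [hd]; linarith
  have e : ti t - 1 / 2 = (t - 1 / 2) / d := by unfold ti; rw [← hd]; ring
  unfold th
  rw [e, abs_div, abs_of_pos h]
  have e2 : 1 + 2 * (|t - 1 / 2| / d) = 1 / d := by
    rw [eq_div_iff h.ne']
    have := div_mul_cancel₀ |t - 1 / 2| h.ne'
    linear_combination 2 * this + hd
  rw [e2, div_div_div_cancel_right₀ h.ne', div_one]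
  ring

lemma th_mono : StrictMono th := by
  -- derivative-free proof: compare via the inverse
  intro x y hxy
  unfold th
  have hx : 0 < 1 + 2 * |x - 1 / 2| := by positivity
  have hy : 0 < 1 + 2 * |y - 1 / 2| := by positivity
  have : (x - 1 / 2) / (1 + 2 * |x - 1 / 2|) < (y - 1 / 2) / (1 + 2 * |y - 1 / 2|) := by
    rw [div_lt_div_iff₀ hx hy]
    rcases le_or_gt 0 (x - 1 / 2) with h1 | h1 <;> rcases le_or_gt 0 (y - 1 / 2) with h2 | h2
    · rw [abs_of_nonneg h1, abs_of_nonneg h2]; nlinarith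
    · linarith
    · rw [abs_of_neg h1, abs_of_nonneg h2]; nlinarith
    · rw [abs_of_neg h1, abs_of_neg h2]; nlinarith
  linarith

lemma ti_mono {s t : ℝ} (h0 : 0 < s) (h1 : t < 1) (h : s < t) : ti s < ti t := by
  rw [← th_mono.lt_iff_lt, th_ti h0 (h.trans h1), th_ti (h0.trans h) h1]
  exact h

/-- action of an automorphism on the half-open unit interval -/
noncomputable def ev (u : G) (t : ℝ) : ℝ := if t = 0 then 0 else th (u (ti t))

lemma ev_nonneg (u : G) (t : ℝ) : 0 ≤ ev u t := by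
  unfold ev; split_ifs
  · exact le_refl _
  · exact (th_pos _).le

lemma ev_lt (u : G) (t : ℝ) : ev u t < 1 := by
  unfold ev; split_ifs
  · exact one_pos
  · exact th_lt _

lemma ev_one {t : ℝ} (h0 : 0 ≤ t) (h1 : t < 1) : ev 1 t = t := by
  unfold ev; split_ifs with h
  · exact h.symm
  · exact th_ti (lt_of_le_of_ne h0 (Ne.symm h)) h1

lemma ev_mul (u v : G) (t : ℝ) : ev (u * v) t = ev u (ev v t) := by
  unfold ev
  split_ifs with h h2 h2
  · rfl
  · exact absurd rfl h2
  · exact absurd h2 (th_pos _).ne'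
  · rw [ti_th]; rfl

lemma ev_mono (u : G) {s t : ℝ} (h0 : 0 ≤ s) (h1 : t < 1) (h : s < t) : ev u s < ev u t := by
  have ht : t ≠ 0 := (lt_of_le_of_lt h0 h).ne'
  unfold ev
  rw [if_neg ht]
  split_ifs with hs
  · exact th_pos _
  · exact th_mono (u.strictMono (ti_mono (lt_of_le_of_ne h0 (Ne.symm hs)) h1 h))

/-- the blockwise action as a function -/
noncomputable def blkF (w : ℤ → G) (x : ℝ) : ℝ := ⌊x⌋ + ev (w ⌊x⌋) (Int.fract x)

lemma blkF_floor (w : ℤ → G) (x : ℝ) : ⌊blkF w x⌋ = ⌊x⌋ := by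
  unfold blkF
  rw [Int.floor_intCast_add, Int.floor_eq_zero_iff.2 ⟨ev_nonneg _ _, ev_lt _ _⟩, add_zero]

lemma blkF_fract (w : ℤ → G) (x : ℝ) : Int.fract (blkF w x) = ev (w ⌊x⌋) (Int.fract x) := by
  rw [Int.fract, blkF_floor, blkF]; ring

lemma blkF_mul (w v : ℤ → G) (x : ℝ) : blkF (w * v) x = blkF w (blkF v x) := by
  conv_rhs => rw [blkF]
  rw [blkF_floor, blkF_fract, ← ev_mul]; rfl

lemma blkF_one (x : ℝ) : blkF 1 x = x := by
  unfold blkF
  rw [Pi.one_apply, ev_one (Int.fract_nonneg _) (Int.fract_lt_one _), Int.floor_add_fract]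

lemma blkF_mono (w : ℤ → G) : StrictMono (blkF w) := by
  intro x y hxy
  rcases lt_trichotomy ⌊x⌋ ⌊y⌋ with h | h | h
  · have h' : (⌊x⌋ : ℝ) + 1 ≤ ⌊y⌋ := by exact_mod_cast h
    have h1 := ev_lt (w ⌊x⌋) (Int.fract x)
    have h2 := ev_nonneg (w ⌊y⌋) (Int.fract y)
    unfold blkF; linarith
  · unfold blkF
    rw [← h]
    have : Int.fract x < Int.fract y := by
      rw [Int.fract, Int.fract, ← h]; linarith
    have := ev_mono (w ⌊x⌋) (Int.fract_nonneg x) (Int.fract_lt_one y) this
    linarith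
  · exact absurd (Int.floor_mono hxy.le) (not_le.2 h)

/-- the automorphism acting on `[n, n+1]` like `w n` (via the chart) -/
noncomputable def blk : (ℤ → G) →* G where
  toFun w := (blkF_mono w).orderIsoOfRightInverse (blkF w) (blkF w⁻¹) (fun x => by
    rw [← blkF_mul, mul_inv_cancel, blkF_one])
  map_one' := by ext x; exact blkF_one x
  map_mul' w v := by ext x; exact blkF_mul w v x

lemma blk_apply (w : ℤ → G) (x : ℝ) : blk w x = blkF w x := rfl

lemma blk_chart (w : ℤ → G) (n : ℤ) (y : ℝ) : blk w (n + th y) = n + th (w n y) := by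
  have h0 := th_pos y
  have h1 := th_lt y
  have e : ⌊(n : ℝ) + th y⌋ = n := by
    rw [Int.floor_intCast_add, Int.floor_eq_zero_iff.2 ⟨h0.le, h1⟩, add_zero]
  have e2 : Int.fract ((n : ℝ) + th y) = th y := by rw [Int.fract, e]; ring
  rw [blk_apply, blkF, e, e2, ev, if_neg h0.ne', ti_th]

lemma blk_int (w : ℤ → G) (n : ℤ) : blk w n = n := by
  rw [blk_apply, blkF, Int.floor_intCast, Int.fract_intCast, ev, if_pos rfl, add_zero]

/-- every real number is an integer or lies in a chart -/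
lemma cases_chart (x : ℝ) : (∃ n : ℤ, x = n) ∨ ∃ (n : ℤ) (y : ℝ), x = n + th y := by
  by_cases h : Int.fract x = 0
  · left; exact ⟨⌊x⌋, by have := Int.floor_add_fract x; rw [h, add_zero] at this; exact this.symm⟩
  · right
    refine ⟨⌊x⌋, ti (Int.fract x), ?_⟩
    rw [th_ti (lt_of_le_of_ne (Int.fract_nonneg x) (Ne.symm h)) (Int.fract_lt_one x),
      Int.floor_add_fract]

lemma blk_ext {w : ℤ → G} {u : G} (h0 : ∀ n : ℤ, u n = n)
    (h : ∀ (n : ℤ) (y : ℝ), u (n + th y) = n + th (w n y)) : blk w = u := by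
  ext x
  rcases cases_chart x with ⟨n, rfl⟩ | ⟨n, y, rfl⟩
  · rw [blk_int, h0]
  · rw [blk_chart, h]

/-- unit translation -/
noncomputable def U : G := OrderIso.addRight 1

lemma U_apply (x : ℝ) : U x = x + 1 := rfl

lemma U_blk (w : ℤ → G) : U * blk w = blk (fun n => w (n - 1)) * U := by
  ext x
  change blk w x + 1 = blk (fun n => w (n - 1)) (x + 1)
  rcases cases_chart x with ⟨n, rfl⟩ | ⟨n, y, rfl⟩
  · have e : (n : ℝ) + 1 = ((n + 1 : ℤ) : ℝ) := by push_cast; ring
    rw [blk_int, e, blk_int]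
  · have e : (n : ℝ) + th y + 1 = ((n + 1 : ℤ) : ℝ) + th y := by push_cast; ring
    rw [blk_chart, e, blk_chart, add_sub_cancel_right]
    push_cast; ring

lemma U_blk_conj (w : ℤ → G) : U * blk w * U⁻¹ = blk (fun n => w (n - 1)) := by
  rw [U_blk, mul_inv_cancel_right]

lemma U_blk_conj' (w : ℤ → G) : U⁻¹ * blk w * U = blk (fun n => w (n + 1)) := by
  have h := U_blk_conj (fun n => w (n + 1))
  simp only [sub_add_cancel] at h
  rw [← h]; group

lemma U_pow_blk_conj' (w : ℤ → G) (p : ℕ) :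
    (U ^ p)⁻¹ * blk w * U ^ p = blk (fun n => w (n + p)) := by
  induction p with
  | zero => simp
  | succ p ih =>
    have e : (U ^ (p + 1))⁻¹ * blk w * U ^ (p + 1) = U⁻¹ * ((U ^ p)⁻¹ * blk w * U ^ p) * U := by
      rw [pow_succ]; group
    rw [e, ih, U_blk_conj']
    congr 1
    funext n
    congr 1
    push_cast; ring

/-- an automorphism fixing all integers is a block automorphism -/
lemma exists_blk (u : G) (hu : ∀ n : ℤ, u n = n) : ∃ w : ℤ → G, blk w = u := by
  have key : ∀ v : G, (∀ n : ℤ, v n = n) → ∀ (n : ℤ) (y : ℝ),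
      0 < v (n + th y) - n ∧ v (n + th y) - n < 1 := by
    intro v hv n y
    have h1 : v n < v (n + th y) := v.strictMono (by have := th_pos y; linarith)
    have h2 : v (n + th y) < v ((n + 1 : ℤ) : ℝ) := v.strictMono (by
      have := th_lt y; push_cast; linarith)
    rw [hv] at h1 h2
    push_cast at h2
    constructor <;> linarith
  have hui : ∀ n : ℤ, u⁻¹ n = n := by
    intro n
    have : u⁻¹ (u n) = n := by change (u⁻¹ * u) (n : ℝ) = n; rw [inv_mul_cancel]; rfl
    rwa [hu] at this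
  let F : G → ℤ → ℝ → ℝ := fun v n y => ti (v (n + th y) - n)
  have hF : ∀ v : G, (∀ n : ℤ, v n = n) → ∀ (n : ℤ) (y : ℝ), (n : ℝ) + th (F v n y) = v (n + th y) := by
    intro v hv n y
    obtain ⟨h1, h2⟩ := key v hv n y
    change (n : ℝ) + th (ti _) = _
    rw [th_ti h1 h2]; ring
  have hm : ∀ n, StrictMono (F u n) := by
    intro n x y hxy
    obtain ⟨h1, -⟩ := key u hu n x
    obtain ⟨-, h2⟩ := key u hu n y
    refine ti_mono h1 h2 ?_
    have := u.strictMono (show (n : ℝ) + th x < n + th y by have := th_mono hxy; linarith)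
    linarith
  refine ⟨fun n => (hm n).orderIsoOfRightInverse _ (F u⁻¹ n) (fun y => ?_), ?_⟩
  · have h1 := hF u hu n (F u⁻¹ n y)
    rw [hF u⁻¹ hui n y] at h1
    have h2 : u (u⁻¹ (n + th y)) = n + th y := by
      change (u * u⁻¹) ((n : ℝ) + th y) = _; rw [mul_inv_cancel]; rfl
    rw [h2] at h1
    have h3 : th (F u n (F u⁻¹ n y)) = th y := by linarith
    exact th_mono.injective h3
  · refine blk_ext hu ?_
    intro n y
    exact (hF u hu n y).symm

/-- implant into the unit interval `[0,1]` -/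
noncomputable def imp (u : G) : G := blk (fun m => if m = 0 then u else 1)

lemma th_zero : th 0 = 1 / 4 := by unfold th; norm_num
lemma th_one : th 1 = 3 / 4 := by unfold th; norm_num [abs_of_pos]
lemma th_quarter : th (1 / 4) = 1 / 3 := by unfold th; norm_num
lemma th_three : th (3 / 4) = 2 / 3 := by unfold th; norm_num [abs_of_pos]

/-- an automorphism supported in `[0,1]` is implanted -/
lemma exists_imp (u : G) (hu : ∀ x, (x ≤ 0 ∨ 1 ≤ x) → u x = x) : ∃ v, imp v = u := by
  have hn : ∀ n : ℤ, u n = n := by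
    intro n
    apply hu
    rcases le_or_gt n 0 with h | h
    · left; exact_mod_cast h
    · right; exact_mod_cast h
  obtain ⟨w, hw⟩ := exists_blk u hn
  refine ⟨w 0, ?_⟩
  rw [imp]
  refine blk_ext hn ?_
  intro n y
  split_ifs with h
  · rw [← hw, blk_chart, h]
  · have h0 := th_pos y
    have h1 := th_lt y
    rw [hu]
    · rfl
    · rcases lt_or_gt_of_ne h with h | h
      · left
        have : (n : ℝ) + 1 ≤ 0 := by exact_mod_cast h
        linarith
      · right
        have : (1 : ℝ) ≤ n := by exact_mod_cast h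
        linarith

/-- an automorphism supported in `[1/4,3/4]` is doubly implanted -/
lemma exists_imp2 (u : G) (hu : ∀ x, (x ≤ 1 / 4 ∨ 3 / 4 ≤ x) → u x = x) :
    ∃ v, imp (imp v) = u := by
  obtain ⟨v, hv⟩ := exists_imp u (fun x hx => hu x (by rcases hx with h | h; exacts [Or.inl (by linarith), Or.inr (by linarith)]))
  obtain ⟨v', hv'⟩ := exists_imp v (fun x hx => by
    have h1 : u (0 + th x) = 0 + th x := by
      apply hu
      rw [zero_add]
      rcases hx with h | h
      · left; rw [← th_zero]; exact th_mono.monotone h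
      · right; rw [← th_one]; exact th_mono.monotone h
    have h2 : imp v ((0 : ℤ) + th x) = (0 : ℤ) + th (v x) := by
      rw [imp, blk_chart, if_pos rfl]
    rw [hv] at h2
    push_cast at h2
    rw [h1] at h2
    have h3 : th x = th (v x) := by linarith
    exact (th_mono.injective h3).symm)
  exact ⟨v', by rw [hv', hv]⟩

end Pool.Agent.R663
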