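import Mathlib

set_option autoImplicit false

/-! An end of a group: a character with kernel exhausted by the conjugates of a bounded subgroup,
and the behaviour of automorphisms preserving it. -/

open scoped Pointwise

namespace Pool.Agent.R663.EndAbs

variable {G : Type*} [Group G]

/-- Bounded subgroups of the kernel of `χ`: those centralized by an element outside the kernel. -/
def Bdd (χ : G →* Multiplicative ℤ) (M : Subgroup G) : Prop :=
  M ≤ χ.ker ∧ ∃ g, g ∉ χ.ker ∧ ∀ m ∈ M, g * m = m * g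

/-- an end of the group -/
structure EndData (χ : G →* Multiplicative ℤ) (a : G) where
  L : ℕ → Subgroup G
  ha : χ a = Multiplicative.ofAdd 1
  hL : ∀ j, L (j + 1) = MulAut.conj a • L j
  hmono : ∀ j, L j ≤ L (j + 1)
  hbdd : ∀ j, Bdd χ (L j)
  hcof : ∀ M, Bdd χ M → ∃ j, M ≤ L j
  hne : ∀ j, ¬ L (j + 1) ≤ L j
  hN : ∀ ν ∈ χ.ker, ∃ j, ν ∈ L j

/-- automorphisms preserving the kernel -/
def Good (χ : G →* Multiplicative ℤ) (α : MulAut G) : Prop := α • χ.ker = χ.ker

/-- expanding automorphisms -/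
def Exp (χ : G →* Multiplicative ℤ) (g : MulAut G) : Prop :=
  Good χ g ∧ ∃ L : Subgroup G, Bdd χ L ∧ ∀ M, Bdd χ M → ∃ n : ℕ, ∀ m ≥ n, M ≤ g ^ m • L

variable {χ : G →* Multiplicative ℤ} {a : G}

theorem Good.mul {α β : MulAut G} (hα : Good χ α) (hβ : Good χ β) : Good χ (α * β) := by
  unfold Good at *
  rw [mul_smul, hβ, hα]

theorem Good.inv {α : MulAut G} (hα : Good χ α) : Good χ α⁻¹ := by
  unfold Good at *
  rw [inv_smul_eq_iff, hα]

theorem Good.one : Good χ (1 : MulAut G) := by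
  unfold Good
  rw [one_smul]

theorem Good.pow {α : MulAut G} (hα : Good χ α) (n : ℕ) : Good χ (α ^ n) := by
  induction n with
  | zero => rw [pow_zero]; exact Good.one
  | succ n ih => rw [pow_succ]; exact ih.mul hα

theorem Good.mem_iff {α : MulAut G} (hα : Good χ α) (g : G) : α g ∈ χ.ker ↔ g ∈ χ.ker := by
  have h : (α • g ∈ α • χ.ker) ↔ g ∈ χ.ker := Subgroup.smul_mem_pointwise_smul_iff
  rw [hα] at h
  exact h

theorem good_conj (c : G) : Good χ (MulAut.conj c) := by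
  unfold Good
  exact Subgroup.Normal.conj_smul_eq_self c χ.ker

theorem Bdd.smul {α : MulAut G} (hα : Good χ α) {M : Subgroup G} (hM : Bdd χ M) :
    Bdd χ (α • M) := by
  obtain ⟨h1, g, hg, h2⟩ := hM
  refine ⟨?_, α g, ?_, ?_⟩
  · rw [← hα]
    exact Subgroup.pointwise_smul_le_pointwise_smul_iff.2 h1
  · rwa [hα.mem_iff]
  · intro m hm
    obtain ⟨x, hx, rfl⟩ := (Subgroup.mem_smul_pointwise_iff_exists _ _ _).1 hm
    have := h2 x hx
    change α g * α x = α x * α g
    rw [← map_mul, this, map_mul]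

theorem Bdd.mono {M M' : Subgroup G} (h : M' ≤ M) (hM : Bdd χ M) : Bdd χ M' := by
  obtain ⟨h1, g, hg, h2⟩ := hM
  exact ⟨h.trans h1, g, hg, fun m hm => h2 m (h hm)⟩

theorem smul_mono' {α : MulAut G} {M M' : Subgroup G} (h : M ≤ M') : α • M ≤ α • M' :=
  Subgroup.pointwise_smul_le_pointwise_smul_iff.2 h

theorem Exp.conj {β g : MulAut G} (hβ : Good χ β) (hg : Exp χ g) : Exp χ (β * g * β⁻¹) := by
  obtain ⟨h1, L, hL, h2⟩ := hg
  refine ⟨(hβ.mul h1).mul hβ.inv, β • L, hL.smul hβ, ?_⟩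
  intro M hM
  obtain ⟨n, hn⟩ := h2 (β⁻¹ • M) (hM.smul hβ.inv)
  refine ⟨n, fun m hm => ?_⟩
  have h := smul_mono' (α := β) (hn m hm)
  rw [smul_inv_smul] at h
  rwa [conj_pow, mul_smul, inv_smul_smul, mul_smul]

theorem Exp.conj_iff {β g : MulAut G} (hβ : Good χ β) : Exp χ (β * g * β⁻¹) ↔ Exp χ g := by
  constructor
  · intro h
    have := h.conj hβ.inv
    have e : β⁻¹ * (β * g * β⁻¹) * β⁻¹⁻¹ = g := by group
    rwa [e] at this
  · exact fun h => h.conj hβ

section
variable (E : EndData χ a)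
include E

theorem Lmono : Monotone E.L := monotone_nat_of_le_succ E.hmono

theorem L_add (j n : ℕ) : E.L (j + n) = MulAut.conj a ^ n • E.L j := by
  induction n with
  | zero => rw [pow_zero, one_smul]; rfl
  | succ n ih => rw [← add_assoc, E.hL, ih, pow_succ', mul_smul]

theorem Exp.mul_left {g : MulAut G} {ν : G} (hν : ν ∈ χ.ker) (hg : Exp χ g) :
    Exp χ (MulAut.conj ν * g) := by
  obtain ⟨h1, L, hL, h2⟩ := hg
  obtain ⟨j, hj⟩ := E.hN ν hν
  obtain ⟨n, hn⟩ := h2 (E.L j) (E.hbdd j)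
  have key : ∀ m : ℕ, (MulAut.conj ν * g) ^ m • (g ^ n • L) = g ^ (m + n) • L := by
    intro m
    induction m with
    | zero => rw [pow_zero, one_smul, zero_add]
    | succ m ih =>
      rw [pow_succ', mul_smul, ih, mul_smul, ← mul_smul g, ← pow_succ',
        Subgroup.conj_smul_eq_self_of_mem (hn (m + n + 1) (by omega) hj)]
      congr 2
      omega
  refine ⟨(good_conj ν).mul h1, g ^ n • L, hL.smul (h1.pow n), ?_⟩
  intro M hM
  obtain ⟨n', hn'⟩ := h2 M hM
  refine ⟨n', fun m hm => ?_⟩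
  rw [key]
  exact hn' _ (by omega)

theorem Exp.mul_left_iff {g : MulAut G} {ν : G} (hν : ν ∈ χ.ker) :
    Exp χ (MulAut.conj ν * g) ↔ Exp χ g := by
  constructor
  · intro h
    have := h.mul_left E (χ.ker.inv_mem hν)
    rwa [← mul_assoc, ← map_mul, inv_mul_cancel, map_one, one_mul] at this
  · exact fun h => h.mul_left E hν

theorem not_both {g : MulAut G} (h : Exp χ g) (h' : Exp χ g⁻¹) : False := by
  obtain ⟨_, L, hL, h2⟩ := h
  obtain ⟨_, L', hL', h2'⟩ := h'
  obtain ⟨e, he⟩ := E.hcof L hL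
  obtain ⟨n, hn⟩ := h2 L' hL'
  obtain ⟨n', hn'⟩ := h2' (E.L (e + 1)) (E.hbdd _)
  have a1 := hn (max n n') (le_max_left _ _)
  have a2 := hn' (max n n') (le_max_right _ _)
  have a3 := smul_mono' (α := (g ^ max n n')⁻¹) a1
  rw [inv_smul_smul] at a3
  rw [inv_pow] at a2
  exact E.hne e (a2.trans (a3.trans he))

theorem exp_a : Exp χ (MulAut.conj a) := by
  refine ⟨good_conj a, E.L 0, E.hbdd 0, fun M hM => ?_⟩
  obtain ⟨j, hj⟩ := E.hcof M hM
  refine ⟨j, fun m hm => ?_⟩
  rw [← L_add E, zero_add]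
  exact hj.trans (Lmono E hm)

theorem conj_mul_ker {x y : G} (h : χ x = χ y) (g : MulAut G) :
    Exp χ (MulAut.conj x * g) ↔ Exp χ (MulAut.conj y * g) := by
  have hν : x * y⁻¹ ∈ χ.ker := by
    rw [MonoidHom.mem_ker, map_mul, map_inv, h, mul_inv_cancel]
  have e : MulAut.conj x * g = MulAut.conj (x * y⁻¹) * (MulAut.conj y * g) := by
    rw [← mul_assoc, ← map_mul]
    congr 2
    group
  rw [e]
  exact Exp.mul_left_iff E hν

theorem eq_pow (g : G) : χ (a ^ (Multiplicative.toAdd (χ g))) = χ g := by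
  rw [map_zpow, E.ha, ← ofAdd_zsmul]
  simp

theorem sign {β : MulAut G} (hβ : Good χ β) (g : G) : χ (β g) = χ g := by
  have hlin : ∀ g, χ (β g) = χ (β a) ^ (Multiplicative.toAdd (χ g)) := by
    intro g
    have h1 : g * (a ^ (Multiplicative.toAdd (χ g)))⁻¹ ∈ χ.ker := by
      rw [MonoidHom.mem_ker, map_mul, map_inv, eq_pow E, mul_inv_cancel]
    have h2 := (hβ.mem_iff _).2 h1
    rw [MonoidHom.mem_ker, map_mul, map_inv, map_zpow, map_mul, map_inv, map_zpow] at h2
    exact mul_inv_eq_one.1 h2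
  obtain ⟨x, hx⟩ := β.surjective a
  have h1 := hlin x
  rw [hx, E.ha] at h1
  have h2 : (1 : ℤ) = Multiplicative.toAdd (χ x) * Multiplicative.toAdd (χ (β a)) := by
    have := congrArg Multiplicative.toAdd h1
    rw [toAdd_zpow, toAdd_ofAdd, smul_eq_mul] at this
    exact this
  have h3 : Multiplicative.toAdd (χ (β a)) = 1 ∨ Multiplicative.toAdd (χ (β a)) = -1 :=
    Int.isUnit_iff.1 (IsUnit.of_mul_eq_one _ (by rw [mul_comm]; exact h2.symm))
  rcases h3 with h3 | h3
  · rw [hlin g, ← ofAdd_toAdd (χ (β a)), h3, ← ofAdd_zsmul]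
    simp
  · exfalso
    have e1 : Exp χ (MulAut.conj (β a)) := by
      have := (exp_a E).conj hβ
      have e : β * MulAut.conj a * β⁻¹ = MulAut.conj (β a) := by
        ext y
        simp [MulAut.conj_apply]
      rwa [e] at this
    have e2 : χ (β a) = χ a⁻¹ := by
      rw [map_inv, E.ha, ← ofAdd_toAdd (χ (β a)), h3, ofAdd_neg]
    have e3 := (conj_mul_ker E e2 1).1 (by rwa [mul_one])
    rw [mul_one, map_inv] at e3
    exact not_both E (exp_a E) e3

theorem conj_comm (β : MulAut G) (c : G) : β * MulAut.conj c = MulAut.conj (β c) * β := by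
  ext y
  simp [MulAut.conj_apply]

theorem big {β : MulAut G} (hβ : Good χ β) :
    ∃ n0 : ℕ, ∀ n ≥ n0, Exp χ (MulAut.conj a ^ n * β) := by
  have hb : χ (β⁻¹ a) = χ a := sign E hβ.inv a
  have hν : a⁻¹ * β⁻¹ a ∈ χ.ker := by
    rw [MonoidHom.mem_ker, map_mul, map_inv, hb, inv_mul_cancel]
  obtain ⟨d, hd⟩ := E.hN _ hν
  obtain ⟨e0, he0⟩ := E.hcof _ ((E.hbdd d).smul hβ.inv)
  set e := max d e0 with hedef
  have he : β⁻¹ • E.L d ≤ E.L e := he0.trans (Lmono E (le_max_right _ _))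
  have hde : d ≤ e := le_max_left _ _
  have key : ∀ m : ℕ, β⁻¹ • E.L (d + m) ≤ E.L (e + m) := by
    intro m
    induction m with
    | zero => exact he
    | succ m ih =>
      have e1 : β⁻¹ • E.L (d + (m + 1)) = MulAut.conj (β⁻¹ a) • β⁻¹ • E.L (d + m) := by
        rw [← add_assoc, E.hL, ← mul_smul, ← mul_smul, conj_comm E]
      rw [e1]
      refine (smul_mono' ih).trans ?_
      have e2 : MulAut.conj (β⁻¹ a) = MulAut.conj a * MulAut.conj (a⁻¹ * β⁻¹ a) := by
        rw [← map_mul]; congr 1; group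
      rw [e2, mul_smul, Subgroup.conj_smul_eq_self_of_mem (Lmono E (by omega) hd), ← E.hL]
      exact le_of_eq (by rw [← add_assoc])
  refine ⟨e + 1, fun n hn => ?_⟩
  have hg : Good χ (MulAut.conj a ^ n * β) := ((good_conj a).pow n).mul hβ
  have step : ∀ m : ℕ, E.L (e + m + 1) ≤ (MulAut.conj a ^ n * β) • E.L (e + m) := by
    intro m
    have h1 := smul_mono' (α := β) (key m)
    rw [smul_inv_smul] at h1
    have h2 := smul_mono' (α := MulAut.conj a ^ n) h1
    rw [← L_add E, ← mul_smul] at h2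
    exact (Lmono E (by omega)).trans h2
  have step2 : ∀ m : ℕ, E.L (e + m) ≤ (MulAut.conj a ^ n * β) ^ m • E.L e := by
    intro m
    induction m with
    | zero => rw [pow_zero, one_smul]; rfl
    | succ m ih =>
      rw [pow_succ', mul_smul]
      exact (step m).trans (smul_mono' ih)
  refine ⟨hg, E.L e, E.hbdd e, fun M hM => ?_⟩
  obtain ⟨j, hj⟩ := E.hcof M hM
  exact ⟨j, fun m hm => (hj.trans (Lmono E (by omega))).trans (step2 m)⟩

theorem exp_big {β : MulAut G} (hβ : Good χ β) :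
    ∃ n0 : ℤ, ∀ n ≥ n0, Exp χ (MulAut.conj (a ^ n) * β) := by
  obtain ⟨n0, h⟩ := big E hβ
  refine ⟨n0, fun n hn => ?_⟩
  have := h n.toNat (by omega)
  rw [← map_pow, ← zpow_natCast, Int.toNat_of_nonneg (by omega)] at this
  exact this

theorem not_exp_small {β : MulAut G} (hβ : Good χ β) :
    ∃ n0 : ℤ, ∀ n ≤ n0, ¬ Exp χ (MulAut.conj (a ^ n) * β) := by
  obtain ⟨n0, h⟩ := exp_big E hβ.inv
  refine ⟨-n0, fun n hn hc => ?_⟩
  have h1 := (h (-n) (by omega)).conj hβ.inv
  refine not_both E hc ?_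
  have e : (MulAut.conj (a ^ n) * β)⁻¹ = β⁻¹ * (MulAut.conj (a ^ (-n)) * β⁻¹) * β⁻¹⁻¹ := by
    rw [zpow_neg, map_inv]
    group
  rwa [e]

/-- **Commutators of automorphisms preserving an end, when inner, are inner by an element of the
kernel.** -/
theorem main1 {α β : MulAut G} (hα : Good χ α) (hβ : Good χ β) {c : G}
    (h : α * β * α⁻¹ * β⁻¹ = MulAut.conj c) : χ c = 1 := by
  have hα' : α * β * α⁻¹ = MulAut.conj c * β := by
    rw [← h]; group
  have hshift : ∀ n : ℤ, Exp χ (MulAut.conj (a ^ n) * β) ↔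
      Exp χ (MulAut.conj (a ^ (n + Multiplicative.toAdd (χ c))) * β) := by
    intro n
    rw [← Exp.conj_iff hα]
    have e : α * (MulAut.conj (a ^ n) * β) * α⁻¹ = MulAut.conj (α (a ^ n) * c) * β := by
      rw [← mul_assoc, conj_comm E α (a ^ n), map_mul, mul_assoc, mul_assoc, ← mul_assoc α, hα']
      rw [mul_assoc]
    rw [e]
    apply conj_mul_ker E
    rw [map_mul, sign E hα, map_zpow, map_zpow, E.ha, ← ofAdd_zsmul, ← ofAdd_zsmul]
    rw [← ofAdd_toAdd (χ c), ← ofAdd_add]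
    simp
  by_contra hne
  set k := Multiplicative.toAdd (χ c) with hk
  have hk0 : k ≠ 0 := by
    intro h0
    apply hne
    rw [← ofAdd_toAdd (χ c), ← hk, h0]
    rfl
  have hall : ∀ (j : ℤ) (n : ℤ), Exp χ (MulAut.conj (a ^ n) * β) ↔
      Exp χ (MulAut.conj (a ^ (n + j * k)) * β) := by
    intro j
    induction j using Int.induction_on with
    | zero => intro n; simp
    | succ j ih =>
      intro n
      rw [ih n, hshift (n + j * k)]
      rw [show n + j * k + k = n + (j + 1) * k by ring]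
    | pred j ih =>
      intro n
      rw [ih n, hshift (n + (-(j : ℤ) - 1) * k)]
      rw [show n + (-(j : ℤ) - 1) * k + k = n + -(j : ℤ) * k by ring]
  obtain ⟨n0, h0⟩ := exp_big E hβ
  obtain ⟨n1, h1⟩ := not_exp_small E hβ
  have h2 := h0 n0 le_rfl
  -- choose `j` with `n0 + j * k ≤ n1`
  rcases lt_or_gt_of_ne hk0 with hneg | hpos
  · have := (hall |n0 - n1| n0).1 h2
    refine h1 _ ?_ this
    nlinarith [le_abs_self (n0 - n1), abs_nonneg (n0 - n1)]
  · have := (hall (-|n0 - n1|) n0).1 h2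
    refine h1 _ ?_ this
    nlinarith [le_abs_self (n0 - n1), abs_nonneg (n0 - n1)]

end

end Pool.Agent.R663.EndAbs
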