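import Mathlib
import Pool.Agent.R663.EndAbs

set_option autoImplicit false

/-! A group with two ends, interchanged by an involution, whose automorphisms permute the ends, is
not a commutator subgroup, if its characters are independent enough. -/

open scoped Pointwise commutatorElement

namespace Pool.Agent.R663.EndAbs

variable {G : Type*} [Group G] {χ : G →* Multiplicative ℤ} {a : G}

/-- the sum of the characters at both ends -/
def tot (χ : G →* Multiplicative ℤ) (ρ : MulAut G) (c : G) : Multiplicative ℤ := χ c * χ (ρ c)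

section
variable (E : EndData χ a) (ρ : MulAut G) (hρ : ρ * ρ = 1)
  (hne : ρ • χ.ker ≠ χ.ker) (hall : ∀ α : MulAut G, α • χ.ker = χ.ker ∨ α • χ.ker = ρ • χ.ker)

theorem conj_eq (α β : MulAut G) (c : G) (h : β * α * β⁻¹ * α⁻¹ = MulAut.conj c) (γ : MulAut G) :
    (γ * β * γ⁻¹) * (γ * α * γ⁻¹) * (γ * β * γ⁻¹)⁻¹ * (γ * α * γ⁻¹)⁻¹ = MulAut.conj (γ c) := by
  have e : γ * MulAut.conj c * γ⁻¹ = MulAut.conj (γ c) := by
    ext y
    simp [MulAut.conj_apply]
  rw [← e, ← h]
  group

include hne hall hρ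

theorem good_or (α : MulAut G) : Good χ α ∨ Good χ (α * ρ) := by
  have hinv : ρ⁻¹ = ρ := inv_eq_of_mul_eq_one_left hρ
  by_cases h : Good χ α
  · exact Or.inl h
  · right
    -- `α • ker = ρ • ker`
    have h1 : α • χ.ker = ρ • χ.ker := (hall α).resolve_left h
    rcases hall (α * ρ) with h2 | h2
    · exact h2
    · exfalso
      rw [mul_smul] at h2
      exact hne (smul_left_cancel α (h2.trans h1.symm))

theorem good_swap {α : MulAut G} (h : Good χ α) : Good χ (ρ * α * ρ⁻¹) := by
  have hinv : ρ⁻¹ = ρ := inv_eq_of_mul_eq_one_left hρ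
  rcases hall (ρ * α * ρ⁻¹) with h1 | h1
  · exact h1
  · exfalso
    rw [mul_assoc, mul_smul] at h1
    have h2 := smul_left_cancel ρ h1
    rw [hinv, mul_smul] at h2
    have h3 : ρ • χ.ker = α⁻¹ • χ.ker := eq_inv_smul_iff.2 h2
    rw [h.inv] at h3
    exact hne h3

theorem sw_mul {α : MulAut G} (h : Good χ (α * ρ)) : Good χ (ρ * α) := by
  have hinv : ρ⁻¹ = ρ := inv_eq_of_mul_eq_one_left hρ
  have := good_swap ρ hρ hne hall h
  have e : ρ * (α * ρ) * ρ⁻¹ = ρ * α := by group
  rwa [e] at this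

include E

theorem tot_good {α : MulAut G} (h : Good χ α) (c : G) : tot χ ρ (α c) = tot χ ρ c := by
  unfold tot
  rw [sign E h]
  congr 1
  have := sign E (good_swap ρ hρ hne hall h) (ρ c)
  rw [← this]
  congr 1
  change ρ (α c) = (ρ * α * ρ⁻¹ * ρ) c
  rw [inv_mul_cancel_right]
  rfl

theorem tot_sw {α : MulAut G} (h : Good χ (α * ρ)) (c : G) : tot χ ρ (α c) = tot χ ρ c := by
  have h1 : tot χ ρ ((α * ρ) (ρ c)) = tot χ ρ (ρ c) := tot_good E ρ hρ hne hall h _
  have e : (α * ρ) (ρ c) = α c := by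
    change (α * ρ * ρ) c = α c
    rw [mul_assoc, hρ, mul_one]
  rw [e] at h1
  rw [h1]
  unfold tot
  rw [mul_comm]
  congr 2
  change (ρ * ρ) c = c
  rw [hρ]
  rfl

theorem tot_all (α : MulAut G) (c : G) : tot χ ρ (α c) = tot χ ρ c := by
  rcases good_or ρ hρ hne hall α with h | h
  · exact tot_good E ρ hρ hne hall h c
  · exact tot_sw E ρ hρ hne hall h c

/-- case: the second automorphism preserves the end -/
theorem tot_case1 {α β : MulAut G} {c : G} (hβ : Good χ β)
    (h : α * β * α⁻¹ * β⁻¹ = MulAut.conj c) : tot χ ρ c = 1 := by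
  have hinv : ρ⁻¹ = ρ := inv_eq_of_mul_eq_one_left hρ
  rcases good_or ρ hρ hne hall α with hα | hα
  · unfold tot
    rw [main1 E hα hβ h, one_mul]
    exact main1 E (good_swap ρ hρ hne hall hα) (good_swap ρ hρ hne hall hβ) (conj_eq _ _ _ h ρ)
  · have hα2 : Good χ (α * α) := by
      have h1 : Good χ (ρ * α) := sw_mul ρ hρ hne hall hα
      have h2 := hα.mul h1
      have e : α * ρ * (ρ * α) = α * (ρ * ρ) * α := by group
      rwa [e, hρ, mul_one] at h2
    have h3 : (α * α) * β * (α * α)⁻¹ * β⁻¹ = MulAut.conj (α c * c) := by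
      have e : α * MulAut.conj c * α⁻¹ = MulAut.conj (α c) := by
        ext y
        simp [MulAut.conj_apply]
      rw [map_mul, ← e, ← h]
      group
    have h4 := main1 E hα2 hβ h3
    rw [map_mul] at h4
    -- `χ (α c) = χ (ρ c)`
    have h5 : χ (α c) = χ (ρ c) := by
      have := sign E hα (ρ c)
      rw [← this]
      congr 1
      change α c = (α * ρ * ρ) c
      rw [mul_assoc, hρ, mul_one]
    unfold tot
    rw [mul_comm, ← h5]
    exact h4

theorem tot_comm {α β : MulAut G} {c : G}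
    (h : α * β * α⁻¹ * β⁻¹ = MulAut.conj c) : tot χ ρ c = 1 := by
  by_cases hβ : Good χ β
  · exact tot_case1 E ρ hρ hne hall hβ h
  by_cases hα : Good χ α
  · have h' : β * α * β⁻¹ * α⁻¹ = MulAut.conj c⁻¹ := by
      rw [map_inv, ← h]; group
    have h1 := tot_case1 E ρ hρ hne hall hα h'
    unfold tot at h1 ⊢
    rw [map_inv, map_inv, map_inv, ← mul_inv, inv_eq_one] at h1
    exact h1
  · have hβ' := (good_or ρ hρ hne hall β).resolve_left hβ
    have hα' := (good_or ρ hρ hne hall α).resolve_left hα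
    have hγ : Good χ (α⁻¹ * β) := by
      have h1 : Good χ (ρ * β) := sw_mul ρ hρ hne hall hβ'
      have h2 : Good χ (ρ * α) := sw_mul ρ hρ hne hall hα'
      have h3 := h2.inv.mul h1
      have e : (ρ * α)⁻¹ * (ρ * β) = α⁻¹ * β := by group
      rwa [e] at h3
    have h1 : α * (α⁻¹ * β) * α⁻¹ * (α⁻¹ * β)⁻¹ = MulAut.conj (α⁻¹ c) := by
      have e : α⁻¹ * MulAut.conj c * α = MulAut.conj (α⁻¹ c) := by
        ext y
        simp [MulAut.conj_apply]
      rw [← e, ← h]
      group
    have h2 := tot_case1 E ρ hρ hne hall hγ h1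
    rwa [tot_all E ρ hρ hne hall] at h2

/-- **No integral.** -/
theorem not_integrable {c0 : G} (hc0 : tot χ ρ c0 ≠ 1) (H : Type*) [Group H] :
    ¬ Nonempty (commutator H ≃* G) := by
  rintro ⟨e⟩
  let φ : H → MulAut G := fun h => e.symm.trans ((MulAut.conjNormal h).trans e)
  have hφ : ∀ h (x : commutator H), φ h (e x) = e (MulAut.conjNormal h x) := by
    intro h x
    simp [φ]
  have hφmul : ∀ h h', φ (h * h') = φ h * φ h' := by
    intro h h'
    ext y
    obtain ⟨x, rfl⟩ := e.surjective y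
    rw [hφ]
    change _ = φ h (φ h' (e x))
    rw [hφ, hφ, map_mul]
    rfl
  have hφ1 : φ 1 = 1 := by
    ext y
    obtain ⟨x, rfl⟩ := e.surjective y
    rw [hφ, map_one]
    rfl
  have hφinv : ∀ h, φ h⁻¹ = (φ h)⁻¹ := by
    intro h
    rw [eq_inv_iff_mul_eq_one, ← hφmul, inv_mul_cancel, hφ1]
  have hφin : ∀ c : commutator H, φ c = MulAut.conj (e c) := by
    intro c
    ext y
    obtain ⟨x, rfl⟩ := e.surjective y
    rw [hφ, MulAut.conj_apply, ← map_inv, ← map_mul, ← map_mul]
    congr 1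
  -- the subgroup of elements with trivial total character
  let K : Subgroup G :=
    { carrier := {c | tot χ ρ c = 1}
      mul_mem' := by
        intro x y hx hy
        change tot χ ρ (x * y) = 1
        have hx' : χ x * χ (ρ x) = 1 := hx
        have hy' : χ y * χ (ρ y) = 1 := hy
        unfold tot
        rw [map_mul, map_mul, map_mul, mul_mul_mul_comm, hx', hy', one_mul]
      one_mem' := by
        change tot χ ρ 1 = 1
        unfold tot
        simp
      inv_mem' := by
        intro x hx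
        have hx' : χ x * χ (ρ x) = 1 := hx
        change tot χ ρ x⁻¹ = 1
        unfold tot
        rw [map_inv, map_inv, map_inv, ← mul_inv, hx', inv_one] }
  have hcomm : commutator H ≤ (K.comap e.toMonoidHom).map (commutator H).subtype := by
    refine (commutator_eq_closure H).le.trans ((Subgroup.closure_le _).2 ?_)
    rintro _ ⟨h1, h2, rfl⟩
    have hm : ⁅h1, h2⁆ ∈ commutator H :=
      Subgroup.commutator_mem_commutator (Subgroup.mem_top _) (Subgroup.mem_top _)
    refine ⟨⟨⁅h1, h2⁆, hm⟩, ?_, rfl⟩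
    change tot χ ρ (e ⟨⁅h1, h2⁆, hm⟩) = 1
    apply tot_comm E ρ hρ hne hall (α := φ h1) (β := φ h2)
    rw [← hφin]
    change _ = φ ⁅h1, h2⁆
    rw [commutatorElement_def, hφmul, hφmul, hφmul, hφinv, hφinv]
  obtain ⟨x, hx, hx'⟩ := hcomm (e.symm c0).2
  have : x = e.symm c0 := Subtype.ext hx'
  rw [this] at hx
  change tot χ ρ (e (e.symm c0)) = 1 at hx
  rw [e.apply_symm_apply] at hx
  exact hc0 hx

end

end Pool.Agent.R663.EndAbs
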