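import Mathlib
import Pool.Agent.H84R8.Bump
import Pool.Agent.H84R8.Cone
import Pool.Agent.H84R8.Emb
import Pool.Agent.R663.EndSwap

set_option autoImplicit false

/-! The ends of Thompson's group `F`. -/

open scoped Pointwise

namespace Pool.Agent.R663.FEnds

open Pool.Agent.H476R3.ThF Pool.Agent.H84R8 Pool.Agent.R663.EndAbs

/-- the left endpoint -/
abbrev z0 : UI := ⟨0, by simp⟩

theorem ap_z0 (f : UI ≃o UI) : f z0 = z0 := f.map_bot

theorem exists_slope {f : UI ≃o UI} (hf : IsPL f) : ∃ k : ℤ, RS f z0 k := by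
  classical
  obtain ⟨B, hB, h⟩ := hf
  let S : Finset ℝ := insert 1 (B.filter (fun b => 0 < b))
  have hS : S.Nonempty := ⟨1, by simp [S]⟩
  have hm := S.min'_mem hS
  have hpos : 0 < S.min' hS := by
    have : S.min' hS = 1 ∨ (S.min' hS ∈ B ∧ 0 < S.min' hS) := by
      simpa [S] using hm
    rcases this with h | h
    · rw [h]; norm_num
    · exact h.2
  have hle : S.min' hS ≤ 1 := S.min'_le 1 (by simp [S])
  obtain ⟨k, hk⟩ := h z0 ⟨S.min' hS, hpos.le, hle⟩ hpos (by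
    rintro b hb ⟨h1, h2⟩
    have : b ∈ S := by
      simp only [S, Finset.mem_insert, Finset.mem_filter]
      exact Or.inr ⟨hb, h1⟩
    have := S.min'_le b this
    simp only at h2
    linarith)
  refine ⟨k, S.min' hS, hpos, fun y hy hy' => hk y hy ?_⟩
  change (y : ℝ) ≤ S.min' hS
  have h0 : ((z0 : UI) : ℝ) = 0 := rfl
  rw [h0] at hy'
  linarith

theorem rs_lin {f : UI ≃o UI} {k : ℤ} (h : RS f z0 k) :
    ∃ δ : ℝ, 0 < δ ∧ ∀ x : UI, (x : ℝ) ≤ δ → (f x : ℝ) = 2 ^ k * x := by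
  obtain ⟨ε, he, h⟩ := h
  refine ⟨ε / 2, by linarith, fun x hx => ?_⟩
  have h0 : ((z0 : UI) : ℝ) = 0 := rfl
  have := h x x.2.1 (by rw [h0]; linarith)
  rw [this, ap_z0, h0]
  ring

theorem RS_of_lin {f : UI ≃o UI} {k : ℤ} {δ : ℝ} (hδ : 0 < δ)
    (h : ∀ x : UI, (x : ℝ) ≤ δ → (f x : ℝ) = 2 ^ k * x) : RS f z0 k := by
  refine ⟨δ, hδ, fun y _ hy => ?_⟩
  have h0 : ((z0 : UI) : ℝ) = 0 := rfl
  rw [h0] at hy
  rw [h y (by linarith), ap_z0, h0]
  ring

theorem RS_zero_iff {f : UI ≃o UI} : RS f z0 0 ↔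
    ∃ δ : ℝ, 0 < δ ∧ ∀ x : UI, (x : ℝ) ≤ δ → f x = x := by
  constructor
  · intro h
    obtain ⟨δ, hδ, h⟩ := rs_lin h
    refine ⟨δ, hδ, fun x hx => Subtype.ext ?_⟩
    rw [h x hx]
    simp
  · rintro ⟨δ, hδ, h⟩
    refine RS_of_lin hδ fun x hx => ?_
    rw [h x hx]
    simp

/-- the exponent of the slope at `0` -/
noncomputable def slope (f : ThompsonF) : ℤ := (exists_slope f.2).choose

theorem slope_spec (f : ThompsonF) : RS (f : UI ≃o UI) z0 (slope f) := (exists_slope f.2).choose_spec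

theorem slope_eq {f : ThompsonF} {k : ℤ} (h : RS (f : UI ≃o UI) z0 k) : slope f = k :=
  RS.unique (slope_spec f) h (by norm_num)

/-- the character at the left end -/
noncomputable def chi : ThompsonF →* Multiplicative ℤ where
  toFun f := Multiplicative.ofAdd (-slope f)
  map_one' := by
    rw [slope_eq (f := 1) (k := 0) (RS_one _)]
    rfl
  map_mul' := by
    intro f g
    have : slope (f * g) = slope f + slope g := by
      apply slope_eq
      apply RS.mul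
      · rw [ap_z0]; exact slope_spec f
      · exact slope_spec g
    rw [this, neg_add, ofAdd_add]

theorem chi_eq {f : ThompsonF} {k : ℤ} (h : RS (f : UI ≃o UI) z0 k) :
    chi f = Multiplicative.ofAdd (-k) := by
  change Multiplicative.ofAdd (-slope f) = _
  rw [slope_eq h]

theorem mem_ker {f : ThompsonF} : f ∈ chi.ker ↔
    ∃ δ : ℝ, 0 < δ ∧ ∀ x : UI, (x : ℝ) ≤ δ → (f : UI ≃o UI) x = x := by
  rw [← RS_zero_iff, MonoidHom.mem_ker]
  constructor
  · intro h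
    have h1 := chi_eq (slope_spec f)
    rw [h] at h1
    have h2 : -slope f = 0 := by
      have := congrArg Multiplicative.toAdd h1
      simpa using this.symm
    have h3 : slope f = 0 := by omega
    have := slope_spec f
    rwa [h3] at this
  · intro h
    rw [chi_eq h]
    rfl

/-- the basic element -/
noncomputable def b0 : ThompsonF :=
  ⟨bump 0 (1 / 4) le_rfl (by norm_num) (by norm_num),
    bump_isPL _ _ _ _ _ dyadic_zero dyadic_4⟩

theorem b0_lin (x : UI) (hx : (x : ℝ) ≤ 1 / 4) : ((b0 : UI ≃o UI) x : ℝ) = 2 * x := by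
  change uF 0 (1 / 4) x = 2 * x
  rw [uF_2 (by norm_num) x.2.1 (by linarith)]
  ring

theorem b0_far (x : UI) (hx : 3 / 4 ≤ (x : ℝ)) : (b0 : UI ≃o UI) x = x := by
  apply Subtype.ext
  change uF 0 (1 / 4) x = x
  rw [uF_4 (by norm_num) (by linarith)]

theorem RS_b0 : RS (b0 : UI ≃o UI) z0 1 := by
  refine RS_of_lin (δ := 1 / 4) (by norm_num) fun x hx => ?_
  rw [b0_lin x hx]
  norm_num

/-- the expanding element -/
noncomputable def a0 : ThompsonF := b0⁻¹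

theorem a0_lin (x : UI) (hx : (x : ℝ) ≤ 1 / 2) : ((a0 : UI ≃o UI) x : ℝ) = x / 2 := by
  have h0 := x.2.1
  have h1 := x.2.2
  let y : UI := ⟨x / 2, by linarith, by linarith⟩
  have hy : (b0 : UI ≃o UI) y = x := by
    apply Subtype.ext
    rw [b0_lin y (by change (x : ℝ) / 2 ≤ 1 / 4; linarith)]
    change 2 * ((x : ℝ) / 2) = x
    ring
  have : (a0 : UI ≃o UI) x = y := by
    change (b0 : UI ≃o UI).symm x = y
    rw [OrderIso.symm_apply_eq, hy]
  rw [this]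

/-- the filtration -/
def Lf (j : ℕ) : Subgroup ThompsonF where
  carrier := {f | ∀ x : UI, (x : ℝ) ≤ (1 / 2) ^ (j + 1) → (f : UI ≃o UI) x = x}
  mul_mem' := by
    intro f g hf hg x hx
    change (f : UI ≃o UI) ((g : UI ≃o UI) x) = x
    rw [hg x hx, hf x hx]
  one_mem' := by
    intro x _
    rfl
  inv_mem' := by
    intro f hf x hx
    change (f : UI ≃o UI).symm x = x
    rw [OrderIso.symm_apply_eq, hf x hx]

theorem mem_Lf {j : ℕ} {f : ThompsonF} :
    f ∈ Lf j ↔ ∀ x : UI, (x : ℝ) ≤ (1 / 2) ^ (j + 1) → (f : UI ≃o UI) x = x := Iff.rfl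

theorem Lf_of {f : ThompsonF} {δ : ℝ} {j : ℕ} (hj : (1 / 2 : ℝ) ^ j < δ)
    (h : ∀ x : UI, (x : ℝ) ≤ δ → (f : UI ≃o UI) x = x) : f ∈ Lf j := by
  intro x hx
  apply h x
  have h1 : (1 / 2 : ℝ) ^ (j + 1) ≤ (1 / 2) ^ j :=
    pow_le_pow_of_le_one (by norm_num) (by norm_num) (Nat.le_succ j)
  linarith

theorem Lf_succ (j : ℕ) : Lf (j + 1) = MulAut.conj a0 • Lf j := by
  have hp : ∀ j : ℕ, (1 / 2 : ℝ) ^ (j + 1) ≤ 1 / 2 := by
    intro j
    have : (1 / 2 : ℝ) ^ (j + 1) ≤ (1 / 2) ^ 1 :=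
      pow_le_pow_of_le_one (by norm_num) (by norm_num) (by omega)
    simpa using this
  ext f
  rw [Subgroup.mem_pointwise_smul_iff_inv_smul_mem, mem_Lf, mem_Lf]
  have e : (MulAut.conj a0)⁻¹ • f = a0⁻¹ * f * a0 := by
    rw [← map_inv]
    change MulAut.conj a0⁻¹ f = _
    rw [MulAut.conj_apply, inv_inv]
  rw [e]
  have e2 : ∀ x : UI, ((a0⁻¹ * f * a0 : ThompsonF) : UI ≃o UI) x = x ↔
      (f : UI ≃o UI) ((a0 : UI ≃o UI) x) = (a0 : UI ≃o UI) x := by
    intro x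
    change (a0 : UI ≃o UI).symm ((f : UI ≃o UI) ((a0 : UI ≃o UI) x)) = x ↔ _
    rw [OrderIso.symm_apply_eq]
  constructor
  · intro h x hx
    rw [e2]
    apply h
    rw [a0_lin x (hx.trans (hp j)), pow_succ]
    linarith
  · intro h y hy
    rw [pow_succ] at hy
    have h0 := y.2.1
    have h1 := hp j
    let x : UI := ⟨2 * y, by linarith, by linarith⟩
    have hx : (a0 : UI ≃o UI) x = y := by
      apply Subtype.ext
      rw [a0_lin x (by change 2 * (y : ℝ) ≤ 1 / 2; linarith)]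
      change 2 * (y : ℝ) / 2 = y
      ring
    have := (e2 x).1 (h x (by change 2 * (y : ℝ) ≤ _; linarith))
    rwa [hx] at this

theorem comm_disj {f g : UI ≃o UI} (c : UI) (hf : ∀ x, x ≤ c → f x = x)
    (hg : ∀ x, c ≤ x → g x = x) : g * f = f * g := by
  ext x
  change ((g (f x) : UI) : ℝ) = f (g x)
  congr 1
  rcases le_total x c with h | h
  · have h1 : g x ≤ c := by
      have := g.monotone h
      rwa [hg c le_rfl] at this
    rw [hf x h, hf _ h1]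
  · have h1 : c ≤ f x := by
      have := f.monotone h
      rwa [hf c le_rfl] at this
    rw [hg x h, hg _ h1]

/-- an element with slope `≠ 1` at `0` and fixing `[c, 1]` -/
theorem exists_small {c : ℝ} (hc : 0 < c) : ∃ g : ThompsonF, RS (g : UI ≃o UI) z0 1 ∧
    ∀ x : UI, c ≤ (x : ℝ) → (g : UI ≃o UI) x = x := by
  obtain ⟨n, hn⟩ := exists_pow_lt_of_lt_one (show (0 : ℝ) < min c 1 / 3 by positivity)
    (show (1 / 2 : ℝ) < 1 by norm_num)
  have hw : (0 : ℝ) < (1 / 2) ^ n := by positivity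
  have h1 : (3 : ℝ) * (1 / 2) ^ n ≤ c := by
    have := min_le_left c 1
    linarith
  have h2 : (3 : ℝ) * (1 / 2) ^ n ≤ 1 := by
    have := min_le_right c 1
    linarith
  have hd : Dyadic ((1 / 2) ^ n) := ⟨1, n, by simp [one_div]⟩
  refine ⟨⟨bump 0 ((1 / 2) ^ n) le_rfl hw (by linarith), bump_isPL _ _ _ _ _ dyadic_zero hd⟩,
    RS_of_lin hw fun x hx => ?_, fun x hx => Subtype.ext ?_⟩
  · change uF 0 ((1 / 2) ^ n) x = _
    rw [uF_2 hw x.2.1 (by linarith)]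
    norm_num
  · change uF 0 ((1 / 2) ^ n) x = _
    rw [uF_4 hw (by linarith)]

theorem not_ker {g : ThompsonF} {k : ℤ} (h : RS (g : UI ≃o UI) z0 k) (hk : k ≠ 0) :
    g ∉ chi.ker := by
  rw [MonoidHom.mem_ker, chi_eq h]
  intro h1
  have := congrArg Multiplicative.toAdd h1
  simp at this
  exact hk this

theorem Lf_bdd (j : ℕ) : Bdd chi (Lf j) := by
  have hp : (0 : ℝ) < (1 / 2) ^ (j + 1) := by positivity
  refine ⟨fun f hf => mem_ker.2 ⟨_, hp, hf⟩, ?_⟩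
  obtain ⟨g, hg, h⟩ := exists_small hp
  refine ⟨g, not_ker hg one_ne_zero, fun m hm => Subtype.ext ?_⟩
  have hc1 : (1 / 2 : ℝ) ^ (j + 1) ≤ 1 := pow_le_one₀ (by norm_num) (by norm_num)
  exact comm_disj ⟨(1 / 2) ^ (j + 1), hp.le, hc1⟩ (fun x hx => hm x hx) (fun x hx => h x hx)

theorem pow_lin {g : UI ≃o UI} {k : ℤ} (hk : k < 0) {δ : ℝ}
    (h : ∀ x : UI, (x : ℝ) ≤ δ → (g x : ℝ) = 2 ^ k * x) (x : UI) (hx : (x : ℝ) ≤ δ) (n : ℕ) :
    ((g ^ n) x : ℝ) = (2 ^ k) ^ n * x := by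
  have h2 : (2 : ℝ) ^ k ≤ 1 := by
    rw [← zpow_zero (2 : ℝ)]
    exact zpow_le_zpow_right₀ (by norm_num) hk.le
  have h2' : (0 : ℝ) < 2 ^ k := by positivity
  induction n with
  | zero => simp
  | succ n ih =>
    rw [pow_succ']
    change ((g ((g ^ n) x) : UI) : ℝ) = _
    rw [h, ih]
    · rw [pow_succ]; ring
    · rw [ih]
      have : ((2 : ℝ) ^ k) ^ n ≤ 1 := pow_le_one₀ h2'.le h2
      have := mul_le_mul_of_nonneg_right this x.2.1
      linarith

theorem pow_small {k : ℤ} (hk : k < 0) {ε : ℝ} (hε : 0 < ε) : ∃ n : ℕ, ((2 : ℝ) ^ k) ^ n < ε := by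
  apply exists_pow_lt_of_lt_one hε
  rw [← zpow_zero (2 : ℝ)]
  exact zpow_lt_zpow_right₀ (by norm_num) hk

theorem pow_comm {g m : UI ≃o UI} (h : g * m = m * g) (n : ℕ) (x : UI) :
    m ((g ^ n) x) = (g ^ n) (m x) := by
  have : Commute m (g ^ n) := Commute.pow_right h.symm n
  exact DFunLike.congr_fun this x

theorem fix_of_comm_neg {g : UI ≃o UI} {k : ℤ} (hk : k < 0) {δ : ℝ}
    (h : ∀ x : UI, (x : ℝ) ≤ δ → (g x : ℝ) = 2 ^ k * x) {m : UI ≃o UI}
    (hm : RS m z0 0) (hc : g * m = m * g) (x : UI) (hx : (x : ℝ) ≤ δ) : m x = x := by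
  obtain ⟨δ', hδ', h'⟩ := RS_zero_iff.1 hm
  obtain ⟨n, hn⟩ := pow_small hk hδ'
  have h1 : ((g ^ n) x : ℝ) ≤ δ' := by
    rw [pow_lin hk h x hx n]
    have h2' : (0 : ℝ) < (2 ^ k) ^ n := by positivity
    have := mul_le_mul_of_nonneg_left x.2.2 h2'.le
    linarith
  have h2 := h' _ h1
  rw [pow_comm hc n x] at h2
  exact (g ^ n).injective h2

theorem ker_RS {m : ThompsonF} (h : m ∈ chi.ker) : RS (m : UI ≃o UI) z0 0 :=
  RS_zero_iff.2 (mem_ker.1 h)

theorem fix_of_comm {g : ThompsonF} (hg : g ∉ chi.ker) : ∃ δ : ℝ, 0 < δ ∧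
    ∀ m : ThompsonF, m ∈ chi.ker → g * m = m * g → ∀ x : UI, (x : ℝ) ≤ δ →
      (m : UI ≃o UI) x = x := by
  have hs := slope_spec g
  have hk : slope g ≠ 0 := by
    intro h0
    rw [h0] at hs
    exact hg (mem_ker.2 (RS_zero_iff.1 hs))
  rcases lt_or_gt_of_ne hk with hk | hk
  · obtain ⟨δ, hδ, h⟩ := rs_lin hs
    refine ⟨δ, hδ, fun m hm hc x hx => ?_⟩
    exact fix_of_comm_neg hk h (ker_RS hm) (congrArg Subtype.val hc) x hx
  · have hs' := RS.inv hs (by norm_num)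
    rw [ap_z0] at hs'
    obtain ⟨δ, hδ, h⟩ := rs_lin hs'
    refine ⟨δ, hδ, fun m hm hc x hx => ?_⟩
    have hc' : (g : UI ≃o UI)⁻¹ * (m : UI ≃o UI) = (m : UI ≃o UI) * (g : UI ≃o UI)⁻¹ := by
      have h1 : (g : UI ≃o UI) * (m : UI ≃o UI) = (m : UI ≃o UI) * (g : UI ≃o UI) :=
        congrArg Subtype.val hc
      have h2 : Commute (g : UI ≃o UI) (m : UI ≃o UI) := h1
      exact h2.inv_left
    exact fix_of_comm_neg (by omega) h (ker_RS hm) hc' x hx

theorem Lf_cof (M : Subgroup ThompsonF) (hM : Bdd chi M) : ∃ j, M ≤ Lf j := by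
  obtain ⟨h1, g, hg, h2⟩ := hM
  obtain ⟨δ, hδ, h⟩ := fix_of_comm hg
  obtain ⟨j, hj⟩ := exists_pow_lt_of_lt_one hδ (show (1 / 2 : ℝ) < 1 by norm_num)
  exact ⟨j, fun m hm => Lf_of hj (h m (h1 hm) (h2 m hm))⟩

theorem Lf_ne (j : ℕ) : ¬ Lf (j + 1) ≤ Lf j := by
  intro hle
  set w : ℝ := (1 / 2) ^ (j + 3) with hw
  have hw0 : 0 < w := by positivity
  have e1 : (1 / 2 : ℝ) ^ (j + 1 + 1) = 2 * w := by rw [hw]; ring
  have e2 : (1 / 2 : ℝ) ^ (j + 1) = 4 * w := by rw [hw]; ring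
  have hw8 : w ≤ 1 / 8 := by
    have : (1 / 2 : ℝ) ^ (j + 3) ≤ (1 / 2) ^ 3 :=
      pow_le_pow_of_le_one (by norm_num) (by norm_num) (by omega)
    rw [hw]
    norm_num at this ⊢
    exact this
  have hwd : Dyadic w := ⟨1, j + 3, by rw [hw]; simp [one_div]⟩
  have hpd : Dyadic (2 * w) := by rw [two_mul]; exact hwd.add hwd
  let g : ThompsonF := ⟨bump (2 * w) w (by linarith) hw0 (by linarith),
    bump_isPL _ _ _ _ _ hpd hwd⟩
  have hg : g ∈ Lf (j + 1) := by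
    intro x hx
    rw [e1] at hx
    apply Subtype.ext
    change uF (2 * w) w x = x
    rw [uF_1 hw0 hx]
  have hg' := hle hg
  have h3 := hg' ⟨3 * w, by linarith, by linarith⟩ (by rw [e2]; simp only; linarith)
  have h4 : uF (2 * w) w (3 * w) = 3 * w :=
    congrArg Subtype.val h3
  rw [uF_2 hw0 (by linarith) (by linarith)] at h4
  linarith

/-- the left end of `F` -/
noncomputable def E : EndData chi a0 where
  L := Lf
  ha := by
    have h := RS.inv RS_b0 (by norm_num)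
    rw [ap_z0] at h
    exact chi_eq (f := a0) h
  hL := Lf_succ
  hmono := by
    intro j f hf x hx
    apply hf
    have : (1 / 2 : ℝ) ^ (j + 1 + 1) ≤ (1 / 2) ^ (j + 1) :=
      pow_le_pow_of_le_one (by norm_num) (by norm_num) (by omega)
    linarith
  hbdd := Lf_bdd
  hcof := Lf_cof
  hne := Lf_ne
  hN := by
    intro ν hν
    obtain ⟨δ, hδ, h⟩ := mem_ker.1 hν
    obtain ⟨j, hj⟩ := exists_pow_lt_of_lt_one hδ (show (1 / 2 : ℝ) < 1 by norm_num)
    exact ⟨j, Lf_of hj h⟩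

end Pool.Agent.R663.FEnds
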