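import Mathlib
import Pool.Agent.R663.FEnds

set_option autoImplicit false

/-! The flip of Thompson's group `F` and the permutation of the ends by automorphisms. -/

open scoped Pointwise

namespace Pool.Agent.R663.FEnds

open Pool.Agent.H476R3.ThF Pool.Agent.H84R8 Pool.Agent.R663.EndAbs

/-- the reflection of the interval -/
def fl (x : UI) : UI := ⟨1 - x, by linarith [x.2.2], by linarith [x.2.1]⟩

theorem fl_val (x : UI) : (fl x : ℝ) = 1 - x := rfl

theorem fl_fl (x : UI) : fl (fl x) = x := by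
  apply Subtype.ext
  rw [fl_val, fl_val]
  ring

theorem fl_le {x y : UI} : fl x ≤ fl y ↔ y ≤ x := by
  change (1 - (x : ℝ) ≤ 1 - (y : ℝ)) ↔ (y : ℝ) ≤ x
  constructor <;> intro h <;> linarith

/-- flipping a homeomorphism -/
def flip0 (f : UI ≃o UI) : UI ≃o UI where
  toFun x := fl (f (fl x))
  invFun x := fl (f.symm (fl x))
  left_inv x := by
    change fl (f.symm (fl (fl (f (fl x))))) = x
    rw [fl_fl, f.symm_apply_apply, fl_fl]
  right_inv x := by
    change fl (f (fl (fl (f.symm (fl x))))) = x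
    rw [fl_fl, f.apply_symm_apply, fl_fl]
  map_rel_iff' := by
    intro x y
    change fl (f (fl x)) ≤ fl (f (fl y)) ↔ x ≤ y
    rw [fl_le, f.le_iff_le, fl_le]

theorem flip0_apply (f : UI ≃o UI) (x : UI) : flip0 f x = fl (f (fl x)) := rfl

theorem flip0_mul (f g : UI ≃o UI) : flip0 (f * g) = flip0 f * flip0 g := by
  ext x
  change ((fl (f (g (fl x))) : UI) : ℝ) = fl (f (fl (fl (g (fl x)))))
  rw [fl_fl]

theorem flip0_flip0 (f : UI ≃o UI) : flip0 (flip0 f) = f := by
  ext x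
  change ((fl (fl (f (fl (fl x)))) : UI) : ℝ) = f x
  rw [fl_fl, fl_fl]

theorem flip0_isPL {f : UI ≃o UI} (hf : IsPL f) : IsPL (flip0 f) := by
  classical
  obtain ⟨B, hB, h⟩ := hf
  refine ⟨B.image (fun b => 1 - b), ?_, ?_⟩
  · intro b hb
    obtain ⟨b', hb', rfl⟩ := Finset.mem_image.1 hb
    exact dyadic_one.sub (hB b' hb')
  · intro c d hcd hbr
    have hcd' : (c : ℝ) < d := hcd
    obtain ⟨k, hk⟩ := h (fl d) (fl c) (by
      change 1 - (d : ℝ) < 1 - (c : ℝ)
      linarith) (by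
      rintro b hb ⟨h1, h2⟩
      rw [fl_val] at h1 h2
      exact hbr (1 - b) (Finset.mem_image_of_mem _ hb) ⟨by linarith, by linarith⟩)
    refine ⟨k, fun x hx hx' => ?_⟩
    have e1 := hk (fl x) (fl_le.2 hx') (fl_le.2 hx)
    have e2 := hk (fl c) (fl_le.2 hcd.le) le_rfl
    rw [flip0_apply, flip0_apply, fl_val, fl_val, e1, e2, fl_val, fl_val, fl_val]
    ring

/-- the flip automorphism of `F` -/
def flip : MulAut ThompsonF where
  toFun f := ⟨flip0 f, flip0_isPL f.2⟩
  invFun f := ⟨flip0 f, flip0_isPL f.2⟩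
  left_inv f := Subtype.ext (flip0_flip0 f)
  right_inv f := Subtype.ext (flip0_flip0 f)
  map_mul' f g := Subtype.ext (flip0_mul f g)

theorem flip_apply (f : ThompsonF) (x : UI) : (flip f : UI ≃o UI) x = fl ((f : UI ≃o UI) (fl x)) :=
  rfl

theorem flip_mul_flip : flip * flip = 1 := by
  ext f
  change ((flip0 (flip0 f) : UI ≃o UI) _ : ℝ) = _
  rw [flip0_flip0]
  rfl

theorem flip_flip (f : ThompsonF) : flip (flip f) = f := Subtype.ext (flip0_flip0 f)

theorem mem_flip_ker {f : ThompsonF} : f ∈ flip • chi.ker ↔ flip f ∈ chi.ker := by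
  rw [Subgroup.mem_pointwise_smul_iff_inv_smul_mem]
  have : flip⁻¹ = flip := inv_eq_of_mul_eq_one_left flip_mul_flip
  rw [this]
  rfl

theorem flip_b0_mem : flip b0 ∈ chi.ker := by
  refine mem_ker.2 ⟨1 / 4, by norm_num, fun x hx => ?_⟩
  rw [flip_apply, b0_far (fl x) (by rw [fl_val]; linarith), fl_fl]

theorem b0_not_mem : b0 ∉ chi.ker := not_ker RS_b0 one_ne_zero

theorem flip_ker_ne : flip • chi.ker ≠ chi.ker := by
  intro h
  have h1 : b0 ∈ flip • chi.ker := mem_flip_ker.2 flip_b0_mem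
  rw [h] at h1
  exact b0_not_mem h1

theorem tot_b0 : tot chi flip b0 ≠ 1 := by
  unfold tot
  rw [MonoidHom.mem_ker.1 flip_b0_mem, mul_one]
  exact fun h => b0_not_mem (MonoidHom.mem_ker.2 h)

/-- finite subsets have nontrivial centralizer -/
def P (N : Subgroup ThompsonF) : Prop :=
  ∀ S : Finset ThompsonF, (∀ s ∈ S, s ∈ N) → ∃ z, z ≠ 1 ∧ ∀ s ∈ S, z * s = s * z

theorem P_ker : P chi.ker := by
  classical
  intro S hS
  have : ∃ j, ∀ s ∈ S, s ∈ E.L j := by
    induction S using Finset.induction_on with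
    | empty => exact ⟨0, by simp⟩
    | insert s S hs ih =>
      obtain ⟨j, hj⟩ := ih (fun s hs => hS s (Finset.mem_insert_of_mem hs))
      obtain ⟨i, hi⟩ := E.hN s (hS s (Finset.mem_insert_self _ _))
      refine ⟨max i j, fun x hx => ?_⟩
      rcases Finset.mem_insert.1 hx with rfl | hx
      · exact Lmono E (le_max_left _ _) hi
      · exact Lmono E (le_max_right _ _) (hj x hx)
  obtain ⟨j, hj⟩ := this
  obtain ⟨_, g, hg, h⟩ := E.hbdd j
  refine ⟨g, fun h1 => hg (h1 ▸ chi.ker.one_mem), fun s hs => h s (hj s hs)⟩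

theorem P_smul {N : Subgroup ThompsonF} (hN : P N) (α : MulAut ThompsonF) : P (α • N) := by
  classical
  intro S hS
  obtain ⟨z, hz, h⟩ := hN (S.image (fun s => α⁻¹ s)) (by
    intro s hs
    obtain ⟨x, hx, rfl⟩ := Finset.mem_image.1 hs
    exact (Subgroup.mem_pointwise_smul_iff_inv_smul_mem).1 (hS x hx))
  refine ⟨α z, fun h1 => hz ?_, fun s hs => ?_⟩
  · exact α.injective (by rw [h1, map_one])
  · have := congrArg α (h (α⁻¹ s) (Finset.mem_image_of_mem _ hs))
    rw [map_mul, map_mul] at this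
    have e : α (α⁻¹ s) = s := α.apply_symm_apply s
    rwa [e] at this

theorem fix_ker {w z : UI ≃o UI} {k : ℤ} (hk : k < 0) {δ : ℝ}
    (h : ∀ x : UI, (x : ℝ) ≤ δ → (w x : ℝ) = 2 ^ k * x) (hz : IsPL z) (hc : w * z = z * w)
    {q : UI} (hq0 : 0 < (q : ℝ)) (hq : (q : ℝ) ≤ δ) (hfix : z q = q) : RS z z0 0 := by
  obtain ⟨l, hl⟩ := exists_slope hz
  obtain ⟨δ1, hδ1, h1⟩ := rs_lin hl
  obtain ⟨n, hn⟩ := pow_small hk hδ1
  have e0 := pow_lin hk h q hq n
  have hp : (0 : ℝ) < (2 ^ k) ^ n := by positivity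
  have hle : ((w ^ n) q : ℝ) ≤ δ1 := by
    rw [e0]
    have := mul_le_mul_of_nonneg_left q.2.2 hp.le
    linarith
  have hpos : (0 : ℝ) < ((w ^ n) q : ℝ) := by
    rw [e0]; positivity
  have e1 := h1 _ hle
  rw [pow_comm hc n q, hfix] at e1
  have e2 : (2 : ℝ) ^ l = 2 ^ (0 : ℤ) := by
    rw [zpow_zero]
    have : (2 : ℝ) ^ l * ((w ^ n) q : ℝ) = 1 * ((w ^ n) q : ℝ) := by linarith
    exact mul_right_cancel₀ hpos.ne' this
  have := zpow_right_injective₀ (by norm_num) (by norm_num) e2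
  rwa [this] at hl

theorem keyK_neg {w : ThompsonF} {k : ℤ} (hw : RS (w : UI ≃o UI) z0 k) (hk : k < 0) :
    ∃ g : ThompsonF, ∀ z : ThompsonF, z * w = w * z →
      z * (g * w * g⁻¹) = (g * w * g⁻¹) * z → z ∈ chi.ker := by
  obtain ⟨δ, hδ, h⟩ := rs_lin hw
  obtain ⟨m, hm⟩ := exists_pow_lt_of_lt_one (show (0 : ℝ) < min δ 1 / 4 by positivity)
    (show (1 / 2 : ℝ) < 1 by norm_num)
  set p : ℝ := (1 / 2) ^ m with hp
  have hp0 : 0 < p := by positivity
  have hd : Dyadic p := ⟨1, m, by rw [hp]; simp [one_div]⟩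
  have hp1 : p ≤ 1 / 4 := by
    have := min_le_right δ 1
    linarith
  have hpδ : p ≤ δ := by
    have := min_le_left δ 1
    linarith
  let g : ThompsonF := ⟨bump p p hp0.le hp0 (by linarith), bump_isPL _ _ _ _ _ hd hd⟩
  have hg : Up (g : UI ≃o UI) ⟨p, hp0.le, by linarith⟩ := bump_up p p hp0.le hp0 (by linarith)
  set P0 : UI := ⟨p, hp0.le, by linarith⟩ with hP0
  refine ⟨g, fun z h1 h2 => ?_⟩
  have h1' : (z : UI ≃o UI) * (w : UI ≃o UI) = (w : UI ≃o UI) * (z : UI ≃o UI) :=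
    congrArg Subtype.val h1
  have h2' : (z : UI ≃o UI) * ((g : UI ≃o UI) * w * (g : UI ≃o UI)⁻¹) =
      ((g : UI ≃o UI) * w * (g : UI ≃o UI)⁻¹) * z := congrArg Subtype.val h2
  have hwp : ((w : UI ≃o UI) P0 : ℝ) = 2 ^ k * p := h P0 hpδ
  have h2k : (2 : ℝ) ^ k < 1 := by
    rw [← zpow_zero (2 : ℝ)]
    exact zpow_lt_zpow_right₀ (by norm_num) hk
  have h2k0 : (0 : ℝ) < 2 ^ k := by positivity
  have hlt : (w : UI ≃o UI) P0 < P0 := by
    change ((w : UI ≃o UI) P0 : ℝ) < p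
    rw [hwp]
    nlinarith
  set c : UI ≃o UI := ((w : UI ≃o UI) * g * (w : UI ≃o UI)⁻¹) * (g : UI ≃o UI)⁻¹ with hc
  have hup : Up c ((w : UI ≃o UI) P0) := by
    apply Up.mul_fix (hg.conj w) hlt
    intro y hy
    exact hg.inv.1 y hy
  have hcomm : (z : UI ≃o UI) * c * (z : UI ≃o UI)⁻¹ = c := by
    have e : c = (w : UI ≃o UI) * ((g : UI ≃o UI) * w * (g : UI ≃o UI)⁻¹)⁻¹ := by
      rw [hc]; group
    have hz1 : Commute (z : UI ≃o UI) (w : UI ≃o UI) := h1'
    have hz2 : Commute (z : UI ≃o UI) ((g : UI ≃o UI) * w * (g : UI ≃o UI)⁻¹) := h2'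
    have hz3 : Commute (z : UI ≃o UI) c := by
      rw [e]
      exact hz1.mul_right hz2.inv_right
    rw [hz3.eq, mul_inv_cancel_right]
  have hup2 := hup.conj z
  rw [hcomm] at hup2
  have hfix : (z : UI ≃o UI) ((w : UI ≃o UI) P0) = (w : UI ≃o UI) P0 :=
    ud_unique (Or.inl hup2) (Or.inl hup)
  have hq0 : (0 : ℝ) < ((w : UI ≃o UI) P0 : ℝ) := by
    rw [hwp]; positivity
  have hq : ((w : UI ≃o UI) P0 : ℝ) ≤ δ := by
    have : ((w : UI ≃o UI) P0 : ℝ) < p := hlt
    linarith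
  exact mem_ker.2 (RS_zero_iff.1 (fix_ker hk h z.2 h1'.symm hq0 hq hfix))

theorem keyK {w : ThompsonF} (hw : w ∉ chi.ker) :
    ∃ (g : ThompsonF) (δ : ℝ), 0 < δ ∧ ∀ z : ThompsonF, z * w = w * z →
      z * (g * w * g⁻¹) = (g * w * g⁻¹) * z →
      ∀ x : UI, (x : ℝ) ≤ δ → (z : UI ≃o UI) x = x := by
  obtain ⟨δ, hδ, h⟩ := fix_of_comm hw
  have hs := slope_spec w
  have hk : slope w ≠ 0 := by
    intro h0
    rw [h0] at hs
    exact hw (mem_ker.2 (RS_zero_iff.1 hs))
  have : ∃ g : ThompsonF, ∀ z : ThompsonF, z * w = w * z →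
      z * (g * w * g⁻¹) = (g * w * g⁻¹) * z → z ∈ chi.ker := by
    rcases lt_or_gt_of_ne hk with hk | hk
    · exact keyK_neg hs hk
    · have hs' := RS.inv hs (by norm_num)
      rw [ap_z0] at hs'
      obtain ⟨g, hg⟩ := keyK_neg (w := w⁻¹) hs' (by omega)
      refine ⟨g, fun z h1 h2 => hg z ?_ ?_⟩
      · have h1' : Commute z w := h1
        exact h1'.inv_right
      · have h2' : Commute z (g * w * g⁻¹) := h2
        have e : g * w⁻¹ * g⁻¹ = (g * w * g⁻¹)⁻¹ := by group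
        rw [e]
        exact h2'.inv_right
  obtain ⟨g, hg⟩ := this
  exact ⟨g, δ, hδ, fun z h1 h2 => h z (hg z h1 h2) h1.symm⟩

theorem t_far (d e : UI) (hd : 0 < (d : ℝ)) (he : (e : ℝ) < 1) : ∃ n : ℕ, e ≤ (t ^ n) d := by
  by_contra hcon
  push Not at hcon
  set c : ℝ := min (3 * (d : ℝ)) (min (3 / 8) (3 / 4 * (1 - (e : ℝ)))) with hc
  have hc0 : 0 < c := by
    refine lt_min (by linarith) (lt_min (by norm_num) (by linarith))
  have c1 : c ≤ 3 * (d : ℝ) := min_le_left _ _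
  have c2 : c ≤ 3 / 8 := (min_le_right _ _).trans (min_le_left _ _)
  have c3 : c ≤ 3 / 4 * (1 - (e : ℝ)) := (min_le_right _ _).trans (min_le_right _ _)
  have key : ∀ n : ℕ, (d : ℝ) + n * c ≤ ((t ^ n) d : ℝ) := by
    intro n
    induction n with
    | zero => simp
    | succ n ih =>
      rw [pow_succ']
      change _ ≤ ((t ((t ^ n) d) : UI) : ℝ)
      rw [t_apply]
      set y : ℝ := ((t ^ n) d : ℝ) with hy
      have hye : y < e := hcon n
      have hdy : (d : ℝ) ≤ y := by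
        have : (0 : ℝ) ≤ n * c := by positivity
        linarith
      have hty : y + c ≤ tF y := by
        unfold tF
        exact le_min (by linarith) (le_min (by linarith) (by linarith))
      push_cast
      linarith
  obtain ⟨n, hn⟩ := exists_nat_gt (1 / c)
  rw [div_lt_iff₀ hc0] at hn
  have h1 := key n
  have h2 := ((t ^ n) d).2.2
  linarith

theorem P_key {N : Subgroup ThompsonF} (hnorm : N.Normal) (hP : P N) :
    N ≤ chi.ker ∨ N ≤ flip • chi.ker := by
  classical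
  by_contra hcon
  push Not at hcon
  obtain ⟨h1, h2⟩ := hcon
  obtain ⟨u, hu, hu'⟩ := SetLike.not_le_iff_exists.1 h1
  obtain ⟨v, hv, hv'⟩ := SetLike.not_le_iff_exists.1 h2
  rw [mem_flip_ker] at hv'
  obtain ⟨w, hw, hw1, hw2⟩ : ∃ w ∈ N, w ∉ chi.ker ∧ flip w ∉ chi.ker := by
    by_cases a1 : flip u ∈ chi.ker
    · by_cases a2 : v ∈ chi.ker
      · refine ⟨u * v, N.mul_mem hu hv, fun h => hu' ?_, fun h => hv' ?_⟩
        · exact (Subgroup.mul_mem_cancel_right _ a2).1 h
        · rw [map_mul] at h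
          exact (Subgroup.mul_mem_cancel_left _ a1).1 h
      · exact ⟨v, hv, a2, hv'⟩
    · exact ⟨u, hu, hu', a1⟩
  obtain ⟨g1, δ1, hδ1, k1⟩ := keyK hw1
  obtain ⟨g2, δ2, hδ2, k2⟩ := keyK hw2
  -- the moving element
  let d : UI := ⟨min δ1 1, by positivity, min_le_right _ _⟩
  let e : UI := ⟨1 - min δ2 1, by linarith [min_le_right δ2 1], by
    have : 0 < min δ2 1 := by positivity
    linarith⟩
  obtain ⟨n, hn⟩ := t_far d e (show (0 : ℝ) < min δ1 1 by positivity) (by
    change 1 - min δ2 1 < 1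
    have : 0 < min δ2 1 := by positivity
    linarith)
  let κ : ThompsonF := ⟨t, t_isPL⟩ ^ n
  have hκ : (κ : UI ≃o UI) = t ^ n := by
    change (((⟨t, t_isPL⟩ : ThompsonF) ^ n : ThompsonF) : UI ≃o UI) = t ^ n
    rw [Subgroup.coe_pow]
  obtain ⟨z, hz, hS⟩ := hP {w, flip g2 * w * (flip g2)⁻¹, κ * w * κ⁻¹, (κ * g1) * w * (κ * g1)⁻¹} (by
    intro s hs
    simp only [Finset.mem_insert, Finset.mem_singleton] at hs
    rcases hs with rfl | rfl | rfl | rfl
    · exact hw
    · exact hnorm.conj_mem w hw _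
    · exact hnorm.conj_mem w hw _
    · exact hnorm.conj_mem w hw _)
  have s1 := hS w (by simp)
  have s2 := hS (flip g2 * w * (flip g2)⁻¹) (by simp)
  have s3 := hS (κ * w * κ⁻¹) (by simp)
  have s4 := hS ((κ * g1) * w * (κ * g1)⁻¹) (by simp)
  -- right end
  have r := k2 (flip z) (by
    rw [← map_mul, s1, map_mul]) (by
    have := congrArg flip s2
    simp only [map_mul, map_inv, flip_flip] at this
    exact this)
  -- left part
  have hcj : ∀ {y : ThompsonF}, z * (κ * y * κ⁻¹) = κ * y * κ⁻¹ * z →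
      (κ⁻¹ * z * κ) * y = y * (κ⁻¹ * z * κ) := by
    intro y hy
    have h1 : (κ⁻¹ * z * κ) * y = κ⁻¹ * (z * (κ * y * κ⁻¹)) * κ := by group
    rw [h1, hy]
    group
  have l := k1 (κ⁻¹ * z * κ) (hcj s3) (hcj (by
    have e4 : κ * (g1 * w * g1⁻¹) * κ⁻¹ = κ * g1 * w * (κ * g1)⁻¹ := by group
    rw [e4]
    exact s4))
  apply hz
  apply Subtype.ext
  ext x
  change ((z : UI ≃o UI) x : ℝ) = x
  congr 1
  rcases le_total x e with hx | hx
  · -- `x ≤ κ d`
    have hx2 : x ≤ (κ : UI ≃o UI) d := by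
      rw [hκ]
      exact hx.trans hn
    have hx3 : (κ : UI ≃o UI).symm x ≤ d := (κ : UI ≃o UI).symm_apply_le.2 hx2
    have h5 := l ((κ : UI ≃o UI).symm x) (by
      have : ((κ : UI ≃o UI).symm x : ℝ) ≤ min δ1 1 := hx3
      exact this.trans (min_le_left _ _))
    have h6 : (κ : UI ≃o UI).symm ((z : UI ≃o UI) ((κ : UI ≃o UI) ((κ : UI ≃o UI).symm x))) =
        (κ : UI ≃o UI).symm x := h5
    rw [OrderIso.apply_symm_apply] at h6
    exact (κ : UI ≃o UI).symm.injective h6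
  · have hx' : 1 - min δ2 1 ≤ (x : ℝ) := hx
    have h5 := r (fl x) (by
      rw [fl_val]
      have := min_le_left δ2 1
      linarith)
    rw [flip_apply, fl_fl] at h5
    have := congrArg fl h5
    rwa [fl_fl, fl_fl] at this

theorem ker_not_le : ¬ chi.ker ≤ flip • chi.ker := by
  intro h
  have h1 := h flip_b0_mem
  rw [mem_flip_ker, flip_flip] at h1
  exact b0_not_mem h1

theorem hall (α : MulAut ThompsonF) :
    α • chi.ker = chi.ker ∨ α • chi.ker = flip • chi.ker := by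
  have hn : ∀ β : MulAut ThompsonF, (β • chi.ker).Normal := by
    intro β
    constructor
    intro n hn g
    rw [Subgroup.mem_pointwise_smul_iff_inv_smul_mem] at hn ⊢
    change β⁻¹ n ∈ chi.ker at hn
    change β⁻¹ (g * n * g⁻¹) ∈ chi.ker
    rw [map_mul, map_mul, map_inv]
    exact (MonoidHom.normal_ker chi).conj_mem _ hn _
  have hle : ∀ β : MulAut ThompsonF, β • chi.ker ≤ chi.ker ∨ β • chi.ker ≤ flip • chi.ker :=
    fun β => P_key (hn β) (P_smul P_ker β)
  rcases hle α with h | h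
  · left
    refine le_antisymm h ?_
    rcases hle α⁻¹ with h' | h'
    · have := smul_mono' (α := α) h'
      rwa [smul_inv_smul] at this
    · exfalso
      -- `ker ≤ α⁻¹ • ker ≤ flip • ker`
      have h2 := smul_mono' (α := α⁻¹) h
      rw [inv_smul_smul] at h2
      exact ker_not_le (h2.trans h')
  · right
    refine le_antisymm h ?_
    rcases hle (α⁻¹ * flip) with h' | h'
    · rw [mul_smul] at h'
      have := smul_mono' (α := α) h'
      rwa [smul_inv_smul] at this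
    · exfalso
      rw [mul_smul] at h'
      have h2 := smul_mono' (α := α⁻¹) h
      rw [inv_smul_smul] at h2
      exact ker_not_le (h2.trans h')

/-- **Thompson's group `F` is not isomorphic to the commutator subgroup of any group.** -/
theorem not_integral (H : Type*) [Group H] : ¬ Nonempty (commutator H ≃* ThompsonF) :=
  not_integrable E flip flip_mul_flip flip_ker_ne hall tot_b0 H

end Pool.Agent.R663.FEnds
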