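import Pool.Agent.R663.Store

/-!
Automorphisms of the line of bounded displacement are products of small pieces.
-/

set_option autoImplicit false

namespace Pool.Agent.R663

/-- the subgroup generated by the small translation and the set `C5` -/
def KK : Subgroup G := Subgroup.closure (insert T C5)

lemma T_mem : T ∈ KK := Subgroup.subset_closure (Set.mem_insert _ _)
lemma C5_sub {u : G} (hu : u ∈ C5) : u ∈ KK := Subgroup.subset_closure (Set.mem_insert_of_mem _ hu)

/-- automorphisms fixing all multiples of `1/3` -/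
def Fix3 (u : G) : Prop := ∀ m : ℤ, u (m / 3) = m / 3

lemma floor3 (x : ℝ) : (⌊3 * x⌋ : ℝ) / 3 ≤ x ∧ x < ((⌊3 * x⌋ + 1 : ℤ) : ℝ) / 3 := by
  have h1 := Int.floor_le (3 * x)
  have h2 := Int.lt_floor_add_one (3 * x)
  constructor
  · rw [div_le_iff₀ (by norm_num)]; linarith
  · rw [lt_div_iff₀ (by norm_num)]; push_cast; linarith

lemma Fix3.floor {u : G} (hu : Fix3 u) (x : ℝ) : ⌊3 * u x⌋ = ⌊3 * x⌋ := by
  obtain ⟨h1, h2⟩ := floor3 x
  have h3 := u.monotone h1
  have h4 := u.strictMono h2
  rw [hu] at h3 h4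
  rw [Int.floor_eq_iff]
  rw [div_le_iff₀ (by norm_num)] at h3
  rw [lt_div_iff₀ (by norm_num)] at h4
  push_cast at h4
  constructor <;> linarith

lemma Fix3.inv {u : G} (hu : Fix3 u) : Fix3 u⁻¹ := by
  intro m
  have h : u⁻¹ (u (m / 3)) = m / 3 := by
    change (u⁻¹ * u) ((m : ℝ) / 3) = _
    rw [inv_mul_cancel]; rfl
  rwa [hu] at h

open Classical in
/-- restriction to the intervals `[m/3, (m+1)/3]` with `p m` -/
noncomputable def resF (u : G) (p : ℤ → Prop) (x : ℝ) : ℝ := if p ⌊3 * x⌋ then u x else x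

lemma resF_floor {u : G} (hu : Fix3 u) (p : ℤ → Prop) (x : ℝ) : ⌊3 * resF u p x⌋ = ⌊3 * x⌋ := by
  unfold resF
  split_ifs
  · exact hu.floor x
  · rfl

lemma resF_mono {u : G} (hu : Fix3 u) (p : ℤ → Prop) : StrictMono (resF u p) := by
  intro x y hxy
  have hle : ⌊3 * x⌋ ≤ ⌊3 * y⌋ := Int.floor_mono (by linarith)
  rcases hle.lt_or_eq with h | h
  · have h1 := floor3 (resF u p x)
    have h2 := floor3 (resF u p y)
    rw [resF_floor hu] at h1 h2
    have h3 : ((⌊3 * x⌋ + 1 : ℤ) : ℝ) ≤ ⌊3 * y⌋ := by exact_mod_cast h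
    have h4 : ((⌊3 * x⌋ + 1 : ℤ) : ℝ) / 3 ≤ (⌊3 * y⌋ : ℝ) / 3 := by linarith
    linarith [h1.2, h2.1]
  · unfold resF
    rw [← h]
    split_ifs
    · exact u.strictMono hxy
    · exact hxy

lemma resF_inv {u : G} (hu : Fix3 u) (p : ℤ → Prop) (x : ℝ) : resF u p (resF u⁻¹ p x) = x := by
  have h := resF_floor hu.inv p x
  unfold resF at h ⊢
  rw [h]
  split_ifs with h1
  · change (u * u⁻¹) x = x
    rw [mul_inv_cancel]; rfl
  · rfl

/-- restriction to the intervals `[m/3, (m+1)/3]` with `p m` -/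
noncomputable def res (u : G) (hu : Fix3 u) (p : ℤ → Prop) : G :=
  (resF_mono hu p).orderIsoOfRightInverse _ (resF u⁻¹ p) (resF_inv hu p)

lemma res_apply (u : G) (hu : Fix3 u) (p : ℤ → Prop) (x : ℝ) : res u hu p x = resF u p x := rfl

lemma Fix3_mem {u : G} (hu : Fix3 u) : u ∈ KK := by
  -- the pieces
  have hpiece : ∀ k : ℕ, res u hu (fun m => m % 15 = k) ∈ KK := by
    intro k
    set j : ℤ := 2 * (1 - k) with hj
    set r := res u hu (fun m => m % 15 = k) with hr
    have h1 : T ^ j * r * (T ^ j)⁻¹ ∈ C5 := by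
      intro x hx
      have e : (T ^ j * r * (T ^ j)⁻¹) x = r (x - j / 6) + j / 6 := by
        rw [← zpow_neg]
        change (T ^ j) (r ((T ^ (-j)) x)) = _
        rw [T_zpow_apply, T_zpow_apply]
        congr 2
        push_cast; ring
      rw [e]
      have e2 : r (x - j / 6) = x - j / 6 := by
        rw [hr, res_apply, resF]
        by_cases hmod : ⌊3 * (x - j / 6)⌋ % 15 = k
        · rw [if_pos hmod]
          -- x - j/6 is an endpoint
          set m := ⌊3 * (x - j / 6)⌋ with hm
          obtain ⟨h2, h3⟩ := floor3 (x - j / 6)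
          rw [← hm] at h2 h3
          have hk := hx ((m - k) / 15)
          have hdiv : ((m - k) / 15 : ℤ) * 15 = m - k := by omega
          have hdivR : (((m - k) / 15 : ℤ) : ℝ) * 15 = m - k := by exact_mod_cast hdiv
          have hjR : (j : ℝ) = 2 * (1 - k) := by rw [hj]; push_cast; ring
          push_cast at h3
          have hend : x - j / 6 = (m : ℝ) / 3 := by
            rcases hk with hk | hk
            · linarith
            · linarith
          rw [hend]; exact hu m
        · rw [if_neg hmod]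
      rw [e2]; ring
    have h2 : r = (T ^ j)⁻¹ * (T ^ j * r * (T ^ j)⁻¹) * T ^ j := by group
    rw [h2]
    exact KK.mul_mem (KK.mul_mem (KK.inv_mem (KK.zpow_mem T_mem _)) (C5_sub h1))
      (KK.zpow_mem T_mem _)
  have hsum : ∀ k : ℕ, k ≤ 15 → res u hu (fun m => m % 15 < k) ∈ KK := by
    intro k
    induction k with
    | zero =>
      intro _
      have : res u hu (fun m => m % 15 < (0 : ℕ)) = 1 := by
        ext x
        rw [res_apply, resF, if_neg (by
          have := Int.emod_nonneg ⌊3 * x⌋ (show (15 : ℤ) ≠ 0 by norm_num)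
          push_cast; omega)]
        rfl
      rw [this]; exact KK.one_mem
    | succ k ih =>
      intro hk
      have : res u hu (fun m => m % 15 < (k + 1 : ℕ)) =
          res u hu (fun m => m % 15 < k) * res u hu (fun m => m % 15 = k) := by
        ext x
        change resF u (fun m => m % 15 < ((k + 1 : ℕ) : ℤ)) x =
          resF u (fun m => m % 15 < (k : ℤ)) (resF u (fun m => m % 15 = (k : ℤ)) x)
        have hf := resF_floor hu (fun m => m % 15 = (k : ℤ)) x
        conv_rhs => rw [resF]
        rw [hf]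
        unfold resF
        push_cast
        by_cases h1 : ⌊3 * x⌋ % 15 = k
        · rw [if_pos (by omega), if_neg (by omega), if_pos h1]
        · by_cases h2 : ⌊3 * x⌋ % 15 < k
          · rw [if_pos (by omega), if_pos h2, if_neg h1]
          · rw [if_neg (by omega), if_neg h2, if_neg h1]
      rw [this]
      exact KK.mul_mem (ih (by omega)) (hpiece k)
  have hall : res u hu (fun m => m % 15 < (15 : ℕ)) = u := by
    ext x
    rw [res_apply, resF, if_pos (by
      have := Int.emod_lt_of_pos ⌊3 * x⌋ (show (0 : ℤ) < 15 by norm_num)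
      push_cast; omega)]
  rw [← hall]
  exact hsum 15 le_rfl

/-- piecewise linear interpolation -/
noncomputable def plF (q : ℤ → ℝ) (x : ℝ) : ℝ := q ⌊x⌋ + Int.fract x * (q (⌊x⌋ + 1) - q ⌊x⌋)

lemma plF_int (q : ℤ → ℝ) (n : ℤ) : plF q n = q n := by
  unfold plF; rw [Int.floor_intCast, Int.fract_intCast]; ring

section
variable {q : ℤ → ℝ} (hq : StrictMono q)
include hq

lemma plF_bounds (x : ℝ) : q ⌊x⌋ ≤ plF q x ∧ plF q x < q (⌊x⌋ + 1) := by
  have h1 := Int.fract_nonneg x
  have h2 := Int.fract_lt_one x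
  have h3 := hq (show ⌊x⌋ < ⌊x⌋ + 1 by omega)
  unfold plF
  constructor <;> nlinarith

lemma plF_mono : StrictMono (plF q) := by
  intro x y hxy
  rcases (Int.floor_mono hxy.le).lt_or_eq with h | h
  · have h1 := (plF_bounds hq x).2
    have h2 := (plF_bounds hq y).1
    have h3 := hq.monotone (show ⌊x⌋ + 1 ≤ ⌊y⌋ by omega)
    linarith
  · have h3 := hq (show ⌊x⌋ < ⌊x⌋ + 1 by omega)
    have h4 : Int.fract x < Int.fract y := by rw [Int.fract, Int.fract, ← h]; linarith
    unfold plF
    rw [← h]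
    nlinarith

lemma plF_surj (hu : ∀ y, ∃ n, y < q n) (hl : ∀ y, ∃ n, q n ≤ y) : Function.Surjective (plF q) := by
  intro y
  obtain ⟨N, hN⟩ := hu y
  obtain ⟨M, hM⟩ := hl y
  -- greatest n with q n ≤ y
  obtain ⟨n, hn, hmax⟩ := Int.exists_greatest_of_bdd (P := fun n => q n ≤ y)
    ⟨N, fun z hz => by
      by_contra hc
      have := hq.monotone (show N ≤ z by omega)
      linarith⟩ ⟨M, hM⟩
  have h1 : y < q (n + 1) := by
    by_contra hc
    have := hmax (n + 1) (not_lt.1 hc)
    omega
  have h2 := hq (show n < n + 1 by omega)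
  have hd : 0 < q (n + 1) - q n := by linarith
  have ht0 : 0 ≤ (y - q n) / (q (n + 1) - q n) := div_nonneg (by linarith) hd.le
  have ht1 : (y - q n) / (q (n + 1) - q n) < 1 := by rw [div_lt_one hd]; linarith
  refine ⟨n + (y - q n) / (q (n + 1) - q n), ?_⟩
  have e : ⌊(n : ℝ) + (y - q n) / (q (n + 1) - q n)⌋ = n := by
    rw [Int.floor_intCast_add, Int.floor_eq_zero_iff.2 ⟨ht0, ht1⟩, add_zero]
  unfold plF
  rw [Int.fract, e, add_sub_cancel_left, div_mul_cancel₀ _ hd.ne']
  ring

end

/-- piecewise linear automorphism through prescribed values at the integers -/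
noncomputable def pl (q : ℤ → ℝ) (hq : StrictMono q) (hu : ∀ y, ∃ n, y < q n)
    (hl : ∀ y, ∃ n, q n ≤ y) : G :=
  (plF_mono hq).orderIsoOfSurjective _ (plF_surj hq hu hl)

lemma pl_int (q : ℤ → ℝ) (hq : StrictMono q) (hu : ∀ y, ∃ n, y < q n)
    (hl : ∀ y, ∃ n, q n ≤ y) (n : ℤ) : pl q hq hu hl n = q n := plF_int q n

/-- multiplication by six -/
noncomputable def six : G := OrderIso.mulLeft₀ (6 : ℝ) (by norm_num)

lemma small_mem {u : G} (hu : ∀ x, |u x - x| < 1 / 6) : u ∈ KK := by
  let q : ℤ → ℝ := fun k => if Even k then u (k / 6) else k / 6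
  have hqk : ∀ k : ℤ, |q k - k / 6| < 1 / 6 := by
    intro k
    simp only [q]
    split_ifs
    · exact hu _
    · simp
  have hq : StrictMono q := by
    apply strictMono_int_of_lt_succ
    intro k
    simp only [q]
    by_cases hk : Even k
    · have hk1 : ¬ Even (k + 1) := by rw [Int.not_even_iff_odd]; exact hk.add_one
      rw [if_pos hk, if_neg hk1]
      have := (abs_lt.1 (hu (k / 6))).2
      push_cast; linarith
    · have hk1 : Even (k + 1) := by rw [Int.not_even_iff_odd] at hk; exact hk.add_one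
      rw [if_neg hk, if_pos hk1]
      have := (abs_lt.1 (hu (((k + 1 : ℤ) : ℝ) / 6))).1
      push_cast at this ⊢; linarith
  have h1 : ∀ y, ∃ n, y < q n := by
    intro y
    refine ⟨⌈6 * y⌉ + 2, ?_⟩
    have h2 := (abs_lt.1 (hqk (⌈6 * y⌉ + 2))).1
    have h3 := Int.le_ceil (6 * y)
    push_cast at h2
    linarith
  have h2 : ∀ y, ∃ n, q n ≤ y := by
    intro y
    refine ⟨⌊6 * y⌋ - 2, ?_⟩
    have h2 := (abs_lt.1 (hqk (⌊6 * y⌋ - 2))).2
    have h3 := Int.floor_le (6 * y)
    push_cast at h2
    linarith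
  set s : G := pl q hq h1 h2 * six with hs
  have hsk : ∀ k : ℤ, s (k / 6) = q k := by
    intro k
    have e : s (k / 6) = pl q hq h1 h2 (6 * ((k : ℝ) / 6)) := rfl
    rw [e, mul_div_cancel₀ _ (by norm_num : (6 : ℝ) ≠ 0), pl_int]
  -- s fixes odd multiples of 1/6
  have hs1 : Fix3 (T * s * T⁻¹) := by
    intro m
    have hT : T⁻¹ ((m : ℝ) / 3) = ((2 * m - 1 : ℤ) : ℝ) / 6 := by
      have := T_zpow_apply (-1) ((m : ℝ) / 3)
      rw [zpow_neg_one] at this
      rw [this]; push_cast; ring
    change T (s (T⁻¹ ((m : ℝ) / 3))) = _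
    have hodd : ¬ Even (2 * m - 1) := by rw [Int.not_even_iff_odd]; exact ⟨m - 1, by ring⟩
    rw [hT, hsk]
    simp only [q]
    rw [if_neg hodd, T_apply]; push_cast; ring
  have hs2 : Fix3 (s⁻¹ * u) := by
    intro m
    have e : (m : ℝ) / 3 = ((2 * m : ℤ) : ℝ) / 6 := by push_cast; ring
    change s⁻¹ (u ((m : ℝ) / 3)) = _
    have h3 : u ((m : ℝ) / 3) = s ((m : ℝ) / 3) := by
      rw [e, hsk]
      simp only [q]
      rw [if_pos (even_two_mul m)]
    rw [h3]
    change (s⁻¹ * s) _ = _
    rw [inv_mul_cancel]; rfl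
  have hs' : s ∈ KK := by
    have h3 := KK.mul_mem (KK.mul_mem (KK.inv_mem T_mem) (Fix3_mem hs1)) T_mem
    have h4 : T⁻¹ * (T * s * T⁻¹) * T = s := by group
    rwa [h4] at h3
  have h5 := KK.mul_mem hs' (Fix3_mem hs2)
  rwa [mul_inv_cancel_left] at h5

lemma bdd_mem_aux (k : ℕ) : ∀ u : G, (∀ x, |u x - x| < k / 6) → u ∈ KK := by
  induction k with
  | zero =>
    intro u hu
    exact absurd (hu 0) (not_lt.2 (by simp))
  | succ k ih =>
    intro u hu
    rcases Nat.eq_zero_or_pos k with hk | hk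
    · subst hk
      exact small_mem (by simpa using hu)
    have hkR : (0 : ℝ) < k := by exact_mod_cast hk
    have hk1 : (0 : ℝ) < k + 1 := by linarith
    let F : ℝ → ℝ := fun x => (x + k * u x) / (k + 1)
    have hFm : StrictMono F := by
      intro x y hxy
      have := u.strictMono hxy
      simp only [F]
      rw [div_lt_div_iff_of_pos_right hk1]
      nlinarith
    have hFx : ∀ x, |F x - x| < k / 6 := by
      intro x
      have e : F x - x = k / (k + 1) * (u x - x) := by
        simp only [F]; field_simp; ring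
      rw [e, abs_mul, abs_of_pos (div_pos hkR hk1)]
      have h := hu x
      push_cast at h
      calc (k : ℝ) / (k + 1) * |u x - x| < k / (k + 1) * ((k + 1) / 6) := by
            exact mul_lt_mul_of_pos_left h (div_pos hkR hk1)
        _ = k / 6 := by field_simp
    have hFc : Continuous F := by
      have := u.continuous
      fun_prop
    have hFs : Function.Surjective F := by
      intro y
      have h1 := (abs_lt.1 (hFx (y - k / 6))).2
      have h2 := (abs_lt.1 (hFx (y + k / 6))).1
      obtain ⟨x, -, hx⟩ := intermediate_value_Icc (show y - k / 6 ≤ y + k / 6 by linarith)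
        hFc.continuousOn (show y ∈ Set.Icc (F (y - k / 6)) (F (y + k / 6)) from
          ⟨by linarith, by linarith⟩)
      exact ⟨x, hx⟩
    set v : G := hFm.orderIsoOfSurjective _ hFs with hv
    have hvF : ∀ x, v x = F x := fun x => rfl
    have h3 : v ∈ KK := ih v (fun x => by rw [hvF]; exact hFx x)
    have h4 : u * v⁻¹ ∈ KK := by
      apply small_mem
      intro y
      obtain ⟨x, rfl⟩ := v.surjective y
      have e : (u * v⁻¹) (v x) = u x := by
        change u (v⁻¹ (v x)) = u x
        congr 1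
        change (v⁻¹ * v) x = x
        rw [inv_mul_cancel]; rfl
      rw [e, hvF]
      have e2 : u x - F x = 1 / (k + 1) * (u x - x) := by
        simp only [F]; field_simp; ring
      rw [e2, abs_mul, abs_of_pos (by positivity)]
      have h := hu x
      push_cast at h
      calc 1 / ((k : ℝ) + 1) * |u x - x| < 1 / (k + 1) * ((k + 1) / 6) := by
            exact mul_lt_mul_of_pos_left h (by positivity)
        _ = 1 / 6 := by field_simp
    have h5 := KK.mul_mem h4 h3
    rwa [inv_mul_cancel_right] at h5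

/-- automorphisms of bounded displacement -/
lemma bdd_mem {u : G} {M : ℝ} (hu : ∀ x, |u x - x| ≤ M) : u ∈ KK := by
  refine bdd_mem_aux (⌈6 * M⌉₊ + 1) u (fun x => ?_)
  have h1 := hu x
  have h2 := Nat.le_ceil (6 * M)
  push_cast
  linarith

end Pool.Agent.R663
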