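import Mathlib

/-! Polynomial functions of one scalar parameter with values in a vector space, and the
vanishing lemma used to specialise a parameter to `0` over a large field. -/

namespace Pool.Agent.R663.NilRank

open Module Finset

universe u v w

variable {K : Type u} [Field K] {V : Type v} [AddCommGroup V] [Module K V]

/-- `g` is a polynomial function of degree at most `D` with coefficients in `V`. -/
def PF (D : ℕ) (g : K → V) : Prop :=
  ∃ a : ℕ → V, ∀ c, g c = ∑ i ∈ range (D + 1), c ^ i • a i

theorem PF.monomial {D i : ℕ} (hi : i ≤ D) (v : V) : PF (K := K) D (fun c => c ^ i • v) := by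
  refine ⟨fun k => if k = i then v else 0, fun c => ?_⟩
  rw [Finset.sum_eq_single i]
  · simp
  · intro b _ hb; simp [hb]
  · intro h; exact absurd (Finset.mem_range.2 (Nat.lt_succ_of_le hi)) h

theorem PF.const (D : ℕ) (v : V) : PF (K := K) D (fun _ => v) := by
  simpa using PF.monomial (K := K) (Nat.zero_le D) v

theorem PF.add {D : ℕ} {f g : K → V} (hf : PF D f) (hg : PF D g) :
    PF D (fun c => f c + g c) := by
  obtain ⟨a, ha⟩ := hf
  obtain ⟨b, hb⟩ := hg
  refine ⟨fun i => a i + b i, fun c => ?_⟩
  simp only [ha, hb, smul_add, Finset.sum_add_distrib]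

theorem PF.sum {D : ℕ} {ι : Type*} (s : Finset ι) {f : ι → K → V} (hf : ∀ i ∈ s, PF D (f i)) :
    PF D (fun c => ∑ i ∈ s, f i c) := by
  classical
  induction s using Finset.induction_on with
  | empty => simpa using PF.const (K := K) D (0 : V)
  | insert a s has ih =>
    simp only [Finset.sum_insert has]
    exact PF.add (hf a (Finset.mem_insert_self a s))
      (ih (fun i hi => hf i (Finset.mem_insert_of_mem hi)))

theorem PF.congr {D : ℕ} {f g : K → V} (hf : PF D f) (h : ∀ c, g c = f c) : PF D g := by
  obtain ⟨a, ha⟩ := hf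
  exact ⟨a, fun c => by rw [h, ha]⟩

theorem PF.mono {D E : ℕ} (h : D ≤ E) {f : K → V} (hf : PF D f) : PF E f := by
  obtain ⟨a, ha⟩ := hf
  refine PF.congr (PF.sum (D := E) (range (D + 1)) (f := fun i c => c ^ i • a i) ?_) ha
  intro i hi
  exact PF.monomial (le_trans (Nat.lt_succ_iff.1 (Finset.mem_range.1 hi)) h) (a i)

theorem PF.map {W : Type w} [AddCommGroup W] [Module K W] (L : V →ₗ[K] W) {D : ℕ} {f : K → V}
    (hf : PF D f) : PF D (fun c => L (f c)) := by
  obtain ⟨a, ha⟩ := hf
  exact ⟨fun i => L (a i), fun c => by simp [ha]⟩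

theorem PF.smul {D : ℕ} {f : K → V} (hf : PF D f) : PF (D + 1) (fun c => c • f c) := by
  obtain ⟨a, ha⟩ := hf
  refine PF.congr (PF.sum (D := D + 1) (range (D + 1)) (f := fun i c => c ^ (i + 1) • a i) ?_) ?_
  · intro i hi
    exact PF.monomial (Nat.succ_le_succ (Nat.lt_succ_iff.1 (Finset.mem_range.1 hi))) (a i)
  · intro c
    rw [ha, Finset.smul_sum]
    refine Finset.sum_congr rfl (fun i _ => ?_)
    rw [smul_smul, pow_succ']

theorem PF.pow_smul {D : ℕ} {f : K → V} (hf : PF D f) (k : ℕ) :
    PF (D + k) (fun c => c ^ k • f c) := by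
  induction k with
  | zero => simpa using hf
  | succ k ih =>
    refine PF.congr (PF.smul ih) (fun c => ?_)
    rw [smul_smul, pow_succ']

theorem PF.app {D E : ℕ} {F : K → End K V} {g : K → V} (hF : PF D F) (hg : PF E g) :
    PF (D + E) (fun c => F c (g c)) := by
  obtain ⟨a, ha⟩ := hF
  obtain ⟨b, hb⟩ := hg
  refine PF.congr (PF.sum (D := D + E) (range (D + 1))
    (f := fun i c => ∑ j ∈ range (E + 1), c ^ (i + j) • (a i) (b j)) ?_) ?_
  · intro i hi
    refine PF.sum _ (f := fun j c => c ^ (i + j) • (a i) (b j)) ?_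
    intro j hj
    exact PF.monomial (Nat.add_le_add (Nat.lt_succ_iff.1 (Finset.mem_range.1 hi))
      (Nat.lt_succ_iff.1 (Finset.mem_range.1 hj))) _
  · intro c
    rw [ha, hb, LinearMap.sum_apply]
    refine Finset.sum_congr rfl (fun i _ => ?_)
    rw [map_sum]
    refine Finset.sum_congr rfl (fun j _ => ?_)
    rw [LinearMap.smul_apply, map_smul, smul_smul, pow_add]

theorem PF.pow_app {D : ℕ} {F : K → End K V} (hF : PF D F) (v : V) (j : ℕ) :
    PF (j * D) (fun c => (F c ^ j) v) := by
  induction j with
  | zero => simpa using PF.const (K := K) 0 v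
  | succ j ih =>
    refine PF.mono (le_of_eq (by ring)) (PF.congr (PF.app hF ih) (fun c => ?_))
    rw [pow_succ']
    rfl

/-- A polynomial function of degree at most `D` vanishing off `0` vanishes at `0`. -/
theorem PF.zero {D : ℕ} {f : K → V} (hf : PF D f) (hK : ((D + 2 : ℕ) : Cardinal.{u}) ≤ Cardinal.mk K)
    (h : ∀ c, c ≠ 0 → f c = 0) : f 0 = 0 := by
  classical
  obtain ⟨a, ha⟩ := hf
  have h0 : f 0 = a 0 := by
    rw [ha, Finset.sum_eq_single 0]
    · simp
    · intro b _ hb; simp [hb]
    · intro h; exact absurd (Finset.mem_range.2 (Nat.succ_pos D)) h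
  rw [h0, ← Module.forall_dual_apply_eq_zero_iff K]
  intro l
  set p : Polynomial K := ∑ i ∈ range (D + 1), Polynomial.monomial i (l (a i)) with hp
  have hdeg : p.natDegree ≤ D := by
    refine Polynomial.natDegree_sum_le_of_forall_le _ _ (fun i hi => ?_)
    exact le_trans (Polynomial.natDegree_monomial_le _) (Nat.lt_succ_iff.1 (Finset.mem_range.1 hi))
  have hev : ∀ c, p.eval c = l (f c) := by
    intro c
    rw [hp, Polynomial.eval_finsetSum, ha, map_sum]
    refine Finset.sum_congr rfl (fun i _ => ?_)
    rw [Polynomial.eval_monomial, map_smul, smul_eq_mul, mul_comm]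
  have hX : ∀ c, (Polynomial.X * p).eval c = 0 := by
    intro c
    rw [Polynomial.eval_mul, Polynomial.eval_X, hev]
    by_cases hc : c = 0
    · rw [hc, zero_mul]
    · rw [h c hc, map_zero, mul_zero]
  have hzero : Polynomial.X * p = 0 := by
    by_contra hne
    obtain ⟨r, hr⟩ := Polynomial.exists_eval_ne_zero_of_natDegree_lt_card _ hne (by
      refine lt_of_lt_of_le ?_ hK
      have : (Polynomial.X * p).natDegree ≤ D + 1 := by
        refine le_trans Polynomial.natDegree_mul_le ?_
        rw [Polynomial.natDegree_X]; omega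
      exact_mod_cast Nat.lt_of_le_of_lt this (by omega))
    exact hr (hX r)
  have hp0 : p = 0 := by
    rcases mul_eq_zero.1 hzero with h | h
    · exact absurd h Polynomial.X_ne_zero
    · exact h
  have := hev 0
  rw [hp0, Polynomial.eval_zero, h0] at this
  exact this.symm

/-- Openness of linear independence along a line, over a large field. -/
theorem indep_line {ι : Type*} [Fintype ι] (a b : ι → V) (ha : LinearIndependent K a)
    (hK : ((Fintype.card ι + 2 : ℕ) : Cardinal.{u}) ≤ Cardinal.mk K) :
    ∃ t : K, t ≠ 0 ∧ LinearIndependent K (fun i => a i + t • b i) := by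
  classical
  have hinj : Function.Injective (Fintype.linearCombination K a) :=
    linearIndependent_iff_injective_fintypeLinearCombination.1 ha
  obtain ⟨L, hL⟩ := LinearMap.exists_leftInverse_of_injective _ (LinearMap.ker_eq_bot.2 hinj)
  have hLa : ∀ i, L (a i) = Pi.single i 1 := by
    intro i
    have := LinearMap.congr_fun hL (Pi.single i 1)
    simpa [Fintype.linearCombination_apply_single] using this
  set B : Matrix ι ι K := Matrix.of (fun i j => L (b j) i) with hB
  set p : Polynomial K := Matrix.det ((Polynomial.X : Polynomial K) • B.map Polynomial.C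
    + (1 : Matrix ι ι K).map Polynomial.C) with hp
  have hdeg : p.natDegree ≤ Fintype.card ι := Polynomial.natDegree_det_X_add_C_le B 1
  have hev : ∀ t, p.eval t = (1 + t • B).det := by
    intro t
    rw [hp, ← Polynomial.coe_evalRingHom, RingHom.map_det]
    congr 1
    ext i j
    rw [RingHom.mapMatrix_apply, Matrix.map_apply, Matrix.add_apply, Matrix.smul_apply,
      Matrix.map_apply, Matrix.map_apply, Polynomial.coe_evalRingHom, Polynomial.eval_add,
      smul_eq_mul, Polynomial.eval_mul, Polynomial.eval_X, Polynomial.eval_C, Polynomial.eval_C,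
      Matrix.add_apply, Matrix.smul_apply, smul_eq_mul, add_comm]
  have hp1 : p.eval 0 = 1 := by rw [hev]; simp
  have hpne : Polynomial.X * p ≠ 0 := by
    refine mul_ne_zero Polynomial.X_ne_zero ?_
    intro h
    rw [h] at hp1
    simp at hp1
  obtain ⟨t, ht⟩ := Polynomial.exists_eval_ne_zero_of_natDegree_lt_card _ hpne (by
      refine lt_of_lt_of_le ?_ hK
      have : (Polynomial.X * p).natDegree ≤ Fintype.card ι + 1 := by
        refine le_trans Polynomial.natDegree_mul_le ?_
        rw [Polynomial.natDegree_X]; omega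
      exact_mod_cast Nat.lt_of_le_of_lt this (by omega))
  rw [Polynomial.eval_mul, Polynomial.eval_X, hev] at ht
  have ht0 : t ≠ 0 := left_ne_zero_of_mul ht
  have hdet : (1 + t • B).det ≠ 0 := right_ne_zero_of_mul ht
  refine ⟨t, ht0, ?_⟩
  rw [Fintype.linearIndependent_iff]
  intro g hg
  have hvec : (1 + t • B).mulVec g = 0 := by
    have := congrArg L hg
    rw [map_zero, map_sum] at this
    rw [← this]
    ext i
    simp only [map_smul, map_add, hLa, Finset.sum_apply, Pi.smul_apply, Pi.add_apply,
      Matrix.mulVec, dotProduct, Matrix.add_apply, Matrix.smul_apply, hB, Matrix.of_apply,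
      smul_eq_mul]
    refine Finset.sum_congr rfl (fun j _ => ?_)
    rw [Matrix.one_apply, Pi.single_apply]
    ring
  have := Matrix.eq_zero_of_mulVec_eq_zero hdet hvec
  intro i
  rw [this]; rfl

end Pool.Agent.R663.NilRank
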