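import Mathlib
import Pool.Agent.R663.NilRankA

/-! Linear spaces of nilpotent endomorphisms: resolvent identities and the key lemma. -/

namespace Pool.Agent.R663.NilRank

open Module Finset

universe u v w

variable {K : Type u} [Field K] {V : Type v} [AddCommGroup V] [Module K V]

/-- The rank one endomorphism `v ↦ φ v • x`, linear in `φ`. -/
def T (x : V) : Dual K V →ₗ[K] End K V where
  toFun φ := φ.smulRight x
  map_add' φ ψ := by ext v; simp [add_smul]
  map_smul' c φ := by ext v; simp [mul_smul]

@[simp] theorem T_apply (x : V) (φ : Dual K V) (v : V) : T x φ v = φ v • x := rfl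

theorem pow_apply_fix {f : End K V} {v : V} (h : f v = v) (k : ℕ) : (f ^ k) v = v := by
  induction k with
  | zero => simp
  | succ k ih => rw [pow_succ', Module.End.mul_apply, ih, h]

theorem no_fix {f : End K V} {N : ℕ} (hf : f ^ N = 0) {v : V} (h : f v = v) : v = 0 := by
  have := pow_apply_fix h N
  rw [hf] at this
  simpa using this.symm

/-- The resolvent sum of a nilpotent endomorphism. -/
def R (N : ℕ) (f : End K V) : End K V := ∑ j ∈ range N, f ^ j

theorem R_mul {N : ℕ} {f : End K V} (hf : f ^ N = 0) (v : V) : R N f (v - f v) = v := by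
  have h : R N f * (1 - f) = 1 := by
    rw [R, geom_sum_mul_neg, hf, sub_zero]
  have := LinearMap.congr_fun h v
  simpa [Module.End.mul_apply] using this

theorem mul_R {N : ℕ} {f : End K V} (hf : f ^ N = 0) (v : V) : f (R N f v) = R N f v - v := by
  have h : (1 - f) * R N f = 1 := by
    rw [R, mul_neg_geom_sum, hf, sub_zero]
  have := LinearMap.congr_fun h v
  simp only [Module.End.mul_apply, LinearMap.sub_apply, Module.End.one_apply] at this
  exact eq_sub_of_add_eq (by
    have h2 := eq_add_of_sub_eq this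
    rw [add_comm]
    exact h2.symm)

theorem R_zero {N : ℕ} (hN : 1 ≤ N) (v : V) : R N (0 : End K V) v = v := by
  obtain ⟨m, rfl⟩ := Nat.exists_eq_add_of_le hN
  rw [R, LinearMap.sum_apply, Finset.sum_eq_single 0]
  · simp
  · intro b _ hb; rw [zero_pow hb]; rfl
  · intro h; exact absurd (Finset.mem_range.2 (by omega)) h

/-- Resolvent identity: `φ` kills `(1 - w)⁻¹ x` if `x ⊗ φ` and `w` lie in a nilpotent space. -/
theorem res {N : ℕ} {W : Submodule K (End K V)} (hW : ∀ w ∈ W, w ^ N = 0) {x : V}
    {φ : Dual K V} (hφ : T x φ ∈ W) {w : End K V} (hw : w ∈ W) : φ (R N w x) = 0 := by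
  by_contra h
  set v := R N w x with hv
  have h1 : w v = v - x := mul_R (hW w hw) x
  have hw' : w + (φ v)⁻¹ • T x φ ∈ W := W.add_mem hw (W.smul_mem _ hφ)
  have h2 : (w + (φ v)⁻¹ • T x φ) v = v := by
    simp [h1, smul_smul, inv_mul_cancel₀ h]
  have h3 : v = 0 := no_fix (hW _ hw') h2
  exact h (by rw [h3, map_zero])

theorem phi_x {N : ℕ} (hN : 1 ≤ N) {W : Submodule K (End K V)} (hW : ∀ w ∈ W, w ^ N = 0) {x : V}
    {φ : Dual K V} (hφ : T x φ ∈ W) : φ x = 0 := by
  have := res hW hφ W.zero_mem
  rwa [R_zero hN] at this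

theorem PF_R {N D : ℕ} {F : K → End K V} (hF : PF D F) (v : V) :
    PF (N * D) (fun c => R N (F c) v) := by
  refine PF.congr (PF.sum (D := N * D) (range N) (f := fun j c => (F c ^ j) v) ?_) ?_
  · intro j hj
    exact PF.mono (Nat.mul_le_mul_right D (le_of_lt (Finset.mem_range.1 hj))) (PF.pow_app hF v j)
  · intro c
    rw [R, LinearMap.sum_apply]

theorem phi_zx {N : ℕ} (hN : 1 ≤ N) {W : Submodule K (End K V)} (hW : ∀ w ∈ W, w ^ N = 0) {x : V}
    (hK : ((N + 2 : ℕ) : Cardinal.{u}) ≤ Cardinal.mk K)
    {φ : Dual K V} (hφ : T x φ ∈ W) {w : End K V} (hw : w ∈ W) : φ (w x) = 0 := by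
  -- `c ↦ φ (R (c w) (w x))` vanishes off `0`
  have hPF : PF N (fun c : K => R N (c • w) (w x)) := by
    have h1 : PF 1 (fun c : K => c • w) := by
      simpa using PF.monomial (K := K) (le_refl 1) w
    simpa using PF_R (N := N) h1 (w x)
  have h := PF.zero (PF.map φ hPF) hK ?_
  · simpa [R_zero hN] using h
  · intro c hc
    have hcw : c • w ∈ W := W.smul_mem _ hw
    have h1 := R_mul (hW _ hcw) x
    rw [LinearMap.smul_apply, map_sub, map_smul] at h1
    have h2 := congrArg φ h1
    rw [map_sub, map_smul, res hW hφ hcw, phi_x hN hW hφ, zero_sub, neg_eq_zero, smul_eq_mul] at h2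
    exact (mul_eq_zero.1 h2).resolve_left hc

/-- The chain construction. -/
theorem chain {N : ℕ} (hN : 1 ≤ N) {W : Submodule K (End K V)} (hW : ∀ w ∈ W, w ^ N = 0) {x : V}
    {s : End K V} (hs : s ∈ W) (hsx : s x = 0) {y : V} (hsy : s y = x)
    (hy : ∃ z ∈ W, z x = y)
    (hU : ∀ v, (∀ φ : Dual K V, T x φ ∈ W → φ v = 0) → ∃ c : K, ∃ z ∈ W, v = c • x + z x)
    (hK : (((N + 2) ^ 2 : ℕ) : Cardinal.{u}) ≤ Cardinal.mk K) :
    ∀ m ≤ N, ∃ w : ℕ → End K V, ∃ h : ℕ → V, h 0 = y ∧
      (∀ k < m, w k ∈ W ∧ w k x = h k ∧ w k y = h (k + 1)) ∧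
      (∃ z ∈ W, z x = h m) := by
  intro m
  induction m with
  | zero => 
    intro _
    exact ⟨fun _ => 0, fun _ => y, rfl, fun k hk => absurd hk (Nat.not_lt_zero k), hy⟩
  | succ m ih =>
    intro hm
    obtain ⟨w, h, h0, hk, z, hz, hzx⟩ := ih (by omega)
    -- modify the sequence
    set w' : ℕ → End K V := Function.update w m z with hw'
    have hw'm : w' m = z := by simp [hw']
    have hw'k : ∀ k < m, w' k = w k := fun k hk => by
      rw [hw', Function.update_of_ne (by omega)]
    set A : K → End K V := fun c => ∑ k ∈ range (m + 1), (-c) ^ k • w' k with hA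
    have hAmem : ∀ c, A c ∈ W := by
      intro c
      refine W.sum_mem (fun k hk' => W.smul_mem _ ?_)
      rcases Nat.lt_or_ge k m with h1 | h1
      · rw [hw'k k h1]; exact (hk k h1).1
      · have : k = m := by have := Finset.mem_range.1 hk'; omega
        rw [this, hw'm]; exact hz
    have hAx : ∀ c, A c x = ∑ k ∈ range (m + 1), (-c) ^ k • h k := by
      intro c
      rw [hA]
      simp only [LinearMap.sum_apply, LinearMap.smul_apply]
      refine Finset.sum_congr rfl (fun k hk' => ?_)
      rcases Nat.lt_or_ge k m with h1 | h1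
      · rw [hw'k k h1, (hk k h1).2.1]
      · have : k = m := by have := Finset.mem_range.1 hk'; omega
        rw [this, hw'm, hzx]
    have hAy : ∀ c, A c y = (∑ k ∈ range m, (-c) ^ k • h (k + 1)) + (-c) ^ m • z y := by
      intro c
      rw [hA]
      simp only [LinearMap.sum_apply, LinearMap.smul_apply]
      rw [Finset.sum_range_succ, hw'm]
      congr 1
      refine Finset.sum_congr rfl (fun k hk' => ?_)
      rw [hw'k k (Finset.mem_range.1 hk'), (hk k (Finset.mem_range.1 hk')).2.2]
    have hAv : ∀ c, A c x + c • A c y = y - (-c) ^ (m + 1) • z y := by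
      intro c
      rw [hAx, hAy, Finset.sum_range_succ', h0, smul_add, Finset.smul_sum]
      have : ∑ i ∈ range m, c • (-c) ^ i • h (i + 1) = - ∑ i ∈ range m, (-c) ^ (i + 1) • h (i + 1) := by
        rw [← Finset.sum_neg_distrib]
        refine Finset.sum_congr rfl (fun i _ => ?_)
        rw [smul_smul, ← neg_smul]
        congr 1
        ring
      rw [this, smul_smul, pow_succ (-c) m]
      have e : c * (-c) ^ m = -((-c) ^ m * -c) := by ring
      rw [e, neg_smul, pow_zero, one_smul]
      abel
    have hzy : ∀ φ : Dual K V, T x φ ∈ W → φ (z y) = 0 := by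
      intro φ hφ
      have hφy : φ y = 0 := by
        obtain ⟨z', hz', rfl⟩ := hy
        refine phi_zx hN hW (le_trans ?_ hK) hφ hz'
        exact_mod_cast (by nlinarith : N + 2 ≤ (N + 2) ^ 2)
      have hφx : φ x = 0 := phi_x hN hW hφ
      have hPFA : PF (m + 1) (fun c : K => c • A c) := by
        refine PF.smul (PF.sum (D := m) _ (f := fun k c => (-c) ^ k • w' k) ?_)
        intro k hk'
        refine PF.congr (PF.monomial (K := K) (Nat.lt_succ_iff.1 (Finset.mem_range.1 hk'))
          ((-1 : K) ^ k • w' k)) (fun c => ?_)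
        rw [smul_smul]
        congr 1
        rw [← mul_pow]; ring
      have hPF := PF.map φ (PF_R (N := N) hPFA (z y))
      have hz0 := PF.zero hPF ?_ ?_
      · simpa [R_zero hN] using hz0
      · refine le_trans ?_ hK
        have : N * (m + 1) + 2 ≤ (N + 2) ^ 2 := by nlinarith
        exact_mod_cast this
      · intro c hc
        have hB : c • A c ∈ W := W.smul_mem _ (hAmem c)
        have h1 := R_mul (hW _ hB) (x + c • y)
        have h2 : (x + c • y) - (c • A c) (x + c • y) = x + (c * (-c) ^ (m + 1)) • z y := by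
          rw [LinearMap.smul_apply, map_add, map_smul, hAv, smul_sub, smul_smul]
          abel
        rw [h2, map_add, map_smul] at h1
        have h3 := congrArg φ h1
        rw [map_add, map_add, map_smul, map_smul, res hW hφ hB, hφx, hφy] at h3
        simp only [smul_eq_mul, zero_add, mul_zero] at h3
        exact (mul_eq_zero.1 h3).resolve_left (mul_ne_zero hc (pow_ne_zero _ (neg_ne_zero.2 hc)))
    obtain ⟨b, z', hz', hzy'⟩ := hU _ hzy
    refine ⟨Function.update w m (z - b • s), Function.update h (m + 1) (z' x), ?_, ?_, z', hz', ?_⟩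
    · rw [Function.update_of_ne (by omega), h0]
    · intro k hk'
      rcases Nat.lt_or_ge k m with h1 | h1
      · rw [Function.update_of_ne (by omega), Function.update_of_ne (by omega),
          Function.update_of_ne (by omega)]
        exact hk k h1
      · have hkm : k = m := by omega
        subst hkm
        rw [Function.update_self, Function.update_self, Function.update_of_ne (by omega)]
        refine ⟨W.sub_mem hz (W.smul_mem _ hs), ?_, ?_⟩
        · rw [LinearMap.sub_apply, LinearMap.smul_apply, hsx, smul_zero, sub_zero, hzx]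
        · rw [LinearMap.sub_apply, LinearMap.smul_apply, hsy, hzy']
          abel
    · rw [Function.update_self]

/-- The key lemma: if `W x + K x` is the full annihilator of `Φ = {φ | x ⊗ φ ∈ W}` then no
`s ∈ W` with `s x = 0` maps an element of `W x` to `x`. -/
theorem key {N : ℕ} (hN : 1 ≤ N) {W : Submodule K (End K V)} (hW : ∀ w ∈ W, w ^ N = 0) {x : V}
    (hx : x ≠ 0)
    {s : End K V} (hs : s ∈ W) (hsx : s x = 0) {y : V} (hsy : s y = x)
    (hy : ∃ z ∈ W, z x = y)
    (hU : ∀ v, (∀ φ : Dual K V, T x φ ∈ W → φ v = 0) → ∃ c : K, ∃ z ∈ W, v = c • x + z x)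
    (hK : (((N + 2) ^ 2 : ℕ) : Cardinal.{u}) ≤ Cardinal.mk K) : False := by
  obtain ⟨w, h, h0, hk, -⟩ := chain hN hW hs hsx hsy hy hU hK N le_rfl
  set A : K → End K V := fun c => ∑ k ∈ range N, (-c) ^ k • w k with hA
  have hAmem : ∀ c, A c ∈ W := fun c =>
    W.sum_mem (fun k hk' => W.smul_mem _ (hk k (Finset.mem_range.1 hk')).1)
  have hAv : ∀ c, A c x + c • A c y = y - (-c) ^ N • h N := by
    intro c
    have h1 : A c x = ∑ k ∈ range N, (-c) ^ k • h k := by
      rw [hA]
      simp only [LinearMap.sum_apply, LinearMap.smul_apply]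
      exact Finset.sum_congr rfl (fun k hk' => by rw [(hk k (Finset.mem_range.1 hk')).2.1])
    have h2 : c • A c y = - ∑ k ∈ range N, (-c) ^ (k + 1) • h (k + 1) := by
      rw [hA]
      simp only [LinearMap.sum_apply, LinearMap.smul_apply]
      rw [Finset.smul_sum, ← Finset.sum_neg_distrib]
      refine Finset.sum_congr rfl (fun k hk' => ?_)
      rw [(hk k (Finset.mem_range.1 hk')).2.2, smul_smul, ← neg_smul]
      congr 1
      ring
    have h3 := Finset.sum_range_succ' (fun k => (-c) ^ k • h k) N
    have h4 := Finset.sum_range_succ (fun k => (-c) ^ k • h k) N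
    rw [h3] at h4
    simp only [pow_zero, one_smul, h0] at h4
    rw [h1, h2]
    have h5 : ∑ k ∈ range N, (-c) ^ k • h k =
      (∑ k ∈ range N, (-c) ^ (k + 1) • h (k + 1)) + y - (-c) ^ N • h N := by
      rw [h4]; abel
    rw [h5]; abel
  -- the polynomial identity
  have hF : PF (N + 2) (fun c : K => c • (c • A c) + s) := by
    refine PF.add ?_ (PF.const _ s)
    refine PF.smul (PF.smul (PF.sum (D := N) _ (f := fun k c => (-c) ^ k • w k) ?_))
    intro k hk'
    refine PF.congr (PF.monomial (K := K) (le_of_lt (Finset.mem_range.1 hk'))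
      ((-1 : K) ^ k • w k)) (fun c => ?_)
    rw [smul_smul]
    congr 1
    rw [← mul_pow]; ring
  have hS : PF (N * (N + 2) + N) (fun c : K =>
      ∑ j ∈ range N, c ^ (N - j) • ((c • (c • A c) + s) ^ j) (h N)) := by
    refine PF.sum _ (f := fun j (c : K) => c ^ (N - j) • ((c • (c • A c) + s) ^ j) (h N)) ?_
    intro j hj
    refine PF.mono ?_ (PF.pow_smul (PF.pow_app hF (h N) j) (N - j))
    have := Finset.mem_range.1 hj
    have h1 : j * (N + 2) ≤ N * (N + 2) := Nat.mul_le_mul_right _ (le_of_lt this)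
    omega
  have hG : PF (N * (N + 2) + N + 1) (fun c : K => x + (c • y + ((-1 : K) ^ (N + 1)) • (c •
      ∑ j ∈ range N, c ^ (N - j) • ((c • (c • A c) + s) ^ j) (h N)))) := by
    refine PF.add (PF.const _ x) (PF.add ?_ ?_)
    · refine PF.congr (PF.monomial (K := K) (i := 1) (by omega) y) (fun c => by rw [pow_one])
    · have h1 := PF.map (LinearMap.lsmul K V ((-1 : K) ^ (N + 1))) (PF.smul hS)
      exact PF.congr h1 (fun c => rfl)
  have hzero := PF.zero hG ?_ ?_
  · simp only [zero_smul, smul_zero, add_zero] at hzero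
    exact hx hzero
  · refine le_trans ?_ hK
    have : N * (N + 2) + N + 1 + 2 ≤ (N + 2) ^ 2 := by nlinarith
    exact_mod_cast this
  · intro c hc
    set B : End K V := c • A c + c⁻¹ • s with hB
    have hBW : B ∈ W := W.add_mem (W.smul_mem _ (hAmem c)) (W.smul_mem _ hs)
    have h1 := R_mul (hW _ hBW) (x + c • y)
    have h2 : (x + c • y) - B (x + c • y) = (c * (-c) ^ N) • h N := by
      rw [hB, LinearMap.add_apply, LinearMap.smul_apply, map_add, map_smul, hAv,
        LinearMap.smul_apply, map_add, map_smul, hsx, hsy, zero_add, smul_smul,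
        inv_mul_cancel₀ hc, one_smul, smul_sub, smul_smul]
      abel
    rw [h2, map_smul, R, LinearMap.sum_apply] at h1
    have h3 : (c * (-c) ^ N) • ∑ j ∈ range N, (B ^ j) (h N) =
        ((-1 : K) ^ N) • (c • ∑ j ∈ range N, c ^ (N - j) • ((c • (c • A c) + s) ^ j) (h N)) := by
      rw [Finset.smul_sum, Finset.smul_sum, Finset.smul_sum]
      refine Finset.sum_congr rfl (fun j hj => ?_)
      have hj' := Finset.mem_range.1 hj
      have e1 : c • (c • A c) + s = c • B := by
        rw [hB, smul_add, smul_smul c c⁻¹, mul_inv_cancel₀ hc, one_smul]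
      rw [e1, smul_pow, LinearMap.smul_apply, smul_smul, smul_smul, smul_smul]
      congr 1
      have e2 : c ^ N = c ^ (N - j) * c ^ j := by
        rw [← pow_add]; congr 1; omega
      calc c * (-c) ^ N = (-1) ^ N * (c * c ^ N) := by rw [neg_pow]; ring
        _ = (-1) ^ N * (c * (c ^ (N - j) * c ^ j)) := by rw [e2]
        _ = (-1) ^ N * (c * c ^ (N - j)) * c ^ j := by ring
        _ = _ := by ring
    rw [h3] at h1
    have e3 : ((-1 : K) ^ (N + 1)) • (c • ∑ j ∈ range N, c ^ (N - j) •
        ((c • (c • A c) + s) ^ j) (h N)) = -(x + c • y) := by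
      rw [← h1, pow_succ, mul_neg_one, neg_smul]
    rw [e3]
    abel

end Pool.Agent.R663.NilRank
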