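import Mathlib
import Pool.Agent.R663.NilRankB

/-! Affine spaces of nilpotent endomorphisms with ranks in an interval: the dimension bound. -/

namespace Pool.Agent.R663.NilRank

open Module Finset

universe u v w

section General

variable {K : Type u} [Field K] {V : Type v} [AddCommGroup V] [Module K V]

/-- rank of an endomorphism -/
noncomputable def rk {V : Type v} [AddCommGroup V] [Module K V] (f : End K V) : ℕ :=
  finrank K (LinearMap.range f)

theorem finrank_map_ker {W : Type w} [AddCommGroup W] [Module K W] [FiniteDimensional K V]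
    (f : V →ₗ[K] W) (Z : Submodule K V) :
    finrank K (Z.map f) + finrank K (Z ⊓ LinearMap.ker f : Submodule K V) = finrank K Z := by
  have h := LinearMap.finrank_range_add_finrank_ker (f.domRestrict Z)
  rw [LinearMap.range_domRestrict, LinearMap.ker_domRestrict] at h
  rw [← h]
  congr 1
  have h2 : (Submodule.comap Z.subtype (LinearMap.ker f)).map Z.subtype
      = Z ⊓ LinearMap.ker f := Submodule.map_comap_subtype _ _
  rw [← h2]
  exact Submodule.finrank_map_subtype_eq _ _

variable [FiniteDimensional K V]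

theorem nil_pow {f : End K V} (hf : IsNilpotent f) : f ^ (finrank K V) = 0 := by
  have h := (LinearMap.isNilpotent_iff_charpoly f).1 hf
  have h2 := f.aeval_self_charpoly
  rw [h] at h2
  simpa using h2

theorem exists_ker {f : End K V} (hf : IsNilpotent f) (hV : 0 < finrank K V) :
    ∃ x : V, x ≠ 0 ∧ f x = 0 := by
  classical
  have : Nontrivial V := Module.finrank_pos_iff.1 hV
  obtain ⟨v, hv⟩ := exists_ne (0 : V)
  have hex : ∃ j, (f ^ j) v = 0 := ⟨_, by rw [nil_pow hf]; rfl⟩
  have hpos : Nat.find hex ≠ 0 := by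
    intro h0
    have := Nat.find_spec hex
    rw [h0] at this
    exact hv (by simpa using this)
  obtain ⟨k, hk⟩ := Nat.exists_eq_succ_of_ne_zero hpos
  refine ⟨(f ^ k) v, Nat.find_min hex (by omega), ?_⟩
  have := Nat.find_spec hex
  rw [hk, pow_succ', Module.End.mul_apply] at this
  exact this

theorem rk_le_of_nil {f : End K V} (hf : IsNilpotent f) : rk f ≤ finrank K V - 1 := by
  rcases Nat.eq_zero_or_pos (finrank K V) with h | h
  · have : rk f ≤ finrank K V := Submodule.finrank_le _
    omega
  · obtain ⟨x, hx, hfx⟩ := exists_ker hf h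
    have h1 := LinearMap.finrank_range_add_finrank_ker f
    have h2 : 0 < finrank K (LinearMap.ker f) := by
      have : Nontrivial (LinearMap.ker f) :=
        ⟨⟨⟨x, hfx⟩, 0, fun h => hx (by simpa using congrArg Subtype.val h)⟩⟩
      exact Module.finrank_pos
    have h3 : rk f = finrank K (LinearMap.range f) := rfl
    omega

theorem W_nil {N : ℕ} (hN : finrank K V = N) {a : End K V} {Z : Submodule K (End K V)}
    (hnil : ∀ z ∈ Z, IsNilpotent (a + z))
    (hK : ((N + 2 : ℕ) : Cardinal.{u}) ≤ Cardinal.mk K) :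
    ∀ w ∈ Z ⊔ Submodule.span K {a}, w ^ N = 0 := by
  have h1 : ∀ z ∈ Z, ∀ c : K, c ≠ 0 → (c • a + z) ^ N = 0 := by
    intro z hz c hc
    have h2 : c • a + z = c • (a + c⁻¹ • z) := by
      rw [smul_add, smul_smul, mul_inv_cancel₀ hc, one_smul]
    have h3 := nil_pow (hnil _ (Z.smul_mem c⁻¹ hz))
    rw [hN] at h3
    rw [h2, smul_pow, h3, smul_zero]
  intro w hw
  obtain ⟨z, hz, y, hy, rfl⟩ := Submodule.mem_sup.1 hw
  obtain ⟨c, rfl⟩ := Submodule.mem_span_singleton.1 hy
  by_cases hc : c = 0
  · subst hc
    rw [zero_smul, add_zero]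
    ext v
    have hPF : PF (N * 1) (fun c : K => ((c • a + z) ^ N) v) := by
      refine PF.pow_app (PF.add ?_ (PF.const _ z)) v N
      simpa using PF.monomial (K := K) (le_refl 1) a
    have := PF.zero hPF (by simpa using hK) (fun c hc => by rw [h1 z hz c hc]; rfl)
    simpa using this
  · rw [add_comm]; exact h1 z hz c hc

/-- Rank lower bound from independent vectors of the range. -/
theorem card_le_rk {ι : Type*} [Fintype ι] {f : End K V} {b : ι → V} (hb : LinearIndependent K b)
    (h : ∀ i, b i ∈ LinearMap.range f) : Fintype.card ι ≤ rk f := by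
  rw [← finrank_span_eq_card hb]
  refine Submodule.finrank_mono (Submodule.span_le.2 ?_)
  rintro _ ⟨i, rfl⟩
  exact h i

/-- Vectors whose images form a basis of the range. -/
theorem exists_lift (s : End K V) {r : ℕ} (hs : rk s = r) : ∃ c : Fin r → V,
    LinearIndependent K (fun i => s (c i)) ∧
      Submodule.span K (Set.range fun i => s (c i)) = LinearMap.range s := by
  let b : Basis (Fin r) K (LinearMap.range s) := Module.finBasisOfFinrankEq K _ hs
  choose c hc using fun i => (b i).2
  have he : (fun i => s (c i)) = (LinearMap.range s).subtype ∘ b := by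
    funext i; exact hc i
  have h1 : LinearIndependent K ((LinearMap.range s).subtype ∘ b) :=
    b.linearIndependent.map' _ (Submodule.ker_subtype _)
  have h2 : Submodule.span K (Set.range ((LinearMap.range s).subtype ∘ b))
      = LinearMap.range s := by
    rw [Set.range_comp, Submodule.span_image, b.span_eq, Submodule.map_top,
      Submodule.range_subtype]
  exact ⟨c, he ▸ h1, he ▸ h2⟩

variable {s : End K V} {Z : Submodule K (End K V)} {x : V} {r N : ℕ}

/-- `(i)`: at an element of maximal rank `Z x` lies in the range. -/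
theorem I1 (hN : finrank K V = N) (hsx : s x = 0) (hup : ∀ z ∈ Z, rk (s + z) ≤ r) (hs : rk s = r)
    (hK : (((N + 2) ^ 2 : ℕ) : Cardinal.{u}) ≤ Cardinal.mk K) {z : End K V} (hz : z ∈ Z) :
    z x ∈ LinearMap.range s := by
  by_contra hno
  obtain ⟨c, hc, hspan⟩ := exists_lift s hs
  have hrN : r ≤ N := by rw [← hs, ← hN]; exact Submodule.finrank_le _
  have hind : LinearIndependent K (fun o : Option (Fin r) =>
      (Option.casesOn' o (z x) (fun i => s (c i)) : V)) :=
    LinearIndependent.option hc (by rw [hspan]; exact hno)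
  obtain ⟨t, ht, hli⟩ := indep_line _ (fun o : Option (Fin r) =>
    (Option.casesOn' o 0 (fun i => z (c i)) : V)) hind (by
      refine le_trans ?_ hK
      have : Fintype.card (Option (Fin r)) + 2 ≤ (N + 2) ^ 2 := by
        rw [Fintype.card_option, Fintype.card_fin]; nlinarith
      exact_mod_cast this)
  have h1 := card_le_rk (f := s + t • z) hli (by
    rintro (_ | i)
    · refine ⟨t⁻¹ • x, ?_⟩
      simp [hsx, smul_smul, inv_mul_cancel₀ ht]
    · exact ⟨c i, by simp⟩)
  rw [Fintype.card_option, Fintype.card_fin] at h1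
  have := hup _ (Z.smul_mem t hz)
  omega

/-- `(ii)`: `Φ` kills `s⁻¹ (Z x)`. -/
theorem I2 (hN : finrank K V = N) (hsx : s x = 0) (hup : ∀ z ∈ Z, rk (s + z) ≤ r) (hs : rk s = r)
    (hxs : x ∉ LinearMap.range s)
    (hK : (((N + 2) ^ 2 : ℕ) : Cardinal.{u}) ≤ Cardinal.mk K) {z : End K V} (hz : z ∈ Z)
    {φ : Dual K V} (hφ : T x φ ∈ Z) (hφx : φ x = 0) {v : V} (hv : s v = z x) : φ v = 0 := by
  by_contra hne
  obtain ⟨c, hc, hspan⟩ := exists_lift s hs
  have hrN : r ≤ N := by rw [← hs, ← hN]; exact Submodule.finrank_le _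
  have hind0 : LinearIndependent K (fun o : Option (Fin r) =>
      (Option.casesOn' o x (fun i => s (c i)) : V)) :=
    LinearIndependent.option hc (by rw [hspan]; exact hxs)
  have hind : LinearIndependent K (fun o : Option (Fin r) =>
      (Option.casesOn' o (-(φ v) • x) (fun i => s (c i) + φ (c i) • x) : V)) := by
    rw [Fintype.linearIndependent_iff] at hind0 ⊢
    intro g hg
    have h1 := hind0 (fun o => Option.casesOn' o
      (- g none * φ v + ∑ i, g (some i) * φ (c i)) (fun i => g (some i))) (by
        rw [Fintype.sum_option] at hg ⊢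
        simp only [Option.casesOn'_none, Option.casesOn'_some] at hg ⊢
        rw [← hg]
        simp only [smul_add, Finset.sum_add_distrib, add_smul, Finset.sum_smul, smul_smul]
        rw [show -g none * φ v = g none * -φ v by ring]
        abel)
    have h2 : ∀ i, g (some i) = 0 := fun i => h1 (some i)
    have h3 := h1 none
    simp only [Option.casesOn'_none, h2, zero_mul, Finset.sum_const_zero, add_zero] at h3
    have h4 : g none = 0 := by
      rcases mul_eq_zero.1 h3 with h | h
      · exact neg_eq_zero.1 h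
      · exact absurd h hne
    rintro (_ | i)
    · exact h4
    · exact h2 i
  obtain ⟨t, ht, hli⟩ := indep_line _ (fun o : Option (Fin r) =>
    (Option.casesOn' o (- z v) (fun i => z (c i)) : V)) hind (by
      refine le_trans ?_ hK
      have : Fintype.card (Option (Fin r)) + 2 ≤ (N + 2) ^ 2 := by
        rw [Fintype.card_option, Fintype.card_fin]; nlinarith
      exact_mod_cast this)
  have h1 := card_le_rk (f := s + (t • z + T x φ)) hli (by
    rintro (_ | i)
    · refine ⟨t⁻¹ • x - v, ?_⟩
      simp only [LinearMap.add_apply, map_sub, map_smul, hsx, hv,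
        LinearMap.smul_apply, T_apply, hφx,
        Option.casesOn'_none, smul_neg, zero_smul, zero_add, add_zero]
      rw [smul_smul, inv_mul_cancel₀ ht, one_smul]
      simp only [neg_smul]
      abel
    · exact ⟨c i, by simp; abel⟩)
  rw [Fintype.card_option, Fintype.card_fin] at h1
  have := hup _ (Z.add_mem (Z.smul_mem t hz) hφ)
  omega

/-- evaluation at `x` -/
def ev (x : V) : End K V →ₗ[K] V := LinearMap.applyₗ x

omit [FiniteDimensional K V] in
@[simp] theorem ev_apply (x : V) (f : End K V) : ev x f = f x := rfl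

/-- The forms `φ` with `x ⊗ φ ∈ Z`. -/
def Phi (Z : Submodule K (End K V)) (x : V) : Submodule K (Dual K V) := Z.comap (T x)

theorem I3 (hN : finrank K V = N) (hsx : s x = 0) (hup : ∀ z ∈ Z, rk (s + z) ≤ r) (hs : rk s = r)
    (hxs : x ∉ LinearMap.range s) (hΦx : ∀ φ ∈ Phi Z x, φ x = 0)
    (hK : (((N + 2) ^ 2 : ℕ) : Cardinal.{u}) ≤ Cardinal.mk K) :
    finrank K (Z.map (ev x)) + finrank K (Phi Z x) ≤ r ∧
    (finrank K (Z.map (ev x)) + finrank K (Phi Z x) = r →
      Phi Z x = ((Z.map (ev x)).comap s).dualAnnihilator) := by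
  set P := (Z.map (ev x)).comap s with hP
  have hle : Z.map (ev x) ≤ LinearMap.range s := by
    rintro _ ⟨z, hz, rfl⟩
    exact I1 hN hsx hup hs hK hz
  have hPdim : finrank K P = finrank K (Z.map (ev x)) + (N - r) := by
    have h1 := finrank_map_ker s P
    have h2 : P.map s = Z.map (ev x) := by
      rw [hP, Submodule.map_comap_eq, inf_eq_right.2 hle]
    have h3 : P ⊓ LinearMap.ker s = LinearMap.ker s := by
      rw [inf_eq_right]
      intro v hv
      rw [hP, Submodule.mem_comap, LinearMap.mem_ker.1 hv]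
      exact Submodule.zero_mem _
    rw [h2, h3] at h1
    have h4 := LinearMap.finrank_range_add_finrank_ker s
    have h5 : rk s = finrank K (LinearMap.range s) := rfl
    omega
  have hΦP : Phi Z x ≤ P.dualAnnihilator := by
    intro φ hφ
    rw [Submodule.mem_dualAnnihilator]
    intro v hv
    rw [hP, Submodule.mem_comap] at hv
    obtain ⟨z, hz, hzv⟩ := hv
    exact I2 hN hsx hup hs hxs hK hz hφ (hΦx φ hφ) hzv.symm
  have h6 := Subspace.finrank_add_finrank_dualAnnihilator_eq P
  have h7 := Submodule.finrank_mono hΦP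
  have hrN : r ≤ N := by rw [← hs, ← hN]; exact Submodule.finrank_le _
  refine ⟨by omega, fun h => ?_⟩
  exact Submodule.eq_of_le_of_finrank_le hΦP (by omega)

/-- Minimal rank forces a preimage of `x` annihilated by `Φ`. -/
theorem low {s : End K V} {Z : Submodule K (End K V)} {x : V} {ρ : ℕ}
    (hlow : ∀ z ∈ Z, ρ ≤ rk (s + z)) (hs : rk s ≤ ρ) (hxs : x ∈ LinearMap.range s) (hx : x ≠ 0) :
    ∃ y, s y = x ∧ ∀ φ ∈ Phi Z x, φ y = 0 := by
  obtain ⟨v0, hv0⟩ := hxs
  by_contra hno
  push Not at hno
  set Q := LinearMap.ker s ⊔ (Phi Z x).dualCoannihilator with hQ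
  have hv0Q : v0 ∉ Q := by
    intro hmem
    obtain ⟨k, hk, y, hy, hky⟩ := Submodule.mem_sup.1 hmem
    have h1 : s y = x := by
      rw [← hv0, ← hky, map_add, LinearMap.mem_ker.1 hk, zero_add]
    obtain ⟨φ, hφ, hne⟩ := hno y h1
    exact hne ((Submodule.mem_dualCoannihilator _).1 hy φ hφ)
  have h2 : ¬ ∀ ψ : Dual K V, ψ ∈ Q.dualAnnihilator → ψ v0 = 0 := by
    rw [Subspace.forall_mem_dualAnnihilator_apply_eq_zero_iff]
    exact hv0Q
  push Not at h2
  obtain ⟨ψ, hψ, hne⟩ := h2
  have hψΦ : ψ ∈ Phi Z x := by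
    have h3 : ψ ∈ (Phi Z x).dualCoannihilator.dualAnnihilator := by
      rw [Submodule.mem_dualAnnihilator] at hψ ⊢
      exact fun w hw => hψ w (Submodule.mem_sup_right hw)
    rwa [Subspace.dualCoannihilator_dualAnnihilator_eq] at h3
  have hψk : ∀ k ∈ LinearMap.ker s, ψ k = 0 := fun k hk =>
    (Submodule.mem_dualAnnihilator _).1 hψ k (Submodule.mem_sup_left hk)
  set z : End K V := -(ψ v0)⁻¹ • T x ψ with hz
  have hzZ : z ∈ Z := Z.smul_mem _ hψΦ
  have hker : LinearMap.ker s < LinearMap.ker (s + z) := by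
    refine lt_of_le_of_ne ?_ ?_
    · intro k hk
      rw [LinearMap.mem_ker, LinearMap.add_apply, LinearMap.mem_ker.1 hk, hz]
      simp [hψk k hk]
    · intro heq
      have h4 : v0 ∈ LinearMap.ker (s + z) := by
        rw [LinearMap.mem_ker, LinearMap.add_apply, hv0, hz]
        simp [smul_smul, inv_mul_cancel₀ hne]
      rw [← heq, LinearMap.mem_ker, hv0] at h4
      exact hx h4
  have h5 := Submodule.finrank_lt_finrank_of_lt hker
  have h6 := LinearMap.finrank_range_add_finrank_ker s
  have h7 := LinearMap.finrank_range_add_finrank_ker (s + z)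
  have h8 := hlow z hzZ
  have h9 : rk s = finrank K (LinearMap.range s) := rfl
  have h10 : rk (s + z) = finrank K (LinearMap.range (s + z)) := rfl
  omega

end General

end Pool.Agent.R663.NilRank
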