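import Mathlib
import Pool.Agent.R663.NilRankC

/-! The dimension bound for affine spaces of nilpotent endomorphisms with ranks in `[ρ, r]`. -/

namespace Pool.Agent.R663.NilRank

open Module Finset

universe u v w

variable {K : Type u} [Field K] {V : Type v} [AddCommGroup V] [Module K V]

/-- the extremal dimension of linear spaces of nilpotents of rank at most `r` -/
def B (n r : ℕ) : ℕ := ∑ i ∈ range r, (n - 1 - i)

theorem B_succ_succ (n r : ℕ) : B (n + 1) (r + 1) = n + B n r := by
  rw [B, Finset.sum_range_succ', B, add_comm]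
  congr 1
  refine Finset.sum_congr rfl (fun i _ => ?_)
  omega

theorem B_succ (n r : ℕ) (h : r ≤ n) : B (n + 1) r = B n r + r := by
  rw [B, B]
  have : ∀ i ∈ range r, n + 1 - 1 - i = (n - 1 - i) + 1 := by
    intro i hi
    have := Finset.mem_range.1 hi
    omega
  rw [Finset.sum_congr rfl this, Finset.sum_add_distrib]
  simp

/-- compression of endomorphisms along a section of a quotient map -/
def bar {V' : Type v} [AddCommGroup V'] [Module K V'] (q : V →ₗ[K] V') (σ : V' →ₗ[K] V) :
    End K V →ₗ[K] End K V' where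
  toFun f := q ∘ₗ f ∘ₗ σ
  map_add' f g := by ext v; simp
  map_smul' c f := by ext v; simp

section Bar

variable {V' : Type v} [AddCommGroup V'] [Module K V'] {q : V →ₗ[K] V'} {σ : V' →ₗ[K] V}
  {x : V}

theorem bar_q (hσ : q ∘ₗ σ = LinearMap.id) (hq : LinearMap.ker q = Submodule.span K {x})
    {f : End K V} (hf : f x = 0) (v : V) : bar q σ f (q v) = q (f v) := by
  have h1 : σ (q v) - v ∈ LinearMap.ker q := by
    rw [LinearMap.mem_ker, map_sub]
    have := LinearMap.congr_fun hσ (q v)
    simp only [LinearMap.comp_apply, LinearMap.id_apply] at this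
    rw [this, sub_self]
  rw [hq] at h1
  obtain ⟨c, hc⟩ := Submodule.mem_span_singleton.1 h1
  have h2 : f (σ (q v)) = f v := by
    have : σ (q v) = c • x + v := by rw [hc]; abel
    rw [this, map_add, map_smul, hf, smul_zero, zero_add]
  change q (f (σ (q v))) = q (f v)
  rw [h2]

theorem bar_pow_q (hσ : q ∘ₗ σ = LinearMap.id) (hq : LinearMap.ker q = Submodule.span K {x})
    {f : End K V} (hf : f x = 0) (k : ℕ) (v : V) :
    (bar q σ f ^ k) (q v) = q ((f ^ k) v) := by
  induction k generalizing v with
  | zero => simp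
  | succ k ih =>
    rw [pow_succ, Module.End.mul_apply, bar_q hσ hq hf, ih, pow_succ, Module.End.mul_apply]

theorem bar_nil (hσ : q ∘ₗ σ = LinearMap.id) (hq : LinearMap.ker q = Submodule.span K {x})
    {f : End K V} (hf : f x = 0) (hn : IsNilpotent f) : IsNilpotent (bar q σ f) := by
  obtain ⟨k, hk⟩ := hn
  refine ⟨k, ?_⟩
  ext v
  have h1 : q (σ v) = v := LinearMap.congr_fun hσ v
  rw [← h1, bar_pow_q hσ hq hf, hk]
  simp

variable [FiniteDimensional K V]

theorem rk_bar (hσ : q ∘ₗ σ = LinearMap.id) (hq : LinearMap.ker q = Submodule.span K {x})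
    {f : End K V} (hf : f x = 0) :
    rk (bar q σ f) + finrank K (LinearMap.range f ⊓ Submodule.span K {x} : Submodule K V)
      = rk f := by
  have h1 := finrank_map_ker q (LinearMap.range f)
  rw [hq] at h1
  have h2 : (LinearMap.range f).map q = LinearMap.range (bar q σ f) := by
    ext v
    constructor
    · rintro ⟨_, ⟨w, rfl⟩, rfl⟩
      exact ⟨q w, bar_q hσ hq hf w⟩
    · rintro ⟨w, rfl⟩
      have h3 : q (σ w) = w := LinearMap.congr_fun hσ w
      refine ⟨f (σ w), ⟨σ w, rfl⟩, rfl⟩
  rw [h2] at h1
  exact h1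

theorem rk_bar_mem (hσ : q ∘ₗ σ = LinearMap.id) (hq : LinearMap.ker q = Submodule.span K {x})
    (hx : x ≠ 0) {f : End K V} (hf : f x = 0) (hxf : x ∈ LinearMap.range f) :
    rk (bar q σ f) + 1 = rk f := by
  have h := rk_bar hσ hq hf
  rw [inf_eq_right.2 ((Submodule.span_singleton_le_iff_mem x _).2 hxf), finrank_span_singleton hx]
    at h
  exact h

theorem rk_bar_notMem (hσ : q ∘ₗ σ = LinearMap.id) (hq : LinearMap.ker q = Submodule.span K {x})
    {f : End K V} (hf : f x = 0) (hxf : x ∉ LinearMap.range f) :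
    rk (bar q σ f) = rk f := by
  have h := rk_bar hσ hq hf
  have h2 : (LinearMap.range f ⊓ Submodule.span K {x} : Submodule K V) = ⊥ := by
    rw [eq_bot_iff]
    rintro v ⟨hv1, hv2⟩
    obtain ⟨c, rfl⟩ := Submodule.mem_span_singleton.1 hv2
    by_cases hc : c = 0
    · simp [hc]
    · exfalso
      apply hxf
      have := (LinearMap.range f).smul_mem c⁻¹ hv1
      rwa [smul_smul, inv_mul_cancel₀ hc, one_smul] at this
  rw [h2, finrank_bot, add_zero] at h
  exact h

theorem dim_split (hσ : q ∘ₗ σ = LinearMap.id) (hq : LinearMap.ker q = Submodule.span K {x})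
    (hx : x ≠ 0) (Z : Submodule K (End K V)) :
    finrank K Z ≤ finrank K (Z.map (ev x)) + finrank K (Phi Z x) +
      finrank K ((Z ⊓ LinearMap.ker (ev x)).map (bar q σ)) := by
  have h1 := finrank_map_ker (ev (K := K) x) Z
  have h2 := finrank_map_ker (bar q σ) (Z ⊓ LinearMap.ker (ev x))
  have h3 : (Z ⊓ LinearMap.ker (ev x)) ⊓ LinearMap.ker (bar q σ) ≤ (Phi Z x).map (T x) := by
    rintro z ⟨⟨hz, hzx⟩, hzb⟩
    have hzx' : z x = 0 := hzx
    obtain ⟨ξ, hξ⟩ := Module.Projective.exists_dual_ne_zero K hx
    have h4 : ∀ v, ∃ c : K, c • x = z v := by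
      intro v
      have h5 : q (z v) = 0 := by
        rw [← bar_q hσ hq hzx' v, LinearMap.mem_ker.1 hzb]; rfl
      have h6 : z v ∈ LinearMap.ker q := h5
      rw [hq] at h6
      exact Submodule.mem_span_singleton.1 h6
    have h7 : T x ((ξ x)⁻¹ • (ξ ∘ₗ z)) = z := by
      ext v
      obtain ⟨c, hc⟩ := h4 v
      simp only [T_apply, LinearMap.smul_apply, LinearMap.comp_apply, ← hc, map_smul, smul_eq_mul]
      rw [smul_smul, show (ξ x)⁻¹ * (c * ξ x) = c by field_simp]
    refine ⟨(ξ x)⁻¹ • (ξ ∘ₗ z), ?_, h7⟩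
    change T x ((ξ x)⁻¹ • (ξ ∘ₗ z)) ∈ Z
    rw [h7]; exact hz
  have h4 := Submodule.finrank_mono h3
  have h5 : finrank K ((Phi Z x).map (T x)) ≤ finrank K (Phi Z x) := Submodule.finrank_map_le _ _
  omega

end Bar

theorem main (n : ℕ) : ∀ (V : Type v) [AddCommGroup V] [Module K V] [FiniteDimensional K V],
    finrank K V = n → (((n + 2) ^ 2 : ℕ) : Cardinal.{u}) ≤ Cardinal.mk K →
    ∀ (a : End K V) (Z : Submodule K (End K V)) (ρ r : ℕ), r ≤ n - 1 →
      (∀ z ∈ Z, IsNilpotent (a + z)) → (∀ z ∈ Z, ρ ≤ rk (a + z) ∧ rk (a + z) ≤ r) →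
      finrank K Z + ρ ≤ B n r := by
  induction n with
  | zero =>
    intro V _ _ _ hV _ a Z ρ r _ _ hrk
    have h1 : rk a ≤ finrank K V := Submodule.finrank_le _
    have h2 := hrk 0 Z.zero_mem
    rw [add_zero] at h2
    have h3 : finrank K Z = 0 := by
      have : finrank K Z ≤ finrank K (End K V) := Submodule.finrank_le _
      rw [Module.finrank_linearMap, hV] at this
      omega
    omega
  | succ n ih =>
    intro V _ _ _ hV hK a Z ρ r hr hnil hrk
    have hK' : (((n + 2) ^ 2 : ℕ) : Cardinal.{u}) ≤ Cardinal.mk K := by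
      refine le_trans ?_ hK
      exact_mod_cast (by nlinarith : (n + 2) ^ 2 ≤ (n + 1 + 2) ^ 2)
    have hK1 : ((n + 1 + 2 : ℕ) : Cardinal.{u}) ≤ Cardinal.mk K := by
      refine le_trans ?_ hK
      exact_mod_cast (by nlinarith : n + 1 + 2 ≤ (n + 1 + 2) ^ 2)
    have hr' : r ≤ n := by omega
    have hanil : IsNilpotent a := by simpa using hnil 0 Z.zero_mem
    obtain ⟨x, hx, hax⟩ := exists_ker hanil (by omega)
    have hW := W_nil hV hnil hK1
    set W := Z ⊔ Submodule.span K {a} with hWdef
    have hZW : Z ≤ W := le_sup_left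
    have haW : a ∈ W := Submodule.mem_sup_right (Submodule.mem_span_singleton_self a)
    -- the quotient
    set q := (Submodule.span K {x}).mkQ with hqdef
    have hq : LinearMap.ker q = Submodule.span K {x} := Submodule.ker_mkQ _
    obtain ⟨σ, hσ⟩ := q.exists_rightInverse_of_surjective (Submodule.range_mkQ _)
    have hV' : finrank K (V ⧸ Submodule.span K {x}) = n := by
      have h1 := Submodule.finrank_quotient_add_finrank (Submodule.span K {x})
      rw [finrank_span_singleton hx, hV] at h1
      omega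
    have hdim := dim_split hσ hq hx Z
    set Z0 := Z ⊓ LinearMap.ker (ev x) with hZ0
    set d1 := finrank K (Z.map (ev x)) with hd1
    set d2 := finrank K (Phi Z x) with hd2
    have hZ0Z : ∀ z ∈ Z0, z ∈ Z := fun z hz => hz.1
    have hZ0x : ∀ z ∈ Z0, z x = 0 := fun z hz => hz.2
    have hZ0ax : ∀ z ∈ Z0, (a + z) x = 0 := fun z hz => by
      rw [LinearMap.add_apply, hax, hZ0x z hz, add_zero]
    have hZ0of : ∀ z ∈ Z, z x = 0 → z ∈ Z0 := fun z hz hzx => ⟨hz, hzx⟩
    have IH : ∀ ρ' r' : ℕ, r' ≤ n - 1 →
        (∀ z ∈ Z0, ρ' ≤ rk (bar q σ (a + z)) ∧ rk (bar q σ (a + z)) ≤ r') →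
        finrank K (Z0.map (bar q σ)) + ρ' ≤ B n r' := by
      intro ρ' r' hr'' h
      refine ih _ hV' hK' (bar q σ a) (Z0.map (bar q σ)) ρ' r' hr'' ?_ ?_
      · rintro _ ⟨z, hz, rfl⟩
        rw [← map_add]
        exact bar_nil hσ hq (hZ0ax z hz) (hnil z (hZ0Z z hz))
      · rintro _ ⟨z, hz, rfl⟩
        rw [← map_add]
        exact h z hz
    have hrkbar : ∀ z ∈ Z0, rk (bar q σ (a + z)) ≤ rk (a + z) ∧
        rk (a + z) ≤ rk (bar q σ (a + z)) + 1 := by
      intro z hz
      by_cases hxr : x ∈ LinearMap.range (a + z)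
      · have := rk_bar_mem hσ hq hx (hZ0ax z hz) hxr
        omega
      · have := rk_bar_notMem hσ hq (hZ0ax z hz) hxr
        omega
    -- `x` is not in `Z x`
    have hxZ : x ∉ Z.map (ev x) := by
      rintro ⟨z, hz, hzx⟩
      exact hx (no_fix (hW z (hZW hz)) hzx)
    have hΦx : ∀ φ ∈ Phi Z x, φ x = 0 := fun φ hφ =>
      phi_x (Nat.succ_pos n) hW (hZW hφ)
    have hΦZ : ∀ φ ∈ Phi Z x, ∀ z ∈ Z, φ (z x) = 0 := fun φ hφ z hz =>
      phi_zx (Nat.succ_pos n) hW hK1 (hZW hφ) (hZW hz)
    set D := Submodule.span K {x} ⊔ Z.map (ev x) with hD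
    have hDdim : finrank K D = 1 + d1 := by
      have h1 := Submodule.finrank_sup_add_finrank_inf_eq (Submodule.span K {x}) (Z.map (ev x))
      have h2 : Submodule.span K {x} ⊓ Z.map (ev x) = ⊥ := by
        rw [eq_bot_iff]
        rintro v ⟨hv1, hv2⟩
        obtain ⟨c, rfl⟩ := Submodule.mem_span_singleton.1 hv1
        by_cases hc : c = 0
        · simp [hc]
        · exfalso
          apply hxZ
          have := (Z.map (ev x)).smul_mem c⁻¹ hv2
          rwa [smul_smul, inv_mul_cancel₀ hc, one_smul] at this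
      rw [h2, finrank_bot, finrank_span_singleton hx] at h1
      omega
    have hΦD : Phi Z x ≤ D.dualAnnihilator := by
      intro φ hφ
      rw [Submodule.mem_dualAnnihilator]
      intro v hv
      obtain ⟨v1, hv1, v2, hv2, rfl⟩ := Submodule.mem_sup.1 hv
      obtain ⟨c, rfl⟩ := Submodule.mem_span_singleton.1 hv1
      obtain ⟨z, hz, rfl⟩ := hv2
      rw [map_add, map_smul, hΦx φ hφ, smul_zero, zero_add]
      exact hΦZ φ hφ z hz
    have hDann := Subspace.finrank_add_finrank_dualAnnihilator_eq D
    rw [hV, hDdim] at hDann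
    have hkn : d1 + d2 ≤ n := by
      have := Submodule.finrank_mono hΦD
      omega
    -- lower rank elements
    have hlow : ∀ z1 ∈ Z0, rk (bar q σ (a + z1)) < ρ →
        rk (bar q σ (a + z1)) + 1 = ρ ∧
        ∃ y, (a + z1) y = x ∧ ∀ φ ∈ Phi Z x, φ y = 0 := by
      intro z1 hz1 hlt
      have h1 := hrk z1 (hZ0Z z1 hz1)
      have h2 := hrkbar z1 hz1
      refine ⟨by omega, ?_⟩
      have hxr : x ∈ LinearMap.range (a + z1) := by
        by_contra hno
        have := rk_bar_notMem hσ hq (hZ0ax z1 hz1) hno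
        omega
      refine low (ρ := ρ) (fun z hz => ?_) (by omega) hxr hx
      rw [add_assoc]
      exact (hrk _ (Z.add_mem (hZ0Z z1 hz1) hz)).1
    by_cases hcase : ∃ z ∈ Z0, rk (a + z) = r ∧ x ∉ LinearMap.range (a + z)
    · -- Case I
      obtain ⟨z0, hz0, hrk0, hxr0⟩ := hcase
      set s := a + z0 with hs
      have hsx : s x = 0 := hZ0ax z0 hz0
      have hup : ∀ z ∈ Z, rk (s + z) ≤ r := fun z hz => by
        rw [hs, add_assoc]
        exact (hrk _ (Z.add_mem (hZ0Z z0 hz0) hz)).2
      have hI3 := I3 (N := n + 1) hV hsx hup hrk0 hxr0 hΦx hK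
      have hrn : r ≤ n - 1 := by
        have h1 := rk_bar_notMem hσ hq hsx hxr0
        have h2 := rk_le_of_nil (bar_nil hσ hq hsx (hnil z0 (hZ0Z z0 hz0)))
        rw [h1, hrk0, hV'] at h2
        exact h2
      rw [B_succ n r hr']
      by_cases hl : ∃ z1 ∈ Z0, rk (bar q σ (a + z1)) < ρ
      · obtain ⟨z1, hz1, hlt⟩ := hl
        obtain ⟨he, y, hy, hyΦ⟩ := hlow z1 hz1 hlt
        have hk : d1 + d2 ≠ r := by
          intro hkr
          have hΦ1 := hI3.2 hkr
          -- the pencil
          set z' := z1 - z0 with hz'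
          have hz'Z : z' ∈ Z := Z.sub_mem (hZ0Z z1 hz1) (hZ0Z z0 hz0)
          have hz'x : z' x = 0 := by
            rw [hz', LinearMap.sub_apply, hZ0x z1 hz1, hZ0x z0 hz0, sub_zero]
          obtain ⟨c, hc, hspan⟩ := exists_lift s hrk0
          have hind : LinearIndependent K (fun o : Option (Fin r) =>
              (Option.casesOn' o x (fun i => s (c i)) : V)) :=
            LinearIndependent.option hc (by rw [hspan]; exact hxr0)
          obtain ⟨t, ht, hli⟩ := indep_line _ (fun o : Option (Fin r) =>
            (Option.casesOn' o 0 (fun i => z' (c i)) : V)) hind (by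
              refine le_trans ?_ hK
              have : Fintype.card (Option (Fin r)) + 2 ≤ (n + 1 + 2) ^ 2 := by
                rw [Fintype.card_option, Fintype.card_fin]; nlinarith
              exact_mod_cast this)
          have htz : t • z' ∈ Z := Z.smul_mem t hz'Z
          have hrt1 : r ≤ rk (s + t • z') := by
            have h1 : LinearIndependent K (fun i : Fin r => s (c i) + t • z' (c i)) :=
              hli.comp (fun i => (some i : Option (Fin r))) (Option.some_injective _)
            have h2 := card_le_rk (f := s + t • z') h1 (fun i => ⟨c i, by simp⟩)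
            simpa using h2
          have hrt : rk (s + t • z') = r := le_antisymm (hup _ htz) hrt1
          have hxrt : x ∉ LinearMap.range (s + t • z') := by
            intro hmem
            have h2 := card_le_rk (f := s + t • z') hli (by
              rintro (_ | i)
              · simpa using hmem
              · exact ⟨c i, by simp⟩)
            rw [Fintype.card_option, Fintype.card_fin, hrt] at h2
            omega
          have hI3' := I3 (s := s + t • z') (N := n + 1) hV
            (by rw [LinearMap.add_apply, LinearMap.smul_apply, hsx, hz'x, smul_zero, add_zero])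
            (fun z hz => by rw [add_assoc]; exact hup _ (Z.add_mem htz hz)) hrt hxrt hΦx hK
          have hΦ2 := hI3'.2 hkr
          have hyP1 : y ∈ (Z.map (ev x)).comap s := by
            rw [← Subspace.forall_mem_dualAnnihilator_apply_eq_zero_iff, ← hΦ1]
            exact hyΦ
          have hyP2 : y ∈ (Z.map (ev x)).comap (s + t • z') := by
            rw [← Subspace.forall_mem_dualAnnihilator_apply_eq_zero_iff, ← hΦ2]
            exact hyΦ
          rw [Submodule.mem_comap] at hyP1 hyP2
          have h3 : t • z' y ∈ Z.map (ev x) := by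
            have h4 := Submodule.sub_mem _ hyP2 hyP1
            rwa [LinearMap.add_apply, add_sub_cancel_left, LinearMap.smul_apply] at h4
          have h5 : z' y ∈ Z.map (ev x) := by
            have h4 := Submodule.smul_mem _ t⁻¹ h3
            rwa [smul_smul, inv_mul_cancel₀ ht, one_smul] at h4
          have h6 : x ∈ Z.map (ev x) := by
            have h7 : (a + z1) y = s y + z' y := by
              rw [hs, hz']; simp
            have h8 : (a + z1) y ∈ Z.map (ev x) := by
              rw [h7]; exact Submodule.add_mem _ hyP1 h5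
            rwa [hy] at h8
          exact hxZ h6
        have h1 := IH (ρ - 1) r hrn (fun z hz => by
          have h2 := hrk z (hZ0Z z hz)
          have h3 := hrkbar z hz
          omega)
        have := hI3.1
        omega
      · push Not at hl
        have h1 := IH ρ r hrn (fun z hz => by
          have h2 := hrk z (hZ0Z z hz)
          have h3 := hrkbar z hz
          have h4 := hl z hz
          omega)
        have := hI3.1
        omega
    · -- Case II
      push Not at hcase
      have hbarr : ∀ z ∈ Z0, rk (bar q σ (a + z)) + 1 ≤ r := by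
        intro z hz
        have h1 := (hrk z (hZ0Z z hz)).2
        by_cases hxr : x ∈ LinearMap.range (a + z)
        · have := rk_bar_mem hσ hq hx (hZ0ax z hz) hxr
          omega
        · have := rk_bar_notMem hσ hq (hZ0ax z hz) hxr
          have h2 : rk (a + z) ≠ r := fun h => hxr (hcase z hz h)
          omega
      have hr1 : 1 ≤ r := by
        have := hbarr 0 (Submodule.zero_mem _)
        omega
      obtain ⟨r', rfl⟩ := Nat.exists_eq_add_of_le' hr1
      rw [B_succ_succ]
      by_cases hl : ∃ z1 ∈ Z0, rk (bar q σ (a + z1)) < ρ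
      · obtain ⟨z1, hz1, hlt⟩ := hl
        obtain ⟨he, y, hy, hyΦ⟩ := hlow z1 hz1 hlt
        have hk : d1 + d2 ≠ n := by
          intro hkn'
          have hΦeq : Phi Z x = D.dualAnnihilator :=
            Submodule.eq_of_le_of_finrank_le hΦD (by omega)
          have hDmem : ∀ v, (∀ φ ∈ Phi Z x, φ v = 0) → v ∈ D := by
            intro v hv
            rw [← Subspace.forall_mem_dualAnnihilator_apply_eq_zero_iff, ← hΦeq]
            exact hv
          have hDex : ∀ v ∈ D, ∃ c : K, ∃ z ∈ W, v = c • x + z x := by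
            intro v hv
            obtain ⟨v1, hv1, v2, hv2, rfl⟩ := Submodule.mem_sup.1 hv
            obtain ⟨c, rfl⟩ := Submodule.mem_span_singleton.1 hv1
            obtain ⟨z, hz, rfl⟩ := hv2
            exact ⟨c, z, hZW hz, rfl⟩
          have hs1W : a + z1 ∈ W := W.add_mem haW (hZW (hZ0Z z1 hz1))
          have hs1x : (a + z1) x = 0 := hZ0ax z1 hz1
          obtain ⟨c, z, hz, hyz⟩ := hDex y (hDmem y hyΦ)
          have hy' : (a + z1) (z x) = x := by
            rw [hyz, map_add, map_smul, hs1x, smul_zero, zero_add] at hy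
            exact hy
          exact key (Nat.succ_pos n) hW hx hs1W hs1x hy' ⟨z, hz, rfl⟩
            (fun v hv => hDex v (hDmem v (fun φ hφ => hv φ (hZW hφ)))) hK
        have h1 := IH (ρ - 1) r' (by omega) (fun z hz => by
          have h2 := hrk z (hZ0Z z hz)
          have h3 := hrkbar z hz
          have h4 := hbarr z hz
          omega)
        omega
      · push Not at hl
        have h1 := IH ρ r' (by omega) (fun z hz => by
          have h3 := hbarr z hz
          have h4 := hl z hz
          omega)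
        omega

end Pool.Agent.R663.NilRank
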