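import Pool.Agent.R663.Blk

/-!
A countable family of automorphisms supported in small intervals is contained in a group generated
by a small translation and one further automorphism.
-/

set_option autoImplicit false

namespace Pool.Agent.R663

open scoped commutatorElement

/-- doubling -/
noncomputable def dbl : G := OrderIso.mulLeft₀ (2 : ℝ) (by norm_num)

lemma dbl_apply (x : ℝ) : dbl x = 2 * x := rfl

lemma dbl_U : ⁅dbl, U⁆ = U := by
  have h : dbl * U = U * U * dbl := by
    ext x
    change 2 * (x + 1) = 2 * x + 1 + 1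
    ring
  rw [commutatorElement_def, h]; group

lemma blk_comm (w v : ℤ → G) : ⁅blk w, blk v⁆ = blk (fun n => ⁅w n, v n⁆) := by
  rw [← map_commutatorElement]; rfl

section
variable (κ : ℕ → ℤ → G)

/-- the family of stored automorphisms -/
noncomputable def al : ℕ → ℤ → G
  | 0, _ => U
  | i + 1, n => blk (fun m => if 0 ≤ m then κ i n else 1)

lemma al_comm (i : ℕ) (n : ℤ) : ⁅al κ (i + 1) n, al κ 0 n⁆ = imp (κ i n) := by
  change ⁅blk (fun m => if 0 ≤ m then κ i n else 1), U⁆ = _
  have h := U_blk_conj (fun m => if 0 ≤ m then κ i n else 1)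
  have e : ⁅blk (fun m => if 0 ≤ m then κ i n else 1), U⁆ =
      blk (fun m => if 0 ≤ m then κ i n else 1) * (U * blk (fun m => if 0 ≤ m then κ i n else 1) * U⁻¹)⁻¹ := by
    rw [commutatorElement_def]; group
  rw [e, h, ← map_inv, ← map_mul, imp]
  congr 1
  funext m
  simp only [Pi.mul_apply, Pi.inv_apply]
  by_cases h0 : m = 0
  · subst h0; simp
  · rw [if_neg h0]
    by_cases h1 : 0 ≤ m
    · rw [if_pos h1, if_pos (by omega), mul_inv_cancel]
    · rw [if_neg h1, if_neg (by omega), mul_inv_cancel]

/-- positions of the stored automorphisms -/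
noncomputable def sto (n : ℤ) : ℤ → G := Function.extend (fun i : ℕ => (2 : ℤ) ^ i) (fun i => al κ i n) 1

lemma pow_inj : Function.Injective (fun i : ℕ => (2 : ℤ) ^ i) :=
  fun i j h => Int.pow_right_injective (by norm_num) h

lemma sto_pow (n : ℤ) (i : ℕ) : sto κ n (2 ^ i) = al κ i n := pow_inj.extend_apply _ _ i

lemma sto_other (n m : ℤ) (h : ¬ ∃ i : ℕ, (2 : ℤ) ^ i = m) : sto κ n m = 1 :=
  Function.extend_apply' _ _ _ h

lemma pow_sidon {m : ℤ} {i j k : ℕ} (h1 : (2 : ℤ) ^ j = m + 2 ^ (i + 1)) (h2 : (2 : ℤ) ^ k = m + 1) :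
    m = 0 := by
  -- 2^j - 2^k = 2^(i+1) - 1 is odd
  have h3 : (2 : ℤ) ^ j - 2 ^ k = 2 ^ (i + 1) - 1 := by linarith
  have hodd : ¬ (2 : ℤ) ∣ (2 : ℤ) ^ (i + 1) - 1 := by
    intro h
    have h4 : (2 : ℤ) ∣ 2 ^ (i + 1) := dvd_pow_self _ (by omega)
    have h5 : (2 : ℤ) ∣ 1 := by
      have := (dvd_sub_right h4).1 h
      exact this
    norm_num at h5
  rcases Nat.eq_zero_or_pos k with hk | hk
  · subst hk; simp at h2; linarith
  · rcases Nat.eq_zero_or_pos j with hj | hj
    · subst hj
      have h4 : (2 : ℤ) ^ (i + 1) ≥ 2 ^ 1 := pow_le_pow_right₀ (by norm_num) (by omega)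
      have h5 : (2 : ℤ) ^ k > 0 := by positivity
      have h6 : (2 : ℤ) ^ 0 = 1 := pow_zero _
      linarith
    · exfalso
      apply hodd
      rw [← h3]
      exact dvd_sub (dvd_pow_self _ (by omega)) (dvd_pow_self _ (by omega))

lemma sto_comm (n m : ℤ) (i : ℕ) :
    ⁅sto κ n (m + ((2 ^ (i + 1) : ℕ) : ℤ)), sto κ n (m + ((1 : ℕ) : ℤ))⁆ =
      if m = 0 then imp (κ i n) else 1 := by
  push_cast
  split_ifs with h
  · subst h
    rw [zero_add, zero_add, sto_pow]
    have := sto_pow κ n 0
    rw [pow_zero] at this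
    rw [this, al_comm]
  · by_cases h1 : ∃ j : ℕ, (2 : ℤ) ^ j = m + 2 ^ (i + 1)
    · by_cases h2 : ∃ k : ℕ, (2 : ℤ) ^ k = m + 1
      · obtain ⟨j, hj⟩ := h1
        obtain ⟨k, hk⟩ := h2
        exact absurd (pow_sidon hj hk) h
      · rw [sto_other κ n _ h2, commutatorElement_one_right]
    · rw [sto_other κ n _ h1, commutatorElement_one_left]

/-- the components of the second generator -/
noncomputable def gw (n : ℤ) : G :=
  if n % 5 = 0 then dbl else if n % 5 = 1 then U else if n % 5 = 3 then blk (sto κ (n - 3)) else 1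

lemma gw_comm (n : ℤ) : ⁅gw κ n, gw κ (n + ((1 : ℕ) : ℤ))⁆ = if n % 5 = 0 then U else 1 := by
  have h5 : n % 5 = 0 ∨ n % 5 = 1 ∨ n % 5 = 2 ∨ n % 5 = 3 ∨ n % 5 = 4 := by omega
  unfold gw
  rcases h5 with h | h | h | h | h
  · rw [if_pos h, if_pos h, if_neg (by omega), if_pos (by omega), dbl_U]
  · rw [if_neg (by omega), if_pos h, if_neg (by omega), if_neg (by omega), if_neg (by omega),
      commutatorElement_one_right, if_neg (by omega)]
  · rw [if_neg (by omega), if_neg (by omega), if_neg (by omega), commutatorElement_one_left,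
      if_neg (by omega)]
  · rw [if_neg (by omega), if_neg (by omega), if_pos h, if_neg (by omega), if_neg (by omega),
      if_neg (by omega), commutatorElement_one_right, if_neg (by omega)]
  · rw [if_neg (by omega), if_neg (by omega), if_neg (by omega), commutatorElement_one_left,
      if_neg (by omega)]

lemma gw_three (n : ℤ) (hn : n % 5 = 0) : gw κ (n + ((3 : ℕ) : ℤ)) = blk (sto κ n) := by
  unfold gw
  rw [if_neg (by omega), if_neg (by omega), if_pos (by omega)]
  congr 2
  push_cast; ring

/-- the second generator -/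
noncomputable def gen : G := blk (gw κ)

/-- first extracted element -/
lemma tau_eq : ⁅gen κ, (U ^ 1)⁻¹ * gen κ * U ^ 1⁆ = blk (fun n => if n % 5 = 0 then U else 1) := by
  rw [gen, U_pow_blk_conj', blk_comm]
  congr 1
  funext n
  exact gw_comm κ n

lemma extract (i : ℕ) : ∀ H : Subgroup G, U ∈ H → gen κ ∈ H →
    blk (fun n => if n % 5 = 0 then imp (imp (κ i n)) else 1) ∈ H := by
  intro H hU hg
  set t : G := blk (fun n => if n % 5 = 0 then U else 1) with ht
  have htH : t ∈ H := by
    rw [ht, ← tau_eq κ, commutatorElement_def]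
    have h1 : (U ^ 1)⁻¹ * gen κ * U ^ 1 ∈ H :=
      H.mul_mem (H.mul_mem (H.inv_mem (H.pow_mem hU _)) hg) (H.pow_mem hU _)
    exact H.mul_mem (H.mul_mem (H.mul_mem hg h1) (H.inv_mem hg)) (H.inv_mem h1)
  set v : G := (U ^ 3)⁻¹ * gen κ * U ^ 3 with hv
  have hvH : v ∈ H := H.mul_mem (H.mul_mem (H.inv_mem (H.pow_mem hU _)) hg) (H.pow_mem hU _)
  have hv' : v = blk (fun n => gw κ (n + ((3 : ℕ) : ℤ))) := by rw [hv, gen, U_pow_blk_conj']
  have hconj : ∀ p : ℕ, (t ^ p)⁻¹ * v * t ^ p = blk (fun n => if n % 5 = 0 then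
      blk (fun m => sto κ n (m + p)) else gw κ (n + ((3 : ℕ) : ℤ))) := by
    intro p
    rw [hv', ht, ← map_pow, ← map_inv, ← map_mul, ← map_mul]
    congr 1
    funext n
    simp only [Pi.mul_apply, Pi.inv_apply, Pi.pow_apply]
    split_ifs with h
    · rw [gw_three κ n h, U_pow_blk_conj']
    · simp
  have hcH : ∀ p : ℕ, (t ^ p)⁻¹ * v * t ^ p ∈ H := fun p =>
    H.mul_mem (H.mul_mem (H.inv_mem (H.pow_mem htH _)) hvH) (H.pow_mem htH _)
  have hfin : ⁅(t ^ (2 ^ (i + 1)))⁻¹ * v * t ^ (2 ^ (i + 1)), (t ^ 1)⁻¹ * v * t ^ 1⁆ =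
      blk (fun n => if n % 5 = 0 then imp (imp (κ i n)) else 1) := by
    rw [hconj, hconj, blk_comm]
    congr 1
    funext n
    split_ifs with h
    · rw [blk_comm, imp]
      congr 1
      funext m
      exact sto_comm κ n m i
    · rw [commutatorElement_self]
  rw [← hfin, commutatorElement_def]
  exact H.mul_mem (H.mul_mem (H.mul_mem (hcH _) (hcH _)) (H.inv_mem (hcH _))) (H.inv_mem (hcH _))

end

/-- automorphisms supported in the middle thirds of the intervals `[5k, 5k+1]` -/
def C5 : Set G := {u | ∀ x : ℝ, (∀ k : ℤ, x ≤ 5 * k + 1 / 3 ∨ 5 * k + 2 / 3 ≤ x) → u x = x}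

lemma C5_form {u : G} (hu : u ∈ C5) :
    ∃ κ : ℤ → G, blk (fun n => if n % 5 = 0 then imp (imp (κ n)) else 1) = u := by
  have hn : ∀ n : ℤ, u n = n := by
    intro n
    apply hu
    intro k
    rcases le_or_gt n (5 * k) with h | h
    · left
      have : (n : ℝ) ≤ 5 * k := by exact_mod_cast h
      linarith
    · right
      have : (5 * k : ℝ) + 1 ≤ n := by exact_mod_cast h
      linarith
  obtain ⟨w, hw⟩ := exists_blk u hn
  have key : ∀ n : ℤ, ∃ v, (if n % 5 = 0 then imp (imp v) else 1) = w n := by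
    intro n
    have hwn : ∀ y : ℝ, u (n + th y) = n + th (w n y) := fun y => by rw [← hw, blk_chart]
    split_ifs with h
    · obtain ⟨v, hv⟩ := exists_imp2 (w n) (fun y hy => by
        have h1 : u (n + th y) = n + th y := by
          apply hu
          intro k
          obtain ⟨j, hj⟩ : ∃ j : ℤ, n = 5 * j := ⟨n / 5, by omega⟩
          have h0 := th_pos y
          have h1 := th_lt y
          rcases lt_trichotomy j k with hjk | hjk | hjk
          · left
            have : (j : ℝ) + 1 ≤ k := by exact_mod_cast hjk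
            rw [hj]; push_cast; linarith
          · subst hjk
            rw [hj]; push_cast
            rcases hy with hy | hy
            · left
              have := th_mono.monotone hy
              rw [th_quarter] at this
              linarith
            · right
              have := th_mono.monotone hy
              rw [th_three] at this
              linarith
          · right
            have : (k : ℝ) + 1 ≤ j := by exact_mod_cast hjk
            rw [hj]; push_cast; linarith
        rw [hwn] at h1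
        exact th_mono.injective (by linarith))
      exact ⟨v, hv⟩
    · refine ⟨1, ?_⟩
      ext y
      have h1 : u (n + th y) = n + th y := by
        apply hu
        intro k
        have h0 := th_pos y
        have h1 := th_lt y
        rcases lt_trichotomy n (5 * k) with hjk | hjk | hjk
        · left
          have : (n : ℝ) + 1 ≤ 5 * k := by exact_mod_cast hjk
          linarith
        · omega
        · right
          have : (5 * k : ℝ) + 1 ≤ n := by exact_mod_cast hjk
          linarith
      rw [hwn] at h1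
      have h2 : th (w n y) = th y := by linarith
      exact (th_mono.injective h2).symm
  choose κ hκ using key
  refine ⟨κ, ?_⟩
  rw [← hw]
  congr 1
  funext n
  exact hκ n

/-- the small translation -/
noncomputable def T : G := OrderIso.addRight (1 / 6)

lemma T_apply (x : ℝ) : T x = x + 1 / 6 := rfl

lemma T_zpow_apply (k : ℤ) (x : ℝ) : (T ^ k) x = x + k / 6 := by
  induction k using Int.induction_on generalizing x with
  | zero => simp
  | succ n ih =>
    rw [zpow_add_one]
    change (T ^ (n : ℤ)) (T x) = _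
    rw [ih, T_apply]; push_cast; ring
  | pred n ih =>
    have h : (T ^ (-(n : ℤ) - 1)) x = (T ^ (-(n : ℤ))) (T⁻¹ x) := by
      rw [zpow_sub_one]; rfl
    have h2 : T⁻¹ x = x - 1 / 6 := by
      have h3 : T (x - 1 / 6) = x := by rw [T_apply]; ring
      calc T⁻¹ x = T⁻¹ (T (x - 1 / 6)) := by rw [h3]
        _ = (T⁻¹ * T) (x - 1 / 6) := rfl
        _ = x - 1 / 6 := by rw [inv_mul_cancel]; rfl
    rw [h, ih, h2]; push_cast; ring

lemma T_six : T ^ (6 : ℤ) = U := by
  ext x
  rw [T_zpow_apply, U_apply]; norm_num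

/-- a sequence of automorphisms in `C5` lies in a group generated by `T` and one element -/
theorem seq_C5 (c : ℕ → G) (hc : ∀ i, c i ∈ C5) :
    ∃ g : G, ∀ i, c i ∈ Subgroup.closure ({T, g} : Set G) := by
  choose κ hκ using fun i => C5_form (hc i)
  refine ⟨gen κ, fun i => ?_⟩
  rw [← hκ i]
  have hT : T ∈ Subgroup.closure ({T, gen κ} : Set G) :=
    Subgroup.subset_closure (Set.mem_insert _ _)
  have hg : gen κ ∈ Subgroup.closure ({T, gen κ} : Set G) :=
    Subgroup.subset_closure (Set.mem_insert_of_mem _ (Set.mem_singleton _))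
  refine extract κ i _ ?_ hg
  rw [← T_six]
  exact Subgroup.zpow_mem _ hT _

end Pool.Agent.R663
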