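import Pool.Agent.R663.Frag

/-!
Every countable set of increasing bijections of the line lies in a two-generated group of
increasing bijections.
-/

set_option autoImplicit false

namespace Pool.Agent.R663

section
variable (s : ℕ → G)

/-- a fast growing sequence adapted to `s` -/
noncomputable def X : ℕ → ℝ
  | 0 => 0
  | n + 1 => X n + 1 + ∑ i ∈ Finset.range (n + 1),
      (|s i (X n)| + |(s i)⁻¹ (X n)| + |s i (-X n)| + |(s i)⁻¹ (-X n)|)

lemma X_step (n i : ℕ) (hi : i ≤ n) :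
    X s n + 1 + (|s i (X s n)| + |(s i)⁻¹ (X s n)| + |s i (-X s n)| + |(s i)⁻¹ (-X s n)|) ≤ X s (n + 1) := by
  rw [X]
  have h := Finset.single_le_sum (f := fun i =>
      (|s i (X s n)| + |(s i)⁻¹ (X s n)| + |s i (-X s n)| + |(s i)⁻¹ (-X s n)|))
    (fun i _ => by positivity) (Finset.mem_range.2 (Nat.lt_succ_of_le hi))
  linarith

lemma X_succ (n : ℕ) : X s n + 1 ≤ X s (n + 1) := by
  have h := X_step s n 0 (Nat.zero_le _)
  have h1 := abs_nonneg (s 0 (X s n))
  have h2 := abs_nonneg ((s 0)⁻¹ (X s n))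
  have h3 := abs_nonneg (s 0 (-X s n))
  have h4 := abs_nonneg ((s 0)⁻¹ (-X s n))
  linarith

lemma X_ge (n : ℕ) : (n : ℝ) ≤ X s n := by
  induction n with
  | zero => simp [X]
  | succ n ih => have := X_succ s n; push_cast; linarith

/-- the two-sided sequence -/
noncomputable def q (k : ℤ) : ℝ := if 0 ≤ k then X s k.natAbs else -X s k.natAbs

lemma q_nat (n : ℕ) : q s n = X s n := by simp [q]

lemma q_neg (n : ℕ) : q s (-(n : ℤ)) = -X s n := by
  rcases Nat.eq_zero_or_pos n with h | h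
  · subst h; simp [q, X]
  · rw [q, if_neg (by omega)]; simp

lemma q_mono : StrictMono (q s) := by
  apply strictMono_int_of_lt_succ
  intro k
  rcases le_or_gt 0 k with h | h
  · obtain ⟨n, rfl⟩ := Int.eq_ofNat_of_zero_le h
    have e : ((n : ℤ) + 1) = ((n + 1 : ℕ) : ℤ) := by push_cast; ring
    rw [e, q_nat, q_nat]
    have := X_succ s n; linarith
  · obtain ⟨n, hn⟩ := Int.eq_ofNat_of_zero_le (show 0 ≤ -(k + 1) by omega)
    have e1 : k + 1 = -(n : ℤ) := by omega
    have e2 : k = -((n + 1 : ℕ) : ℤ) := by push_cast; omega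
    rw [e1, e2, q_neg, q_neg]
    have := X_succ s n; linarith

lemma q_up (y : ℝ) : ∃ n, y < q s n := by
  refine ⟨((⌈|y|⌉₊ + 1 : ℕ) : ℤ), ?_⟩
  rw [q_nat]
  have h1 := X_ge s (⌈|y|⌉₊ + 1)
  have h2 := Nat.le_ceil |y|
  have h3 := le_abs_self y
  push_cast at h1
  linarith

lemma q_down (y : ℝ) : ∃ n, q s n ≤ y := by
  refine ⟨-((⌈|y|⌉₊ + 1 : ℕ) : ℤ), ?_⟩
  rw [q_neg]
  have h1 := X_ge s (⌈|y|⌉₊ + 1)
  have h2 := Nat.le_ceil |y|
  have h3 := neg_abs_le y
  push_cast at h1
  linarith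

/-- the taming automorphism -/
noncomputable def psi : G := pl (q s) (q_mono s) (q_up s) (q_down s)

lemma psi_int (n : ℤ) : psi s n = q s n := pl_int _ _ _ _ n

lemma inv_lt {u : G} {x y : ℝ} : u⁻¹ x < y ↔ x < u y := by
  have h : u (u⁻¹ x) = x := by change (u * u⁻¹) x = x; rw [mul_inv_cancel]; rfl
  rw [← u.lt_iff_lt, h]

lemma lt_inv {u : G} {x y : ℝ} : y < u⁻¹ x ↔ u y < x := by
  have h : u (u⁻¹ x) = x := by change (u * u⁻¹) x = x; rw [mul_inv_cancel]; rfl
  rw [← u.lt_iff_lt, h]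

lemma tame_int (i : ℕ) (k : ℤ) (hk : (i : ℤ) + 1 ≤ |k|) :
    (k : ℝ) - 1 < ((psi s)⁻¹ * s i * psi s) k ∧ ((psi s)⁻¹ * s i * psi s) k < k + 1 := by
  set u := s i with hu
  have e : ((psi s)⁻¹ * u * psi s) (k : ℝ) = (psi s)⁻¹ (u (q s k)) := by
    change (psi s)⁻¹ (u (psi s k)) = _
    rw [psi_int]
  rw [e]
  have c1 : (k : ℝ) - 1 = ((k - 1 : ℤ) : ℝ) := by push_cast; ring
  have c2 : (k : ℝ) + 1 = ((k + 1 : ℤ) : ℝ) := by push_cast; ring
  rw [c1, c2, lt_inv, inv_lt, psi_int, psi_int]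
  rcases le_or_gt 0 k with h | h
  · rw [abs_of_nonneg h] at hk
    obtain ⟨n, hn⟩ := Int.eq_ofNat_of_zero_le (show 0 ≤ k - 1 by omega)
    have e0 : k = ((n + 1 : ℕ) : ℤ) := by push_cast; omega
    have e2 : k + 1 = ((n + 2 : ℕ) : ℤ) := by push_cast; omega
    rw [hn]
    have e3 : (Int.ofNat n) = ((n : ℕ) : ℤ) := rfl
    rw [e2, q_nat, q_nat, e0, q_nat]
    have h1 := X_step s n i (by omega)
    have h2 := X_step s (n + 1) i (by omega)
    rw [← hu] at h1 h2
    have p0 := X_ge s n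
    have p1 := X_ge s (n + 1)
    have p2 : (0 : ℝ) ≤ n := by positivity
    have p3 : (0 : ℝ) ≤ ((n + 1 : ℕ) : ℝ) := by positivity
    constructor
    · rw [← inv_lt]
      have a1 := le_abs_self (u⁻¹ (X s n))
      have a2 := abs_nonneg (u (X s n))
      have a3 := abs_nonneg (u (-X s n))
      have a4 := abs_nonneg (u⁻¹ (-X s n))
      linarith
    · have a1 := le_abs_self (u (X s (n + 1)))
      have a2 := abs_nonneg (u⁻¹ (X s (n + 1)))
      have a3 := abs_nonneg (u (-X s (n + 1)))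
      have a4 := abs_nonneg (u⁻¹ (-X s (n + 1)))
      linarith
  · rw [abs_of_neg h] at hk
    obtain ⟨n, hn⟩ := Int.eq_ofNat_of_zero_le (show 0 ≤ -(k + 1) by omega)
    have e0 : k = -((n + 1 : ℕ) : ℤ) := by push_cast; omega
    have e1 : k + 1 = -((n : ℕ) : ℤ) := by omega
    have e2 : k - 1 = -((n + 2 : ℕ) : ℤ) := by push_cast; omega
    rw [e2, e1, q_neg, q_neg, e0, q_neg]
    have h1 := X_step s n i (by omega)
    have h2 := X_step s (n + 1) i (by omega)
    rw [← hu] at h1 h2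
    have p0 := X_ge s n
    have p1 := X_ge s (n + 1)
    have p2 : (0 : ℝ) ≤ n := by positivity
    have p3 : (0 : ℝ) ≤ ((n + 1 : ℕ) : ℝ) := by positivity
    constructor
    · have a1 := neg_abs_le (u (-X s (n + 1)))
      have a2 := abs_nonneg (u (X s (n + 1)))
      have a3 := abs_nonneg (u⁻¹ (X s (n + 1)))
      have a4 := abs_nonneg (u⁻¹ (-X s (n + 1)))
      linarith
    · rw [← lt_inv]
      have a1 := neg_abs_le (u⁻¹ (-X s n))
      have a2 := abs_nonneg (u (X s n))
      have a3 := abs_nonneg (u⁻¹ (X s n))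
      have a4 := abs_nonneg (u (-X s n))
      linarith

lemma tame (i : ℕ) (x : ℝ) : |((psi s)⁻¹ * s i * psi s) x - x| ≤ 2 * i + 5 := by
  set v := (psi s)⁻¹ * s i * psi s with hv
  have hi : (0 : ℝ) ≤ i := by positivity
  rcases le_or_gt ((i : ℝ) + 2) |x| with h | h
  · have h1 := Int.floor_le x
    have h2 := Int.lt_floor_add_one x
    have hn : (i : ℤ) + 1 ≤ |⌊x⌋| ∧ (i : ℤ) + 1 ≤ |⌊x⌋ + 1| := by
      rcases le_or_gt 0 x with hx | hx
      · rw [abs_of_nonneg hx] at h
        have : (i : ℤ) + 2 ≤ ⌊x⌋ := Int.le_floor.2 (by push_cast; exact h)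
        rw [abs_of_nonneg (by omega), abs_of_nonneg (by omega)]
        omega
      · rw [abs_of_neg hx] at h
        have : ⌊x⌋ ≤ -(i : ℤ) - 2 := by
          have h3 : (⌊x⌋ : ℝ) ≤ ((-(i : ℤ) - 2 : ℤ) : ℝ) := by push_cast; linarith
          exact_mod_cast h3
        rw [abs_of_neg (by omega), abs_of_neg (by omega)]
        omega
    have h3 := (tame_int s i ⌊x⌋ hn.1).1
    have h4 := (tame_int s i (⌊x⌋ + 1) hn.2).2
    rw [← hv] at h3 h4
    push_cast at h4
    have h5 := v.monotone h1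
    have h6 := v.strictMono h2
    rw [abs_le]
    constructor <;> linarith
  · have h' := abs_lt.1 h
    have e1 : (i : ℝ) + 2 = ((i + 2 : ℤ) : ℝ) := by push_cast; ring
    have h3 := (tame_int s i (i + 2) (by rw [abs_of_nonneg (by omega)]; omega)).2
    have h4 := (tame_int s i (-(i + 2)) (by rw [abs_neg, abs_of_nonneg (by omega)]; omega)).1
    rw [← hv] at h3 h4
    push_cast at h3 h4
    have h5 := v.strictMono h'.1
    have h6 := v.strictMono h'.2
    rw [abs_le]
    constructor <;> linarith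

end

lemma one_C5 : (1 : G) ∈ C5 := fun _ _ => rfl

lemma KK_countable {u : G} (hu : u ∈ KK) :
    ∃ A : Set G, A ⊆ C5 ∧ A.Countable ∧ u ∈ Subgroup.closure (insert T A) := by
  induction hu using Subgroup.closure_induction with
  | mem x hx =>
    rcases hx with rfl | hx
    · exact ⟨∅, Set.empty_subset _, Set.countable_empty,
        Subgroup.subset_closure (Set.mem_insert _ _)⟩
    · exact ⟨{x}, Set.singleton_subset_iff.2 hx, Set.countable_singleton _,
        Subgroup.subset_closure (Set.mem_insert_of_mem _ (Set.mem_singleton _))⟩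
  | one => exact ⟨∅, Set.empty_subset _, Set.countable_empty, Subgroup.one_mem _⟩
  | mul x y _ _ hx hy =>
    obtain ⟨A, hA, hA', hx⟩ := hx
    obtain ⟨B, hB, hB', hy⟩ := hy
    refine ⟨A ∪ B, Set.union_subset hA hB, hA'.union hB', Subgroup.mul_mem _ ?_ ?_⟩
    · exact Subgroup.closure_mono (Set.insert_subset_insert Set.subset_union_left) hx
    · exact Subgroup.closure_mono (Set.insert_subset_insert Set.subset_union_right) hy
  | inv x _ hx =>
    obtain ⟨A, hA, hA', hx⟩ := hx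
    exact ⟨A, hA, hA', Subgroup.inv_mem _ hx⟩

/-- forgetting the order -/
def toPerm : G →* Equiv.Perm ℝ where
  toFun u := u.toEquiv
  map_one' := rfl
  map_mul' _ _ := rfl

lemma toPerm_mono (u : G) : StrictMono (toPerm u) := u.strictMono

/-- **Every countable set of increasing bijections of the line lies in a subgroup generated by two
increasing bijections.** -/
theorem main (S : Set (Equiv.Perm ℝ)) (hS : S.Countable) (hm : ∀ σ ∈ S, StrictMono ⇑σ) :
    ∃ f g : Equiv.Perm ℝ, StrictMono ⇑f ∧ StrictMono ⇑g ∧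
      S ⊆ (Subgroup.closure ({f, g} : Set (Equiv.Perm ℝ)) : Set (Equiv.Perm ℝ)) := by
  rcases S.eq_empty_or_nonempty with rfl | hne
  · exact ⟨1, 1, strictMono_id, strictMono_id, Set.empty_subset _⟩
  obtain ⟨e, he⟩ := hS.exists_eq_range hne
  have hme : ∀ i, StrictMono (e i) := fun i => hm _ (he ▸ Set.mem_range_self i)
  let s : ℕ → G := fun i => (hme i).orderIsoOfSurjective _ (e i).surjective
  have hs : ∀ i, toPerm (s i) = e i := fun i => by ext x; rfl
  have h1 : ∀ i, (psi s)⁻¹ * s i * psi s ∈ KK := fun i => bdd_mem (tame s i)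
  choose A hA hAc hAm using fun i => KK_countable (h1 i)
  have hcount : (insert 1 (⋃ i, A i)).Countable := (Set.countable_iUnion hAc).insert _
  obtain ⟨c, hc⟩ := hcount.exists_eq_range ⟨1, Set.mem_insert _ _⟩
  have hcC : ∀ i, c i ∈ C5 := by
    intro i
    have : c i ∈ insert 1 (⋃ i, A i) := hc ▸ Set.mem_range_self i
    rcases this with h | h
    · rw [h]; exact one_C5
    · obtain ⟨j, hj⟩ := Set.mem_iUnion.1 h
      exact hA j hj
  obtain ⟨g, hg⟩ := seq_C5 c hcC
  have h2 : ∀ i, (psi s)⁻¹ * s i * psi s ∈ Subgroup.closure ({T, g} : Set G) := by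
    intro i
    refine (Subgroup.closure_le _).2 ?_ (hAm i)
    intro x hx
    rcases hx with rfl | hx
    · exact Subgroup.subset_closure (Set.mem_insert _ _)
    · have : x ∈ insert 1 (⋃ i, A i) := Set.mem_insert_of_mem _ (Set.mem_iUnion.2 ⟨i, hx⟩)
      rw [hc] at this
      obtain ⟨j, rfl⟩ := this
      exact hg j
  let Φ : G →* Equiv.Perm ℝ := toPerm.comp (MulAut.conj (psi s)).toMonoidHom
  refine ⟨Φ T, Φ g, toPerm_mono _, toPerm_mono _, ?_⟩
  rw [he]
  rintro _ ⟨i, rfl⟩
  have h3 : Φ ((psi s)⁻¹ * s i * psi s) = e i := by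
    rw [← hs i]
    change toPerm (psi s * ((psi s)⁻¹ * s i * psi s) * (psi s)⁻¹) = _
    congr 1
    group
  rw [← h3]
  have h4 : Φ ((psi s)⁻¹ * s i * psi s) ∈ (Subgroup.closure ({T, g} : Set G)).map Φ :=
    Subgroup.mem_map_of_mem _ (h2 i)
  rw [MonoidHom.map_closure, Set.image_pair] at h4
  exact h4

end Pool.Agent.R663
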